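import Pool.Agent.Lib.MP_9277c3_lc.RN.Spec

/-!
# There is a run of the machine with obligations which has no repetition of states
-/

set_option autoImplicit false

namespace Pool.Agent.Lib.MP_9277c3_lc

namespace RN

open Relation NPDA CM NC RC

variable {α : Type}

/-- The initial state satisfies the invariant. -/
theorem inv_ini (M : NPDA α) (D n h d : ℕ) : Inv M D n h d (ini M) where
  pos := by simp [ini]
  len := by simp [ini]
  good := fun o ho => absurd ho (by simp [ini])
  sorted := by simp [ini]

/-- There are at most `d + 1` obligations. -/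
theorem length_obs {M : NPDA α} {D n h d : ℕ} {s : St M} (hs : Inv M D n h d s) :
    s.2.2.length ≤ d + 1 := by
  have h1 : (s.2.2.map (rk M)).Nodup := by
    rw [List.Nodup, List.pairwise_map]
    exact hs.sorted.imp fun hab => Nat.ne_of_lt hab
  have h2 : s.2.2.map (rk M) ⊆ List.range (d + 1) := by
    intro k hk
    obtain ⟨o, ho, rfl⟩ := List.mem_map.mp hk
    exact List.mem_range.mpr (Nat.lt_succ_of_le (hs.good o ho).rk)
  have h3 := (h1.subperm h2).length_le
  rwa [List.length_map, List.length_range] at h3

section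

variable [Finite α] (M : NPDA α)

/-- A finite set for the obligations. -/
def Oc (D n d : ℕ) : Type := Fp M D × Fin (n + 2) × Fin (n + 2) × Fin (d + 1)

instance (D n d : ℕ) : Finite (Oc M D n d) := by
  have := M.finite_state
  have := M.finite_stack
  unfold Oc
  infer_instance

omit [Finite α] in
theorem card_Oc (D n d : ℕ) : Nat.card (Oc M D n d) + 1 = nB M D n d := by
  have e : Nat.card (Oc M D n d) =
      Nat.card (Fp M D) * (Nat.card (Fin (n + 2)) * (Nat.card (Fin (n + 2)) *
        Nat.card (Fin (d + 1)))) := by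
    have e1 := Nat.card_prod (Fp M D) (Fin (n + 2) × Fin (n + 2) × Fin (d + 1))
    have e2 := Nat.card_prod (Fin (n + 2)) (Fin (n + 2) × Fin (d + 1))
    have e3 := Nat.card_prod (Fin (n + 2)) (Fin (d + 1))
    rw [e3] at e2
    rw [e2] at e1
    exact e1
  rw [e, Nat.card_fin, Nat.card_fin, nB]
  ring

/-- An obligation as an element of a finite set. -/
noncomputable def oc (D n d : ℕ) (o : Ob M) : Oc M D n d :=
  (fp M D o, Fin.ofNat (n + 2) o.1.2.1, Fin.ofNat (n + 2) (tp M o), Fin.ofNat (d + 1) (rk M o))

variable {M}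

omit [Finite α] in
theorem tp_le' {D n d : ℕ} {ob : Ob M} (hg : Good M D n d ob) : tp M ob ≤ n + 1 := by
  obtain ⟨c, t, k⟩ := ob
  cases t with
  | none => exact Nat.zero_le _
  | some p => exact hg.tgt p.1 p.2 rfl

theorem ofNat_inj {m a b : ℕ} [NeZero m] (ha : a < m) (hb : b < m)
    (h : Fin.ofNat m a = Fin.ofNat m b) : a = b := by
  have h1 := congrArg Fin.val h
  simpa [Fin.ofNat, Nat.mod_eq_of_lt ha, Nat.mod_eq_of_lt hb] using h1

omit [Finite α] in
theorem oc_inj {D n d : ℕ} {o o' : Ob M} (ho : Good M D n d o) (ho' : Good M D n d o')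
    (h : oc M D n d o = oc M D n d o') : o = o' := by
  have e1 : fp M D o = fp M D o' := congrArg (fun t => t.1) h
  have e2 : o.1.2.1 = o'.1.2.1 := ofNat_inj (Nat.lt_succ_of_le ho.pos) (Nat.lt_succ_of_le ho'.pos)
    (congrArg (fun t => t.2.1) h)
  have e3 : tp M o = tp M o' := ofNat_inj (Nat.lt_succ_of_le (tp_le' ho))
    (Nat.lt_succ_of_le (tp_le' ho')) (congrArg (fun t => t.2.2.1) h)
  have e4 : rk M o = rk M o' := ofNat_inj (Nat.lt_succ_of_le ho.rk) (Nat.lt_succ_of_le ho'.rk)
    (congrArg (fun t => t.2.2.2) h)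
  have f1 : o.1.1 = o'.1.1 := congrArg (fun t => t.1) e1
  have f2 : mkl M D o.1.2.2 = mkl M D o'.1.2.2 := congrArg (fun t => t.2.1) e1
  have f3 : o.2.1.map Prod.fst = o'.2.1.map Prod.fst := congrArg (fun t => t.2.2) e1
  have f4 : o.1.2.2 = o'.1.2.2 := by
    unfold mkl at f2
    rw [dif_pos ho.len, dif_pos ho'.len] at f2
    exact congrArg Subtype.val f2
  obtain ⟨⟨q, i, β⟩, t, k⟩ := o
  obtain ⟨⟨q', i', β'⟩, t', k'⟩ := o'
  simp only at e2 e4 f1 f3 f4
  subst e2 e4 f1 f4
  cases t with
  | none =>
    cases t' with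
    | none => rfl
    | some p' => simp at f3
  | some p =>
    cases t' with
    | none => simp at f3
    | some p' =>
      obtain ⟨a, b⟩ := p
      obtain ⟨a', b'⟩ := p'
      simp only [Option.map_some, Option.some.injEq] at f3
      simp only [tp] at e3
      subst f3 e3
      rfl

/-- **CNT.** There is a run without repetitions of states. -/
theorem cntSpec (M : NPDA α) (D : ℕ) : CntSpec M D := by
  classical
  intro hD h1 hOb x h d hx
  obtain ⟨hiff, hinv⟩ := hOb hD h1 x h d
  obtain ⟨T, f, h0, hP, hf, hinj⟩ := exists_injective_path (hiff.mp hx)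
  have hb : ∀ m, m ≤ T → Inv M D x.length h d (f m) := by
    intro m
    induction m with
    | zero =>
      intro _
      rw [h0]
      exact inv_ini M D x.length h d
    | succ m ih =>
      intro hm
      exact hinv _ _ (hf m (by omega)) (ih (by omega))
  refine ⟨T, f, ?_, h0, hf, hb, hP⟩
  have := M.finite_state
  have := M.finite_stack
  let g : Fin (T + 1) → M.State × Fin (x.length + 2) × (Fin (h + D + 1) → Option M.Stack) × Bool ×
      (Fin (d + 1) → Option (Oc M D x.length d)) :=
    fun k => ((f k).1.1, Fin.ofNat (x.length + 2) (f k).1.2.1, fun j => (f k).1.2.2[(j : ℕ)]?,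
      (f k).2.1, fun j => ((f k).2.2[(j : ℕ)]?).map (oc M D x.length d))
  have hg : Function.Injective g := by
    intro a b hab
    have ha' := hb a (Nat.le_of_lt_succ a.2)
    have hb' := hb b (Nat.le_of_lt_succ b.2)
    have e1 : (f a).1.1 = (f b).1.1 := congrArg (fun t => t.1) hab
    have e2 : (f a).1.2.1 = (f b).1.2.1 := ofNat_inj (Nat.lt_succ_of_le ha'.pos)
      (Nat.lt_succ_of_le hb'.pos) (congrArg (fun t => t.2.1) hab)
    have e3 : (f a).1.2.2 = (f b).1.2.2 := by
      apply List.ext_getElem?
      intro j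
      by_cases hj : j < h + D + 1
      · exact congrFun (congrArg (fun t => t.2.2.1) hab) ⟨j, hj⟩
      · rw [List.getElem?_eq_none (by have := ha'.len; omega),
          List.getElem?_eq_none (by have := hb'.len; omega)]
    have e4 : (f a).2.1 = (f b).2.1 := congrArg (fun t => t.2.2.2.1) hab
    have e5 : (f a).2.2 = (f b).2.2 := by
      apply List.ext_getElem?
      intro j
      by_cases hj : j < d + 1
      · have e6 : ((f a).2.2[j]?).map (oc M D x.length d) =
            ((f b).2.2[j]?).map (oc M D x.length d) :=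
          congrFun (congrArg (fun t => t.2.2.2.2) hab) ⟨j, hj⟩
        cases ea : (f a).2.2[j]? with
        | none =>
          cases eb : (f b).2.2[j]? with
          | none => rfl
          | some o' => rw [ea, eb] at e6; simp at e6
        | some o =>
          cases eb : (f b).2.2[j]? with
          | none => rw [ea, eb] at e6; simp at e6
          | some o' =>
            rw [ea, eb, Option.map_some, Option.map_some, Option.some.injEq] at e6
            rw [oc_inj (ha'.good o (List.mem_of_getElem? ea)) (hb'.good o' (List.mem_of_getElem? eb))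
              e6]
      · rw [List.getElem?_eq_none (by have := length_obs ha'; omega),
          List.getElem?_eq_none (by have := length_obs hb'; omega)]
    have e : f a = f b := Prod.ext (Prod.ext e1 (Prod.ext e2 e3)) (Prod.ext e4 e5)
    rcases lt_trichotomy (a : ℕ) (b : ℕ) with h1 | h1 | h1
    · exact absurd e (hinj a b h1 (Nat.le_of_lt_succ b.2))
    · exact Fin.ext h1
    · exact absurd e.symm (hinj b a h1 (Nat.le_of_lt_succ a.2))
  have hcard := Nat.card_le_card_of_injective g hg
  rw [Nat.card_prod, Nat.card_prod, Nat.card_prod, Nat.card_prod, Nat.card_fun, Nat.card_fun,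
    Nat.card_fin, Nat.card_fin, Nat.card_fin, Nat.card_fin, Finite.card_option,
    Finite.card_option, card_Oc, Nat.card_eq_fintype_card (α := Bool), Fintype.card_bool] at hcard
  refine lt_of_lt_of_le (Nat.lt_of_succ_le hcard) ?_
  rw [SZ]
  calc Nat.card M.State * ((x.length + 2) * ((Nat.card M.Stack + 1) ^ (h + D + 1) *
        (2 * nB M D x.length d ^ (d + 1))))
      = 2 * Nat.card M.State * ((x.length + 2) * (Nat.card M.Stack + 1) ^ (h + D + 1) *
        nB M D x.length d ^ (d + 1)) := by ring
    _ ≤ _ := by
      refine Nat.mul_le_mul_left _ (Nat.mul_le_mul_left _ ?_)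
      exact Nat.pow_le_pow_right (Nat.succ_pos _) (Nat.le_succ _)

end

end RN

end Pool.Agent.Lib.MP_9277c3_lc
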