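import Pool.Agent.Lib.MP_9277c3_lc.RC.Macro

/-!
# The rank of the runs of a nondeterministic pushdown automaton
-/

set_option autoImplicit false

namespace Pool.Agent.Lib.MP_9277c3_lc

namespace NPDA

open Relation

variable {α : Type} (M : NPDA α)

/-- `Rank x k (q, i, β) t`: there is a run of rank at most `k` on the input `x` which starts in the
state `q` at position `i` with nothing but the symbols `β` on its stack and, if `t` is the pair
`(q', j)`, removes `β` and ends in the state `q'` at position `j`, or, if `t` is `none`, reaches an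
accepting configuration. A run without choices has rank `0`. If the run on `r.2.2` after the first
step `r` on the symbol `X` has rank at most `k + 1` then so has the run on `X`. A run on `β ++ γ`
consists of a run which removes `β` and a run on `γ`; it has rank at most `k + 1` if one of them has
rank at most `k + 1` and the other one has rank at most `k`. -/
inductive Rank (x : List α) : ℕ → M.Cfg → Option (M.State × ℕ) → Prop
  | det (k : ℕ) (c : M.Cfg) (q : M.State) (j : ℕ)
      (hD : ReflTransGen (M.DStep x) c (q, j, [])) : Rank x k c (some (q, j))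
  | acc (k : ℕ) (c : M.Cfg) (q : M.State) (j : ℕ) (γ : List M.Stack)
      (hD : ReflTransGen (M.DStep x) c (q, j, γ)) (ha : M.accepting q (cell x j)) :
      Rank x k c none
  | step (k : ℕ) (q : M.State) (i : ℕ) (X : M.Stack) (r : M.State × Move × List M.Stack)
      (t : Option (M.State × ℕ)) (hr : r ∈ M.next q (cell x i) X)
      (hR : Rank x (k + 1) (r.1, r.2.1.apply x.length i, r.2.2) t) :
      Rank x (k + 1) (q, i, [X]) t
  | left (k : ℕ) (q : M.State) (i : ℕ) (β γ : List M.Stack) (hR : Rank x k (q, i, β) none) :
      Rank x k (q, i, β ++ γ) none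
  | fst (k : ℕ) (q : M.State) (i : ℕ) (β γ : List M.Stack) (q' : M.State) (j : ℕ)
      (t : Option (M.State × ℕ)) (h₁ : Rank x (k + 1) (q, i, β) (some (q', j)))
      (h₂ : Rank x k (q', j, γ) t) : Rank x (k + 1) (q, i, β ++ γ) t
  | snd (k : ℕ) (q : M.State) (i : ℕ) (β γ : List M.Stack) (q' : M.State) (j : ℕ)
      (t : Option (M.State × ℕ)) (h₁ : Rank x k (q, i, β) (some (q', j)))
      (h₂ : Rank x (k + 1) (q', j, γ) t) : Rank x (k + 1) (q, i, β ++ γ) t

/-- An accepting configuration is reached from the configuration by a run in which, whenever there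
are more than `h` symbols on the stack, the topmost symbol is removed, or the run is finished, by a
run of rank at most `d`; there is no condition on the choices if there are at most `h` symbols on
the stack. -/
inductive AccR (x : List α) (h d : ℕ) : M.Cfg → Prop
  | here (q : M.State) (i : ℕ) (γ : List M.Stack) (ha : M.accepting q (cell x i)) :
      AccR x h d (q, i, γ)
  | low (q : M.State) (i : ℕ) (X : M.Stack) (γ : List M.Stack)
      (r : M.State × Move × List M.Stack) (hl : (X :: γ).length ≤ h)
      (hr : r ∈ M.next q (cell x i) X)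
      (hA : AccR x h d (r.1, r.2.1.apply x.length i, r.2.2 ++ γ)) : AccR x h d (q, i, X :: γ)
  | high (q : M.State) (i : ℕ) (X : M.Stack) (γ : List M.Stack) (q' : M.State) (j : ℕ)
      (hl : h < (X :: γ).length) (hR : M.Rank x d (q, i, [X]) (some (q', j)))
      (hA : AccR x h d (q', j, γ)) : AccR x h d (q, i, X :: γ)
  | last (q : M.State) (i : ℕ) (X : M.Stack) (γ : List M.Stack)
      (hl : h < (X :: γ).length) (hR : M.Rank x d (q, i, [X]) none) : AccR x h d (q, i, X :: γ)

/-- Acceptance by a run of rank at most `d` above the height `h`. -/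
def AcceptsRank (h d : ℕ) (x : List α) : Prop := M.AccR x h d (M.start, 1, [M.bottom])

end NPDA

/-! ### The abstract machine with obligations -/

namespace RN

open Relation

variable {α : Type} (M : NPDA α)

/-- An obligation: a configuration, a target, and a rank. -/
abbrev Ob : Type := M.Cfg × Option (M.State × ℕ) × ℕ

/-- The rank of an obligation. -/
abbrev rk (o : Ob M) : ℕ := o.2.2

/-- Conditions on an obligation: the positions are at most `n + 1`, there are at most `D` symbols,
the rank is at most `d`. -/
structure Good (D n d : ℕ) (o : Ob M) : Prop where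
  pos : o.1.2.1 ≤ n + 1
  len : o.1.2.2.length ≤ D
  tgt : ∀ q j, o.2.1 = some (q, j) → j ≤ n + 1
  rk : rk M o ≤ d

/-- An obligation is replaced by zero, one or two obligations. -/
inductive Rule (x : List α) : Ob M → List (Ob M) → Prop
  | fin (q : M.State) (i k : ℕ) : Rule x ((q, i, []), some (q, i), k) []
  | acc (q : M.State) (i : ℕ) (β : List M.Stack) (k : ℕ) (ha : M.accepting q (cell x i)) :
      Rule x ((q, i, β), none, k) []
  | aqry (q : M.State) (i : ℕ) (X : M.Stack) (β : List M.Stack) (k : ℕ)
      (hQ : M.Query x q i X none 0) : Rule x ((q, i, X :: β), none, k) []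
  | adv (q : M.State) (i : ℕ) (X : M.Stack) (β : List M.Stack) (t : Option (M.State × ℕ)) (k : ℕ)
      (q' : M.State) (j : ℕ) (hj : j ≤ x.length + 1) (hQ : M.Query x q i X (some q') j) :
      Rule x ((q, i, X :: β), t, k) [((q', j, β), t, k)]
  | step (q : M.State) (i : ℕ) (X : M.Stack) (t : Option (M.State × ℕ)) (k : ℕ)
      (r : M.State × Move × List M.Stack) (hr : r ∈ M.next q (cell x i) X) :
      Rule x ((q, i, [X]), t, k + 1) [((r.1, r.2.1.apply x.length i, r.2.2), t, k + 1)]
  | left (q : M.State) (i : ℕ) (β γ : List M.Stack) (k : ℕ) :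
      Rule x ((q, i, β ++ γ), none, k) [((q, i, β), none, k)]
  | fst (q : M.State) (i : ℕ) (β γ : List M.Stack) (t : Option (M.State × ℕ)) (k : ℕ)
      (q' : M.State) (j : ℕ) (hj : j ≤ x.length + 1) :
      Rule x ((q, i, β ++ γ), t, k + 1)
        [((q', j, γ), t, k), ((q, i, β), some (q', j), k + 1)]
  | snd (q : M.State) (i : ℕ) (β γ : List M.Stack) (t : Option (M.State × ℕ)) (k : ℕ)
      (q' : M.State) (j : ℕ) (hj : j ≤ x.length + 1) :
      Rule x ((q, i, β ++ γ), t, k + 1)
        [((q, i, β), some (q', j), k), ((q', j, γ), t, k + 1)]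

/-- The states of the abstract machine: a configuration; `true` if the automaton accepts as soon as
there is no obligation; the list of the obligations. -/
abbrev St : Type := M.Cfg × Bool × List (Ob M)

/-- The steps of the abstract machine. -/
inductive AS (x : List α) (h d : ℕ) : St M → St M → Prop
  | low (q : M.State) (i : ℕ) (X : M.Stack) (γ : List M.Stack)
      (r : M.State × Move × List M.Stack) (hl : (X :: γ).length ≤ h)
      (hr : r ∈ M.next q (cell x i) X) :
      AS x h d ((q, i, X :: γ), false, []) ((r.1, r.2.1.apply x.length i, r.2.2 ++ γ), false, [])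
  | high (q : M.State) (i : ℕ) (X : M.Stack) (γ : List M.Stack) (q' : M.State) (j : ℕ)
      (hl : h < (X :: γ).length) (hj : j ≤ x.length + 1) :
      AS x h d ((q, i, X :: γ), false, [])
        ((q', j, γ), false, [((q, i, [X]), some (q', j), d)])
  | last (q : M.State) (i : ℕ) (X : M.Stack) (γ : List M.Stack) (hl : h < (X :: γ).length) :
      AS x h d ((q, i, X :: γ), false, []) ((q, i, X :: γ), true, [((q, i, [X]), none, d)])
  | rule (c : M.Cfg) (ac : Bool) (o : Ob M) (os new : List (Ob M)) (hR : Rule M x o new) :
      AS x h d (c, ac, o :: os) (c, ac, new ++ os)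

/-- The accepting states of the abstract machine. -/
def Acc (x : List α) (s : St M) : Prop :=
  s.2.2 = [] ∧ (s.2.1 = true ∨ M.accepting s.1.1 (cell x s.1.2.1))

/-- The initial state of the abstract machine. -/
def ini : St M := ((M.start, 1, [M.bottom]), false, [])

/-- The invariant of the abstract machine. -/
structure Inv (D n h d : ℕ) (s : St M) : Prop where
  pos : s.1.2.1 ≤ n + 1
  len : s.1.2.2.length ≤ h + D + 1
  good : ∀ o ∈ s.2.2, Good M D n d o
  sorted : s.2.2.Pairwise fun o o' => rk M o < rk M o'

/-- OBL, statement: the abstract machine is correct. -/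
def ObSpec (D : ℕ) : Prop := (∀ q c X, ∀ r ∈ M.next q c X, r.2.2.length ≤ D) → 1 ≤ D →
  ∀ (x : List α) (h d : ℕ), (M.AcceptsRank h d x ↔
    ∃ s, ReflTransGen (AS M x h d) (ini M) s ∧ Acc M x s) ∧
  ∀ s s', AS M x h d s s' → Inv M D x.length h d s → Inv M D x.length h d s'

end RN

end Pool.Agent.Lib.MP_9277c3_lc
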