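import Pool.Agent.Lib.MP_9277c3_lc.RN.Spec
import Pool.Agent.Lib.MP_9277c3_lc.RC.Final

/-!
# Runs of small rank: assembly of the machine
-/

set_option autoImplicit false

namespace Pool.Agent.Lib.MP_9277c3_lc

namespace RN

open CM NC RC

/-! ### Numbers -/

theorem logpow_le (n : ℕ) : n + 2 ≤ 2 ^ (2 * Nat.log 2 (n + 2)) := by
  have h1 := one_le_log n
  have h3 : n + 2 < 2 ^ (Nat.log 2 (n + 2) + 1) := Nat.lt_pow_succ_log_self (by norm_num) _
  exact h3.le.trans (Nat.pow_le_pow_right (by norm_num) (by omega))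

theorem le_two_pow_mul (K : ℕ) {L : ℕ} (hL : 1 ≤ L) : K ≤ 2 ^ (K * L) :=
  (Nat.lt_two_pow_self (n := K)).le.trans
    (Nat.pow_le_pow_right (by norm_num) (Nat.le_mul_of_pos_right _ hL))

/-- The base of the numbers of lists of obligations is polynomial. -/
theorem base_le (kf b n : ℕ) :
    kf * (n + 2) ^ 2 * (b * (Nat.sqrt (Nat.log 2 (n + 2)) + 1) + 1) + 1 ≤
      2 ^ ((kf + b + 7) * Nat.log 2 (n + 2)) := by
  have hL := one_le_log n
  have h1 := logpow_le n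
  generalize Nat.log 2 (n + 2) = L at hL h1 ⊢
  have h2 : Nat.sqrt L ≤ L := Nat.sqrt_le_self L
  have h3 : L + 1 ≤ 2 ^ L := Nat.lt_two_pow_self
  have h4 : b * (Nat.sqrt L + 1) + 1 ≤ 2 ^ ((b + 1) * L + L) := by
    calc b * (Nat.sqrt L + 1) + 1 ≤ (b + 1) * (L + 1) := by nlinarith
      _ ≤ 2 ^ ((b + 1) * L) * 2 ^ L := Nat.mul_le_mul (le_two_pow_mul _ hL) h3
      _ = 2 ^ ((b + 1) * L + L) := (pow_add _ _ _).symm
  have h5 : (n + 2) ^ 2 ≤ 2 ^ (4 * L) := by
    calc (n + 2) ^ 2 ≤ (2 ^ (2 * L)) ^ 2 := Nat.pow_le_pow_left h1 2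
      _ = 2 ^ (4 * L) := by rw [← pow_mul]; congr 1; ring
  have h6 : kf * (n + 2) ^ 2 * (b * (Nat.sqrt L + 1) + 1) ≤
      2 ^ (kf * L + 4 * L + ((b + 1) * L + L)) :=
    mul_le_two_pow (mul_le_two_pow (le_two_pow_mul kf hL) h5) h4
  have h7 : 1 ≤ 2 ^ (kf * L + 4 * L + ((b + 1) * L + L)) := Nat.one_le_two_pow
  calc kf * (n + 2) ^ 2 * (b * (Nat.sqrt L + 1) + 1) + 1 ≤
        2 * 2 ^ (kf * L + 4 * L + ((b + 1) * L + L)) := by omega
    _ = 2 ^ (kf * L + 4 * L + ((b + 1) * L + L) + 1) := by rw [pow_succ, Nat.mul_comm]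
    _ ≤ 2 ^ ((kf + b + 7) * L) := Nat.pow_le_pow_right (by norm_num) (by nlinarith)

theorem basepow_le (kf b n : ℕ) :
    (kf * (n + 2) ^ 2 * (b * (Nat.sqrt (Nat.log 2 (n + 2)) + 1) + 1) + 1) ^
      (b * (Nat.sqrt (Nat.log 2 (n + 2)) + 1) + 2) ≤ 2 ^ ((kf + b + 7) * (b + 2) * W n) := by
  refine (Nat.pow_le_pow_left (base_le kf b n) _).trans ?_
  rw [← pow_mul]
  refine Nat.pow_le_pow_right (by norm_num) ?_
  unfold W
  calc (kf + b + 7) * Nat.log 2 (n + 2) * (b * (Nat.sqrt (Nat.log 2 (n + 2)) + 1) + 2) ≤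
        (kf + b + 7) * Nat.log 2 (n + 2) * ((b + 2) * (Nat.sqrt (Nat.log 2 (n + 2)) + 1)) :=
        Nat.mul_le_mul_left _ (by nlinarith)
    _ = (kf + b + 7) * (b + 2) *
        (Nat.log 2 (n + 2) * (Nat.sqrt (Nat.log 2 (n + 2)) + 1)) := by ring

/-! ### The initial program -/

/-- The registers of the initial program in the large program. -/
def rJ (S : Type) : RJ → S ⊕ RP
  | .n => Sum.inr .n
  | .L => Sum.inr .t'
  | .s => Sum.inr .vv
  | .h => Sum.inr .h
  | .d => Sum.inr .d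
  | .B => Sum.inr .B
  | .C => Sum.inr .C
  | .i => Sum.inr .t
  | .t => Sum.inr .ky

theorem rJ_inj (S : Type) : Function.Injective (rJ S) := by
  intro a b h
  cases a <;> cases b <;> first | rfl | (simp only [rJ, Sum.inr.injEq, reduceCtorEq] at h)

instance : Finite RP := by
  have h : ∀ r : RP, r ∈ ({.n, .h, .d, .B, .C, .q, .i, .Z, .H, .ac, .Y, .go, .res, .qq, .qi, .X,
      .dd, .j, .ph, .i1, .i2, .kk, .ky, .op, .vv, .fl, .t, .t'} : Set RP) := by
    intro r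
    cases r <;> simp
  exact Set.finite_univ_iff.1 ((Set.toFinite _).subset fun r _ => h r)

section

variable {α : Type} [Finite α] (M : NPDA α)

/-- The bound for the rank. -/
def dn (b n : ℕ) : ℕ := b * (Nat.sqrt (Nat.log 2 (n + 2)) + 1)

omit [Finite α] in
theorem rJ_init (S : Type) (b D n : ℕ) :
    upd (upd (mrg (rJ S) (finJ b (Nat.card M.State) (Nat.card (Fp M D)) (Nat.card M.Stack + 1) D n)
        (fun _ => 0)) (Sum.inr .t') 0) (Sum.inr .vv) 0 =
      Sum.elim (fun _ => 0) (iniP M D n (b * W n) (dn b n)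
        (2 * Nat.card M.State * SZ M D n (b * W n) (dn b n))) := by
  have hi := rJ_inj S
  set g := finJ b (Nat.card M.State) (Nat.card (Fp M D)) (Nat.card M.Stack + 1) D n with hg
  funext q
  by_cases h1 : q = Sum.inr .vv
  · subst h1
    rw [upd_self]
    rfl
  rw [upd_ne h1]
  by_cases h2 : q = Sum.inr .t'
  · subst h2
    rw [upd_self]
    rfl
  rw [upd_ne h2]
  rcases q with s | r
  · rw [mrg_of_not _ _ (by intro r; cases r <;> simp [rJ])]
    rfl
  · have h3 : ∀ a : RJ, mrg (rJ S) g (fun _ => 0) (rJ S a) = g a :=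
      fun a => mrg_apply hi _ _ a
    have h4 : ∀ r : RP, (∀ a : RJ, rJ S a ≠ Sum.inr r) →
        mrg (rJ S) g (fun _ => 0) (Sum.inr r) = 0 :=
      fun r hr => mrg_of_not _ _ hr
    cases r
    case n => exact h3 .n
    case h => exact h3 .h
    case d => exact h3 .d
    case B => exact h3 .B
    case C => exact h3 .C
    case t => exact h3 .i
    case ky => exact h3 .t
    case vv => exact absurd rfl h1
    case t' => exact absurd rfl h2
    all_goals
      rw [h4 _ (by intro a; cases a <;> simp [rJ])]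
      rfl

/-! ### Assembly -/

/-- The machine, from the parts. -/
theorem machine_of (hM : M.OneWay) (b : ℕ) {D K₀ : ℕ}
    (hI : InitSpecR α b (Nat.card M.State) (Nat.card (Fp M D)) (Nat.card M.Stack + 1) D)
    (hO : OuterSpecR M K₀ D) (hR : RenSpec M) (hS : SimSpec M) :
    ∃ (c : ℕ) (T : NTM α), T.AcceptsIn
      (fun x => M.AcceptsRank (b * W x.length) (dn b x.length) x) fun n => c * W n := by
  obtain ⟨c₁, T, -, hT, -, -, -⟩ := NS.dpda_unambiguous M.Sym2 M.qM (M.qM_oneWay hM)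
  obtain ⟨K₁, S, _, res, hS⟩ := hS T
  obtain ⟨qry, hq⟩ := hS Empty
  have hq := hq _ hT
  obtain ⟨qry', hq'⟩ := hR S res qry
  obtain ⟨P, hP⟩ := hO (S ⊕ RO) (Sum.inl res) qry'
  obtain ⟨PI, KI, hPI⟩ := hI
  let body₀ : Empty → NStmt (S ⊕ RO) Empty := fun f => nomatch f
  let body : Empty → NStmt ((S ⊕ RO) ⊕ RP) Empty := fun f => nomatch f
  let prog : NStmt ((S ⊕ RO) ⊕ RP) Empty := sqN [NC.ren (rJ (S ⊕ RO)) (fun f => f) PI,
    NC.asg (Sum.inr .t') 0, NC.asg (Sum.inr .vv) 0, P]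
  obtain ⟨c₂, hc₂⟩ := exists_NTM_of_run (α := α) cod body prog (Sum.inr .res)
  obtain ⟨a, ha1, ha2, ha3, ha4⟩ : ∃ a : ℕ, KI ≤ a ∧
      K₀ + (2 + (Nat.card M.Stack + 1) * (b + D + 1) +
        (Nat.card (Fp M D) + b + 7) * (b + 2)) ≤ a ∧
      K₁ + (3 + K₁ * (c₁ * 4)) ≤ a ∧ 1 ≤ a :=
    ⟨KI + (K₀ + (2 + (Nat.card M.Stack + 1) * (b + D + 1) +
        (Nat.card (Fp M D) + b + 7) * (b + 2))) + (K₁ + (3 + K₁ * (c₁ * 4))) + 1,
      by omega, by omega, by omega, by omega⟩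
  have hA : ∀ {k : ℕ} (n : ℕ), k ≤ a → 2 ^ (k * W n) ≤ 2 ^ (a * W n) := fun n hk =>
    Nat.pow_le_pow_right (by norm_num) (Nat.mul_le_mul_right _ hk)
  have hA2 : ∀ n, 2 ≤ 2 ^ (a * W n) := fun n => by
    have h1 : 1 ≤ a * W n := Nat.one_le_iff_ne_zero.2
      (Nat.mul_ne_zero (by omega) (by have := W_pos n; omega))
    calc 2 = 2 ^ 1 := rfl
      _ ≤ 2 ^ (a * W n) := Nat.pow_le_pow_right (by norm_num) h1
  have hO' : ∀ n, K₀ * SZ M D n (b * W n) (dn b n) ≤ 2 ^ (a * W n) := fun n => by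
    have h1 : (Nat.card M.Stack + 1) ^ (b * W n + D + 1) ≤
        2 ^ ((Nat.card M.Stack + 1) * (b + D + 1) * W n) := by
      refine (pow_le_two _ _).trans (Nat.pow_le_pow_right (by norm_num) ?_)
      rw [Nat.mul_assoc]
      refine Nat.mul_le_mul_left _ ?_
      have := W_pos n
      nlinarith
    refine (mul_le_two_pow (const_le K₀ n) (mul_le_two_pow (mul_le_two_pow (le_two_pow_W n) h1)
      (basepow_le (Nat.card (Fp M D)) b n))).trans ?_
    rw [← Nat.add_mul, ← Nat.add_mul, ← Nat.add_mul]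
    exact hA n ha2
  have hS' : ∀ n, K₁ * ((n + 4) * K₁ ^ (c₁ * W (n + 2))) ≤ 2 ^ (a * W n) := fun n => by
    have h1 : K₁ ^ (c₁ * W (n + 2)) ≤ 2 ^ (K₁ * (c₁ * 4) * W n) := by
      refine (pow_le_two _ _).trans (Nat.pow_le_pow_right (by norm_num) ?_)
      rw [Nat.mul_assoc, Nat.mul_assoc]
      exact Nat.mul_le_mul_left _ (Nat.mul_le_mul_left _ (W_add_two n))
    have h2 : n + 4 ≤ 2 ^ (3 * W n) := by
      have h3 := le_two_pow_W n
      have h4 := W_pos n
      calc n + 4 ≤ 2 * 2 ^ (2 * W n) := by omega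
        _ = 2 ^ (2 * W n + 1) := by rw [pow_succ, Nat.mul_comm]
        _ ≤ 2 ^ (3 * W n) := Nat.pow_le_pow_right (by norm_num) (by omega)
    refine (mul_le_two_pow (const_le K₁ n) (mul_le_two_pow h2 h1)).trans ?_
    rw [← Nat.add_mul, ← Nat.add_mul]
    exact hA n ha3
  have hrun : ∀ (x : List α) {u v : ℕ → Bool} {t : (S ⊕ RO) ⊕ RP → ℕ},
      RunN x cod (2 ^ (a * W x.length)) body 0 P (Sum.elim (fun _ => 0) (iniP M D x.length
        (b * W x.length) (dn b x.length)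
        (2 * Nat.card M.State * SZ M D x.length (b * W x.length) (dn b x.length)))) u t v →
      RunN x cod (2 ^ (a * W x.length)) body 0 prog (fun _ => 0) u t v := fun x u v t h => by
    have h0 : 0 < 2 ^ (a * W x.length) := Nat.two_pow_pos _
    have h1 := hPI x (2 ^ (a * W x.length)) (hA _ ha1)
    have h2 := RunA.ren (rJ_inj (S ⊕ RO)) (φ := fun f : Empty => f) (body := body)
      (fun f => nomatch f) h1 (fun _ => 0) u
    have h3 : mrg (rJ (S ⊕ RO)) (fun _ => 0) (fun _ => 0) =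
        (fun _ : (S ⊕ RO) ⊕ RP => (0 : ℕ)) := by
      funext q
      by_cases hq : ∃ r, rJ (S ⊕ RO) r = q
      · obtain ⟨r, rfl⟩ := hq
        exact mrg_apply (rJ_inj (S ⊕ RO)) _ _ r
      · exact mrg_of_not _ _ fun r hr => hq ⟨r, hr⟩
    rw [h3] at h2
    refine RunN.cons h2 (RunN.set 0 rfl h0 (RunN.set 0 rfl h0 (RunN.cons ?_ RunN.nil)))
    rw [rJ_init]
    exact h
  have hmain := fun x : List α => hP x (2 ^ (a * W x.length)) 0 body
    (hq' x _ 0 body₀ body (hq x _ 0 body₀ (hS' x.length))) (b * W x.length) (dn b x.length) _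
    (hO' x.length) rfl
  obtain ⟨T', hT'⟩ := hc₂ (fun x => M.AcceptsRank (b * W x.length) (dn b x.length) x)
    (fun n => 2 ^ (a * W n)) (fun _ => 0) hA2
    (fun x u => by
      obtain ⟨t, v, h, -⟩ := (hmain x).1 u
      exact ⟨t, v, hrun x h⟩)
    (fun x => by
      constructor
      · intro hx
        obtain ⟨u, t, v, h, ht⟩ := (hmain x).2 hx
        exact ⟨u, t, v, hrun x h, ht⟩
      · rintro ⟨u, t, v, h, ht⟩
        obtain ⟨t', v', h', ht'⟩ := (hmain x).1 u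
        obtain ⟨rfl, -⟩ := RunN.det h (hrun x h')
        exact ht' ht)
  refine ⟨c₂ * (a + 1), T', AcceptsIn.mono hT' fun n => ?_⟩
  rw [Nat.log_pow (by norm_num), Nat.mul_assoc]
  refine Nat.mul_le_mul_left _ ?_
  have := W_pos n
  rw [Nat.add_mul]
  omega

end

end RN

end Pool.Agent.Lib.MP_9277c3_lc
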