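import Pool.Agent.Lib.MP_9277c3_lc.RN.Defs

/-!
# The abstract machine with obligations is correct
-/

set_option autoImplicit false

namespace Pool.Agent.Lib.MP_9277c3_lc

namespace RN

open Relation NPDA

variable {α : Type} (M : NPDA α)

/-! ### Deterministic runs -/

theorem dstep_under {x : List α} {c c' : M.Cfg} (hD : M.DStep x c c') (γ : List M.Stack) :
    M.DStep x (M.under γ c) (M.under γ c') := by
  cases hD with
  | mk q i X δ r hr =>
    have h1 := DStep.mk (M := M) (x := x) q i X (δ ++ γ) r hr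
    simpa [under, List.append_assoc] using h1

theorem dsteps_under {x : List α} {c c' : M.Cfg} (hD : ReflTransGen (M.DStep x) c c')
    (γ : List M.Stack) : ReflTransGen (M.DStep x) (M.under γ c) (M.under γ c') :=
  ReflTransGen.lift (M.under γ) (fun _ _ hs => dstep_under M hs γ) _ _ hD

/-- A deterministic run on `δ ++ β`. -/
theorem dcut {x : List α} {c c' : M.Cfg} (hD : ReflTransGen (M.DStep x) c c') :
    ∀ (q : M.State) (i : ℕ) (δ β : List M.Stack), c = (q, i, δ ++ β) →
    (∃ γ, ReflTransGen (M.DStep x) (q, i, δ) (c'.1, c'.2.1, γ)) ∨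
    (∃ q₁ j₁, ReflTransGen (M.DStep x) (q, i, δ) (q₁, j₁, []) ∧
      ReflTransGen (M.DStep x) (q₁, j₁, β) c') := by
  induction hD using ReflTransGen.head_induction_on with
  | refl =>
    intro q i δ β hc
    subst hc
    exact Or.inl ⟨δ, ReflTransGen.refl⟩
  | head h1 h2 ih =>
    intro q i δ β hc
    subst hc
    cases δ with
    | nil => exact Or.inr ⟨q, i, ReflTransGen.refl, ReflTransGen.head h1 h2⟩
    | cons Y δ =>
      rw [List.cons_append] at h1
      cases h1 with
      | mk _ _ _ _ r hr =>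
        have hd : M.DStep x (q, i, Y :: δ) (r.1, r.2.1.apply x.length i, r.2.2 ++ δ) :=
          DStep.mk q i Y δ r hr
        rcases ih r.1 (r.2.1.apply x.length i) (r.2.2 ++ δ) β (by rw [List.append_assoc]) with
          ⟨γ, h3⟩ | ⟨q₁, j₁, h3, h4⟩
        · exact Or.inl ⟨γ, ReflTransGen.head hd h3⟩
        · exact Or.inr ⟨q₁, j₁, ReflTransGen.head hd h3, h4⟩

/-- A deterministic run which removes `X :: β`. -/
theorem dcut_pop {x : List α} {q q' : M.State} {i j : ℕ} {X : M.Stack} {β : List M.Stack}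
    (hD : ReflTransGen (M.DStep x) (q, i, X :: β) (q', j, [])) :
    ∃ q₁ j₁, ReflTransGen (M.DStep x) (q, i, [X]) (q₁, j₁, []) ∧
      ReflTransGen (M.DStep x) (q₁, j₁, β) (q', j, []) := by
  -- the bottom part is never shorter than `β` before the symbol `X` is removed
  have key : ∀ c c' : M.Cfg, ReflTransGen (M.DStep x) c c' →
      ∀ (q : M.State) (i : ℕ) (δ β : List M.Stack), c = (q, i, δ ++ β) → c'.2.2 = [] →
      ∃ q₁ j₁, ReflTransGen (M.DStep x) (q, i, δ) (q₁, j₁, []) ∧
        ReflTransGen (M.DStep x) (q₁, j₁, β) c' := by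
    intro c c' hD
    induction hD using ReflTransGen.head_induction_on with
    | refl =>
      intro q i δ β hc hc'
      subst hc
      have h1 : δ = [] := (List.append_eq_nil_iff.1 hc').1
      subst h1
      exact ⟨q, i, ReflTransGen.refl, by
        rw [List.nil_append]⟩
    | head h1 h2 ih =>
      intro q i δ β hc hc'
      subst hc
      cases δ with
      | nil => exact ⟨q, i, ReflTransGen.refl, ReflTransGen.head h1 h2⟩
      | cons Y δ =>
        rw [List.cons_append] at h1
        cases h1 with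
        | mk _ _ _ _ r hr =>
          have hd : M.DStep x (q, i, Y :: δ) (r.1, r.2.1.apply x.length i, r.2.2 ++ δ) :=
            DStep.mk q i Y δ r hr
          obtain ⟨q₁, j₁, h3, h4⟩ := ih r.1 (r.2.1.apply x.length i) (r.2.2 ++ δ) β
            (by rw [List.append_assoc]) hc'
          exact ⟨q₁, j₁, ReflTransGen.head hd h3, h4⟩
  exact key _ _ hD q i [X] β rfl rfl

theorem dsteps_nil {x : List α} {q : M.State} {i : ℕ} {c : M.Cfg}
    (hD : ReflTransGen (M.DStep x) (q, i, []) c) : c = (q, i, []) := by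
  induction hD with
  | refl => rfl
  | tail _ hs ih =>
    subst ih
    cases hs

/-! ### Soundness -/

/-- The obligation is satisfied. -/
def Sat (x : List α) (o : Ob M) : Prop := M.Rank x (rk M o) o.1 o.2.1

theorem rank_zero_prepend {x : List α} {k : ℕ} {c : M.Cfg} {t : Option (M.State × ℕ)}
    (hR : M.Rank x k c t) : k = 0 → ∀ (q : M.State) (i : ℕ) (δ : List M.Stack),
    ReflTransGen (M.DStep x) (q, i, δ) (c.1, c.2.1, []) → M.Rank x 0 (q, i, δ ++ c.2.2) t := by
  induction hR with
  | det k c q' j hD =>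
    intro _ q i δ h
    have h1 := dsteps_under M h c.2.2
    exact Rank.det _ _ _ _ (h1.trans (by simpa [under] using hD))
  | acc k c q' j γ hD ha =>
    intro _ q i δ h
    have h1 := dsteps_under M h c.2.2
    exact Rank.acc _ _ q' j γ (h1.trans (by simpa [under] using hD)) ha
  | left k q' i' β γ hR ih =>
    intro hk q i δ h
    have h1 := Rank.left 0 q i (δ ++ β) γ (ih hk q i δ h)
    rwa [List.append_assoc] at h1
  | step k _ _ _ _ _ _ _ _ => intro hk; exact absurd hk (Nat.succ_ne_zero k)
  | fst k _ _ _ _ _ _ _ _ _ _ _ => intro hk; exact absurd hk (Nat.succ_ne_zero k)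
  | snd k _ _ _ _ _ _ _ _ _ _ _ => intro hk; exact absurd hk (Nat.succ_ne_zero k)

theorem rank_prepend {x : List α} {k : ℕ} {q q' : M.State} {i j : ℕ} {δ β : List M.Stack}
    {t : Option (M.State × ℕ)} (hR : M.Rank x k (q', j, β) t)
    (hD : ReflTransGen (M.DStep x) (q, i, δ) (q', j, [])) : M.Rank x k (q, i, δ ++ β) t := by
  cases k with
  | zero => exact rank_zero_prepend M hR rfl q i δ hD
  | succ k => exact Rank.snd k q i δ β q' j t (Rank.det k _ q' j hD) hR

theorem rule_sound {x : List α} {o : Ob M} {new : List (Ob M)} (h : Rule M x o new)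
    (hn : ∀ o' ∈ new, Sat M x o') : Sat M x o := by
  cases h with
  | fin q i k => exact Rank.det k _ q i ReflTransGen.refl
  | acc q i β k ha => exact Rank.acc k _ q i β ReflTransGen.refl ha
  | aqry q i X β k hQ =>
    obtain ⟨q', j, γ, h1, h2⟩ := hQ
    exact Rank.left k q i [X] β (Rank.acc k _ q' j γ h1 h2)
  | adv q i X β t k q' j hj hQ =>
    have h1 := hn _ (List.mem_singleton_self _)
    exact rank_prepend M (δ := [X]) h1 hQ
  | step q i X t k r hr =>
    have h1 := hn _ (List.mem_singleton_self _)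
    exact Rank.step k q i X r t hr h1
  | left q i β γ k =>
    have h1 := hn _ (List.mem_singleton_self _)
    exact Rank.left k q i β γ h1
  | fst q i β γ t k q' j hj =>
    have h1 := hn ((q', j, γ), t, k) (by simp)
    have h2 := hn ((q, i, β), some (q', j), k + 1) (by simp)
    exact Rank.fst k q i β γ q' j t h2 h1
  | snd q i β γ t k q' j hj =>
    have h1 := hn ((q', j, γ), t, k + 1) (by simp)
    have h2 := hn ((q, i, β), some (q', j), k) (by simp)
    exact Rank.snd k q i β γ q' j t h2 h1

/-- The meaning of a state. -/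
def Mean (x : List α) (h d : ℕ) (s : St M) : Prop :=
  (∀ o ∈ s.2.2, Sat M x o) ∧ (s.2.1 = true ∨ M.AccR x h d s.1)

theorem step_sound {x : List α} {h d : ℕ} {s s' : St M} (hs : AS M x h d s s')
    (hm : Mean M x h d s') : Mean M x h d s := by
  cases hs with
  | low q i X γ r hl hr =>
    rcases hm.2 with h1 | h1
    · exact absurd h1 (by simp)
    · exact ⟨by simp, Or.inr (AccR.low q i X γ r hl hr h1)⟩
  | high q i X γ q' j hl hj =>
    rcases hm.2 with h1 | h1
    · exact absurd h1 (by simp)
    · exact ⟨by simp, Or.inr (AccR.high q i X γ q' j hl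
        (hm.1 _ (List.mem_singleton_self _)) h1)⟩
  | last q i X γ hl =>
    exact ⟨by simp, Or.inr (AccR.last q i X γ hl (hm.1 _ (List.mem_singleton_self _)))⟩
  | rule c ac o os new hR =>
    refine ⟨fun o' ho' => ?_, hm.2⟩
    rcases List.mem_cons.1 ho' with rfl | ho'
    · exact rule_sound M hR fun o'' ho'' => hm.1 _ (List.mem_append_left _ ho'')
    · exact hm.1 _ (List.mem_append_right _ ho')

theorem path_sound {x : List α} {h d : ℕ} {s s' : St M} (hs : ReflTransGen (AS M x h d) s s')
    (hA : Acc M x s') : Mean M x h d s := by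
  induction hs using ReflTransGen.head_induction_on with
  | refl =>
    refine ⟨by rw [hA.1]; simp, ?_⟩
    rcases hA.2 with h1 | h1
    · exact Or.inl h1
    · exact Or.inr (AccR.here s'.1.1 s'.1.2.1 s'.1.2.2 h1)
  | head h1 _ ih => exact step_sound M h1 ih

/-! ### Completeness -/

theorem rank_tgt_le {x : List α} {k : ℕ} {c : M.Cfg} {t : Option (M.State × ℕ)}
    (hR : M.Rank x k c t) : c.2.1 ≤ x.length + 1 → ∀ q j, t = some (q, j) →
    j ≤ x.length + 1 := by
  induction hR with
  | det k c q' j' hD =>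
    intro hc q j ht
    simp only [Option.some.injEq, Prod.mk.injEq] at ht
    rw [← ht.2]
    exact M.dsteps_le hD hc
  | acc k c q' j γ hD ha => intro _ q j ht; exact absurd ht (by simp)
  | left k q' i' β γ hR ih => intro _ q j ht; exact absurd ht (by simp)
  | step k q i X r t hr hR ih => intro hc q' j ht; exact ih (apply_le _ _ _ hc) q' j ht
  | fst k q i β γ q' j t h₁ h₂ ih₁ ih₂ =>
    intro hc q'' j'' ht
    exact ih₂ (ih₁ hc q' j rfl) q'' j'' ht
  | snd k q i β γ q' j t h₁ h₂ ih₁ ih₂ =>
    intro hc q'' j'' ht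
    exact ih₂ (ih₁ hc q' j rfl) q'' j'' ht

variable {M}

theorem AS.rule' {x : List α} {h d : ℕ} (c₀ : M.Cfg) (ac : Bool) {o : Ob M} (os : List (Ob M))
    {new : List (Ob M)} (hR : Rule M x o new) {s : St M}
    (hs : ReflTransGen (AS M x h d) (c₀, ac, new ++ os) s) :
    ReflTransGen (AS M x h d) (c₀, ac, o :: os) s :=
  ReflTransGen.head (AS.rule c₀ ac o os new hR) hs

theorem det_path {x : List α} {h d : ℕ} (k : ℕ) : ∀ (β : List M.Stack) (q : M.State) (i : ℕ)
    (q' : M.State) (j : ℕ), ReflTransGen (M.DStep x) (q, i, β) (q', j, []) →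
    i ≤ x.length + 1 → ∀ (c₀ : M.Cfg) (ac : Bool) (os : List (Ob M)),
    ReflTransGen (AS M x h d) (c₀, ac, ((q, i, β), some (q', j), k) :: os) (c₀, ac, os) := by
  intro β
  induction β with
  | nil =>
    intro q i q' j hD _ c₀ ac os
    have h1 := dsteps_nil M hD
    simp only [Prod.mk.injEq, and_true] at h1
    obtain ⟨rfl, rfl⟩ := h1
    exact AS.rule' c₀ ac os (Rule.fin _ _ _) ReflTransGen.refl
  | cons X β ih =>
    intro q i q' j hD hi c₀ ac os
    obtain ⟨q₁, j₁, h1, h2⟩ := dcut_pop M hD
    have hj : j₁ ≤ x.length + 1 := M.dsteps_le (c := (q, i, [X])) (c' := (q₁, j₁, [])) h1 hi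
    exact AS.rule' c₀ ac os (Rule.adv q i X β _ k q₁ j₁ hj h1) (ih q₁ j₁ q' j h2 hj c₀ ac os)

theorem acc_path {x : List α} {h d : ℕ} (k : ℕ) : ∀ (β : List M.Stack) (q : M.State) (i : ℕ)
    (c' : M.Cfg), ReflTransGen (M.DStep x) (q, i, β) c' → M.accepting c'.1 (cell x c'.2.1) →
    i ≤ x.length + 1 → ∀ (c₀ : M.Cfg) (ac : Bool) (os : List (Ob M)),
    ReflTransGen (AS M x h d) (c₀, ac, ((q, i, β), none, k) :: os) (c₀, ac, os) := by
  intro β
  induction β with
  | nil =>
    intro q i c' hD ha _ c₀ ac os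
    have h1 := dsteps_nil M hD
    subst h1
    exact AS.rule' c₀ ac os (Rule.acc _ _ _ _ ha) ReflTransGen.refl
  | cons X β ih =>
    intro q i c' hD ha hi c₀ ac os
    rcases dcut M hD q i [X] β rfl with ⟨γ, h1⟩ | ⟨q₁, j₁, h1, h2⟩
    · exact AS.rule' c₀ ac os (Rule.aqry q i X β k ⟨c'.1, c'.2.1, γ, h1, ha⟩) ReflTransGen.refl
    · have hj : j₁ ≤ x.length + 1 := M.dsteps_le (c := (q, i, [X])) (c' := (q₁, j₁, [])) h1 hi
      exact AS.rule' c₀ ac os (Rule.adv q i X β _ k q₁ j₁ hj h1) (ih q₁ j₁ c' h2 ha hj c₀ ac os)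

theorem rank_path {x : List α} {h d : ℕ} {k : ℕ} {c : M.Cfg} {t : Option (M.State × ℕ)}
    (hR : M.Rank x k c t) : c.2.1 ≤ x.length + 1 → ∀ (c₀ : M.Cfg) (ac : Bool) (os : List (Ob M)),
    ReflTransGen (AS M x h d) (c₀, ac, (c, t, k) :: os) (c₀, ac, os) := by
  induction hR with
  | det k c q' j' hD => intro hc c₀ ac os; exact det_path k c.2.2 c.1 c.2.1 q' j' hD hc c₀ ac os
  | acc k c q' j γ hD ha =>
    intro hc c₀ ac os
    exact acc_path k c.2.2 c.1 c.2.1 _ hD ha hc c₀ ac os
  | left k q' i' β γ hR ih =>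
    intro hc c₀ ac os
    exact AS.rule' c₀ ac os (Rule.left q' i' β γ k) (ih hc c₀ ac os)
  | step k q i X r t hr hR ih =>
    intro hc c₀ ac os
    exact AS.rule' c₀ ac os (Rule.step q i X t k r hr) (ih (apply_le _ _ _ hc) c₀ ac os)
  | fst k q i β γ q' j t h₁ h₂ ih₁ ih₂ =>
    intro hc c₀ ac os
    have hj := rank_tgt_le M h₁ hc q' j rfl
    exact AS.rule' c₀ ac os (Rule.fst q i β γ t k q' j hj) ((ih₂ hj c₀ ac _).trans (ih₁ hc c₀ ac os))
  | snd k q i β γ q' j t h₁ h₂ ih₁ ih₂ =>
    intro hc c₀ ac os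
    have hj := rank_tgt_le M h₁ hc q' j rfl
    exact AS.rule' c₀ ac os (Rule.snd q i β γ t k q' j hj) ((ih₁ hc c₀ ac _).trans (ih₂ hj c₀ ac os))

theorem accR_path {x : List α} {h d : ℕ} {c : M.Cfg} (hA : M.AccR x h d c) :
    c.2.1 ≤ x.length + 1 → ∃ s, ReflTransGen (AS M x h d) (c, false, []) s ∧ Acc M x s := by
  induction hA with
  | here q i γ ha => intro _; exact ⟨_, ReflTransGen.refl, rfl, Or.inr ha⟩
  | low q i X γ r hl hr _ ih =>
    intro hc
    obtain ⟨s, h1, h2⟩ := ih (apply_le _ _ _ hc)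
    exact ⟨s, ReflTransGen.head (AS.low q i X γ r hl hr) h1, h2⟩
  | high q i X γ q' j hl hR _ ih =>
    intro hc
    have hj := rank_tgt_le M hR hc q' j rfl
    obtain ⟨s, h1, h2⟩ := ih hj
    exact ⟨s, ReflTransGen.head (AS.high q i X γ q' j hl hj)
      ((rank_path hR hc (q', j, γ) false []).trans h1), h2⟩
  | last q i X γ hl hR =>
    intro hc
    exact ⟨_, ReflTransGen.head (AS.last q i X γ hl)
      (rank_path hR hc (q, i, X :: γ) true []), rfl, Or.inl rfl⟩

/-! ### The invariant -/

theorem rule_good {D n d : ℕ} {x : List α}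
    (hD : ∀ q c X, ∀ r ∈ M.next q c X, r.2.2.length ≤ D) (hx : x.length = n)
    {o : Ob M} {new : List (Ob M)} (hR : Rule M x o new)
    (hg : Good M D n d o) : (∀ o' ∈ new, Good M D n d o') ∧ (∀ o' ∈ new, rk M o' ≤ rk M o) ∧
      new.Pairwise fun o o' => rk M o < rk M o' := by
  subst hx
  have hp := hg.pos
  have hl := hg.len
  have ht := hg.tgt
  have hk := hg.rk
  cases hR with
  | fin q i k => simp
  | acc q i β k ha => simp
  | aqry q i X β k hQ => simp
  | adv q i X β t k q' j hj hQ =>
    refine ⟨fun o' ho' => ?_, fun o' ho' => ?_, List.pairwise_singleton _ _⟩ <;>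
      rw [List.mem_singleton] at ho' <;> subst ho'
    · refine ⟨hj, ?_, ht, hk⟩
      simp only [List.length_cons] at hl
      show β.length ≤ D
      omega
    · exact le_rfl
  | step q i X t k r hr =>
    refine ⟨fun o' ho' => ?_, fun o' ho' => ?_, List.pairwise_singleton _ _⟩ <;>
      rw [List.mem_singleton] at ho' <;> subst ho'
    · exact ⟨apply_le _ _ _ hp, hD _ _ _ r hr, ht, hk⟩
    · exact le_rfl
  | left q i β γ k =>
    refine ⟨fun o' ho' => ?_, fun o' ho' => ?_, List.pairwise_singleton _ _⟩ <;>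
      rw [List.mem_singleton] at ho' <;> subst ho'
    · refine ⟨hp, ?_, ht, hk⟩
      simp only [List.length_append] at hl
      show β.length ≤ D
      omega
    · exact le_rfl
  | fst q i β γ t k q' j hj =>
    simp only [List.length_append] at hl
    change k + 1 ≤ d at hk
    refine ⟨fun o' ho' => ?_, fun o' ho' => ?_, ?_⟩
    · rcases List.mem_cons.1 ho' with rfl | ho'
      · exact ⟨hj, show γ.length ≤ D by omega, ht, show k ≤ d by omega⟩
      · rw [List.mem_singleton] at ho'
        subst ho'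
        exact ⟨hp, show β.length ≤ D by omega, fun q'' j'' he => by
          simp only [Option.some.injEq, Prod.mk.injEq] at he
          rw [← he.2]
          exact hj, hk⟩
    · rcases List.mem_cons.1 ho' with rfl | ho'
      · exact Nat.le_succ k
      · rw [List.mem_singleton] at ho'
        subst ho'
        exact le_rfl
    · simp [rk]
  | snd q i β γ t k q' j hj =>
    simp only [List.length_append] at hl
    change k + 1 ≤ d at hk
    refine ⟨fun o' ho' => ?_, fun o' ho' => ?_, ?_⟩
    · rcases List.mem_cons.1 ho' with rfl | ho'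
      · exact ⟨hp, show β.length ≤ D by omega, fun q'' j'' he => by
          simp only [Option.some.injEq, Prod.mk.injEq] at he
          rw [← he.2]
          exact hj, show k ≤ d by omega⟩
      · rw [List.mem_singleton] at ho'
        subst ho'
        exact ⟨hj, show γ.length ≤ D by omega, ht, hk⟩
    · rcases List.mem_cons.1 ho' with rfl | ho'
      · exact Nat.le_succ k
      · rw [List.mem_singleton] at ho'
        subst ho'
        exact le_rfl
    · simp [rk]

theorem inv_step {D h d : ℕ} {x : List α}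
    (hD : ∀ q c X, ∀ r ∈ M.next q c X, r.2.2.length ≤ D) (h1 : 1 ≤ D) {s s' : St M}
    (hs : AS M x h d s s') (hI : Inv M D x.length h d s) : Inv M D x.length h d s' := by
  have hp := hI.pos
  have hl := hI.len
  have hg := hI.good
  have ho := hI.sorted
  cases hs with
  | low q i X γ r hl' hr =>
    refine ⟨apply_le _ _ _ hp, ?_, by simp, List.Pairwise.nil⟩
    have h2 := hD _ _ _ r hr
    simp only [List.length_cons] at hl'
    simp only [List.length_append]
    omega
  | high q i X γ q' j hl' hj =>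
    simp only [List.length_cons] at hl
    refine ⟨hj, show γ.length ≤ h + D + 1 by omega, fun o ho => ?_, List.pairwise_singleton _ _⟩
    rw [List.mem_singleton] at ho
    subst ho
    exact ⟨hp, h1, fun q'' j'' he => by
      simp only [Option.some.injEq, Prod.mk.injEq] at he
      rw [← he.2]
      exact hj, le_rfl⟩
  | last q i X γ hl' =>
    refine ⟨hp, hl, fun o ho => ?_, List.pairwise_singleton _ _⟩
    rw [List.mem_singleton] at ho
    subst ho
    exact ⟨hp, h1, fun q'' j'' he => absurd he (by simp), le_rfl⟩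
  | rule c ac o os new hR =>
    obtain ⟨h2, h3, h4⟩ := rule_good hD rfl hR (hg o (List.mem_cons_self ..))
    obtain ⟨h5, h6⟩ := List.pairwise_cons.1 ho
    refine ⟨hp, hl, fun o' ho' => ?_, ?_⟩
    · rcases List.mem_append.1 ho' with ho' | ho'
      · exact h2 o' ho'
      · exact hg o' (List.mem_cons_of_mem _ ho')
    · exact List.pairwise_append.2 ⟨h4, h6, fun a ha b hb => (h3 a ha).trans_lt (h5 b hb)⟩

/-- **The abstract machine is correct.** -/
theorem obSpec (M : NPDA α) (D : ℕ) : ObSpec M D := by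
  intro hD h1 x h d
  refine ⟨⟨fun hA => ?_, ?_⟩, fun s s' => inv_step hD h1⟩
  · exact accR_path hA (show 1 ≤ x.length + 1 by omega)
  · rintro ⟨s, hs, hA⟩
    rcases (path_sound M hs hA).2 with h2 | h2
    · exact absurd h2 (by simp [ini])
    · exact h2

end RN

end Pool.Agent.Lib.MP_9277c3_lc
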