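import Pool.Agent.Lib.MP_9277c3_lc.RN.Spl

/-!
# The rules with a query
-/

set_option autoImplicit false

namespace Pool.Agent.Lib.MP_9277c3_lc

namespace RN

open CM NC RC

namespace Qry

section

variable {α S : Type} [Finite α] (M : NPDA α) (D : ℕ)

open Classical in
/-- Zero if there is no state. -/
noncomputable def isS (d : Option M.State) : ℕ := if d = none then 0 else 1

/-- The part after a confirmed query. -/
noncomputable def endP : NStmt (S ⊕ RP) Empty :=
  sqN [asg (Sum.inr .t) (tabE (isS M) (vP .dd)),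
    Stmt.ite (Sum.inr .t)
      (sqN [asg (Sum.inr .ph) (tabE (fun p : Fp M D × Option M.State =>
          cod ((p.2.getD default, mkl M D p.1.2.1.1.tail, p.1.2.2) : Fp M D))
          (pairE (Fp M D) (Option M.State) (vP .ph) (vP .dd))),
        asg (Sum.inr .i1) (vP .j), asg (Sum.inr .Y) pushE]) Stmt.skip, clrP]

open Classical in
/-- The condition for an obligation and a target. -/
noncomputable def cn (p : Fp M D × Option M.State) : ℕ :=
  if p.1.2.1.1 ≠ [] ∧ (p.2 = none → p.1.2.2 = none) then 1 else 0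

/-- The part after the query. -/
noncomputable def postL (res : S) : List (NStmt (S ⊕ RP) Empty) :=
  [asg (Sum.inr .t) ((1 - (1 - Exp.var (Sum.inl res))) *
      tabE (cn M D) (pairE (Fp M D) (Option M.State) (vP .ph) (vP .dd))),
    asg (Sum.inl res) 0,
    Stmt.ite (Sum.inr .t) (endP M D) (sqN [asg (Sum.inr .go) 0, clrP])]

/-- The program. -/
noncomputable def prog (K : ℕ) (res : S) (qry : NStmt (S ⊕ RP) Empty) : NStmt (S ⊕ RP) Empty :=
  sqN (gk (Sum.inr .dd) (Sum.inr .fl) K ::
    asg (Sum.inr .dd) (vP .dd % Exp.lit (Nat.card (Option M.State))) ::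
    asg (Sum.inr .t') (vP .n + 2) ::
    guess (Sum.inr .j) (Sum.inr .t') (Sum.inr .t) (Sum.inr .fl) ::
    asg (Sum.inr .j) (tabE (isS M) (vP .dd) * vP .j) ::
    asg (Sum.inr .qq) (tabE (fun p : Fp M D => cod p.1) (vP .ph)) ::
    asg (Sum.inr .qi) (vP .i1) ::
    asg (Sum.inr .X) (tabE (fun p : Fp M D => cod (p.2.1.1.headD default)) (vP .ph)) ::
    qry :: postL M D res)

/-- The registers before the query. -/
noncomputable def midO (n h d C : ℕ) (s : St M) (o : Ob M) (dn : Option M.State) (j : ℕ) : RP → ℕ :=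
  upd (upd (upd (upd (upd (upd (obO M D n h d C s o) .dd (cod dn)) .t' (n + 2)) .j j) .qq
    (cod o.1.1)) .qi o.1.2.1) .X (cod (o.1.2.2.headD default))

variable {M D}

theorem mid_spec {n h d C : ℕ} {s : St M} {o : Ob M} {dn : Option M.State} {j : ℕ} :
    midO M D n h d C s o dn j .n = n ∧ midO M D n h d C s o dn j .qq = cod o.1.1 ∧
    midO M D n h d C s o dn j .qi = o.1.2.1 ∧
    midO M D n h d C s o dn j .X = cod (o.1.2.2.headD default) ∧
    midO M D n h d C s o dn j .dd = cod dn ∧ midO M D n h d C s o dn j .j = j ∧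
    midO M D n h d C s o dn j .ph = cod (fp M D o) := by
  refine ⟨?_, ?_, ?_, ?_, ?_, ?_, ?_⟩ <;> simp [midO, obO, stO]

theorem mid_st0 {n h d C : ℕ} {s : St M} {o : Ob M} {dn : Option M.State} {j : ℕ} :
    St0 M D n h d C s 1 0 (midO M D n h d C s o dn j) := by
  refine ⟨?_, ?_, ?_, ?_, ?_, ?_, ?_, ?_, ?_, ?_, ?_, ?_, ?_⟩ <;> simp [midO, obO, stO]

/-- The position which is used. -/
noncomputable def jj (dn : Option M.State) (J : ℕ) : ℕ := isS M dn * J

theorem jj_none (J : ℕ) : jj (none : Option M.State) J = 0 := by simp [jj, isS]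

theorem jj_some (q : M.State) (J : ℕ) : jj (some q) J = J := by simp [jj, isS]

variable {x : List α} {A k : ℕ} {body : Empty → NStmt (S ⊕ RP) Empty}

/-- The bounds. -/
structure Bd (M : NPDA α) (D : ℕ) (x : List α) (A K : ℕ) : Prop where
  hK : 2 ^ K ≤ A
  hN : Nat.card (Option M.State) ≤ 2 ^ K
  hn : 2 * (x.length + 2) ≤ A
  hS : Nat.card M.State < A
  hX : Nat.card M.Stack < A
  hF : Nat.card (Fp M D) < A

theorem run_pre {K h d C : ℕ} {s : St M} {o : Ob M} (hB : Bd M D x A K)
    (hg : Good M D x.length d o) {l : List (NStmt (S ⊕ RP) Empty)} {u v : ℕ → Bool}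
    {t : S ⊕ RP → ℕ}
    (hl : RunN x cod A body k (sqN l) (Sum.elim (fun _ => 0) (midO M D x.length h d C s o
      (dcd (gb K u % Nat.card (Option M.State)))
      (jj (dcd (gb K u % Nat.card (Option M.State)) : Option M.State)
        (gval (x.length + 2) (sh K u)))))
      (grest (x.length + 2) (sh K u)) t v) :
    RunN x cod A body k (sqN (gk (Sum.inr .dd) (Sum.inr .fl) K ::
    asg (Sum.inr .dd) (vP .dd % Exp.lit (Nat.card (Option M.State))) ::
    asg (Sum.inr .t') (vP .n + 2) ::
    guess (Sum.inr .j) (Sum.inr .t') (Sum.inr .t) (Sum.inr .fl) ::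
    asg (Sum.inr .j) (tabE (isS M) (vP .dd) * vP .j) ::
    asg (Sum.inr .qq) (tabE (fun p : Fp M D => cod p.1) (vP .ph)) ::
    asg (Sum.inr .qi) (vP .i1) ::
    asg (Sum.inr .X) (tabE (fun p : Fp M D => cod (p.2.1.1.headD default)) (vP .ph)) :: l))
      (obA M S D x.length h d C s o) u t v := by
  have hA := hB.hK
  have hn := hB.hn
  have hN := hB.hN
  have hc : 0 < Nat.card (Option M.State) := Nat.card_pos
  have hD : gb K u % Nat.card (Option M.State) < Nat.card (Option M.State) := Nat.mod_lt _ hc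
  have hJ := gval_lt (show 0 < x.length + 2 by omega) (sh K u)
  set J := gval (x.length + 2) (sh K u) with hJn
  have hdc : cod (dcd (gb K u % Nat.card (Option M.State)) : Option M.State) =
    gb K u % Nat.card (Option M.State) := cod_dcd hD
  set dn : Option M.State := dcd (gb K u % Nat.card (Option M.State)) with hdn
  have hlen : o.1.2.2.length ≤ D := hg.len
  refine RunN.cons (run_gk (by simp) (by simp [obA, obO, stO]) hA k u) ?_
  rw [obA, upd_inrP]
  refine setP (cod dn) ?_ (by have := cod_lt dn; omega) ?_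
  · rw [hdc]
    simp only [eval_mod, eval_var, Sum.elim_inr, upd_self]
    rfl
  refine setP (x.length + 2) ?_ (by omega) ?_
  · simp only [eval_add, eval_ofNat, eval_var, Sum.elim_inr]
    simp [obO, stO]
  refine RunN.cons (run_guess (by simp) (by simp) (by simp) (by simp) (by simp) (by simp)
    (by simp [obO, stO]) (by simp [obO, stO]) ?_ ?_ k (sh K u)) ?_
  · simp
    omega
  · simp
  rw [Sum.elim_inr, upd_self, upd_inrP]
  have hdd : ∀ j, (vP .dd : Exp (S ⊕ RP)).eval x cod (Sum.elim (fun _ => 0)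
      (upd (upd (upd (upd (obO M D x.length h d C s o) .dd (gb K u)) .dd (cod dn)) .t'
        (x.length + 2)) .j j)) = cod dn := by
    intro j
    simp only [eval_var, Sum.elim_inr]
    simp
  refine setP (jj dn J) ?_ ?_ ?_
  · simp only [eval_mul, eval_tabE (isS M) (hdd _), jj]
    simp [hJn]
  · unfold jj isS
    split_ifs <;> omega
  refine setP (cod o.1.1) ?_ ?_ ?_
  · rw [eval_tabE (t := fp M D o)]
    · rfl
    · simp only [eval_var, Sum.elim_inr]
      simp [obO]
  · have := cod_lt o.1.1
    have := hB.hS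
    omega
  refine setP o.1.2.1 ?_ ?_ ?_
  · simp only [eval_var, Sum.elim_inr]
    simp [obO]
  · have := hg.pos
    omega
  refine setP (cod (o.1.2.2.headD default)) ?_ ?_ ?_
  · rw [eval_tabE (t := fp M D o)]
    · simp only [fp, mkl, dif_pos hlen]
    · simp only [eval_var, Sum.elim_inr]
      simp [obO]
  · have := cod_lt (o.1.2.2.headD default)
    have := hB.hX
    omega
  · refine hl.congr_left ?_
    rw [upd_upd, upd_upd]
    rfl

theorem zero_l (res : S) (r : ℕ) : upd (upd (fun _ : S => 0) res r) res 0 = fun _ => 0 := by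
  rw [upd_upd]
  funext a
  by_cases h : a = res
  · subst h
    simp
  · simp [upd_ne h]

/-- The beginning of the part after the query. -/
theorem run_post {K h d C r m : ℕ} {s : St M} {o : Ob M} {dn : Option M.State} {j : ℕ} {res : S}
    (hB : Bd M D x A K) (hg : Good M D x.length d o)
    (hm : (1 - (1 - r)) * cn M D (fp M D o, dn) = m) {t : S ⊕ RP → ℕ} {u v : ℕ → Bool}
    (he : RunN x cod A body k (Stmt.ite (Sum.inr .t) (endP M D) (sqN [asg (Sum.inr .go) 0, clrP]))
      (Sum.elim (fun _ => 0) (upd (midO M D x.length h d C s o dn j) .t m)) u t v) :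
    RunN x cod A body k (sqN (postL M D res)) (Sum.elim (upd (fun _ => 0) res r)
      (midO M D x.length h d C s o dn j)) u t v := by
  have hn := hB.hn
  obtain ⟨s1, s2, s3, s4, s5, s6, s7⟩ := mid_spec (D := D) (n := x.length) (h := h) (d := d)
    (C := C) (s := s) (o := o) (dn := dn) (j := j)
  refine setP m ?_ ?_ (RunN.set 0 rfl (by omega) (RunN.cons ?_ RunN.nil))
  · simp only [eval_mul, eval_sub, eval_one, eval_var, Sum.elim_inl, upd_self]
    rw [eval_tabE (t := (fp M D o, dn)) _ (eval_pairE (a := fp M D o) (b := dn)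
      (by simp only [eval_var, Sum.elim_inr]; exact s7)
      (by simp only [eval_var, Sum.elim_inr]; exact s5))]
    exact hm
  · have : m ≤ 1 := by
      rw [← hm]
      unfold cn
      split_ifs <;> omega
    omega
  · refine he.congr_left ?_
    funext b
    cases b with
    | inr b => rw [upd_ne (by simp)]; rfl
    | inl b =>
      by_cases h1 : b = res
      · subst h1
        simp
      · rw [upd_ne (by simpa using h1)]
        simp [upd_ne h1]

/-- The query is not confirmed, or the rule cannot be used. -/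
theorem run_post_fail {K h d C r : ℕ} {s : St M} {o : Ob M} {dn : Option M.State} {j : ℕ} {res : S}
    (hB : Bd M D x A K) (hg : Good M D x.length d o)
    (hm : (1 - (1 - r)) * cn M D (fp M D o, dn) = 0) (u : ℕ → Bool) :
    RunN x cod A body k (sqN (postL M D res)) (Sum.elim (upd (fun _ => 0) res r)
      (midO M D x.length h d C s o dn j)) u (stA M S D x.length h d C s 0 0) u := by
  have hn := hB.hn
  refine run_post hB hg hm (RunN.iteF _ _ _ _ _ _ _ _ (by simp) (run_fail (go := 1) (by omega) ?_ u))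
  obtain ⟨h1, h2, h3, h4, h5, h6, h7, h8, h9, h10, h11, h12, h13⟩ := mid_st0 (D := D)
    (n := x.length) (h := h) (d := d) (C := C) (s := s) (o := o) (dn := dn) (j := j)
  refine ⟨?_, ?_, ?_, ?_, ?_, ?_, ?_, ?_, ?_, ?_, ?_, ?_, ?_⟩ <;> simp [*]

/-- The obligation is removed. -/
theorem run_post_none {K h d C r : ℕ} {s : St M} {o : Ob M} {j : ℕ} {res : S}
    (hB : Bd M D x A K) (hg : Good M D x.length d o) (hr : r ≠ 0) (h1 : o.1.2.2 ≠ [])
    (h2 : o.2.1 = none) (u : ℕ → Bool) :
    RunN x cod A body k (sqN (postL M D res)) (Sum.elim (upd (fun _ => 0) res r)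
      (midO M D x.length h d C s o none j)) u (stA M S D x.length h d C s 1 0) u := by
  have hn := hB.hn
  have hlen : o.1.2.2.length ≤ D := hg.len
  have hm : (1 - (1 - r)) * cn M D (fp M D o, none) = 1 := by
    have : cn M D (fp M D o, none) = 1 := by
      unfold cn
      rw [if_pos]
      refine ⟨?_, fun _ => ?_⟩
      · simpa only [fp, mkl, dif_pos hlen] using h1
      · simp [fp, h2]
    rw [this]
    omega
  refine run_post hB hg hm (RunN.iteT _ _ _ _ _ _ _ _ (by simp) ?_)
  refine setP 0 ?_ (by omega) (RunN.cons (RunN.iteF _ _ _ _ _ _ _ _ (by simp)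
    (RunN.skip _ _ _)) (run_clrP' (by omega) ?_ u))
  · rw [eval_tabE (t := (none : Option M.State))]
    · simp [isS]
    · simp only [eval_var, Sum.elim_inr]
      simp [midO]
  · obtain ⟨h1, h2, h3, h4, h5, h6, h7, h8, h9, h10, h11, h12, h13⟩ := mid_st0 (D := D)
      (n := x.length) (h := h) (d := d) (C := C) (s := s) (o := o) (dn := none) (j := j)
    refine ⟨?_, ?_, ?_, ?_, ?_, ?_, ?_, ?_, ?_, ?_, ?_, ?_, ?_⟩ <;> simp [*]

/-- The topmost symbol is removed. -/
theorem run_post_some {K K₀ h d C r : ℕ} {c : M.Cfg} {ac : Bool} {q q' : M.State} {i : ℕ}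
    {X : M.Stack} {β : List M.Stack} {t : Option (M.State × ℕ)} {kr : ℕ} {os : List (Ob M)}
    {j : ℕ} {res : S} (hB : Bd M D x A K) (hK : 1 ≤ K₀)
    (hs : Sm M x A K₀ D h d ((q, i, X :: β), t, kr) os) (hr : r ≠ 0)
    (hj : j ≤ x.length + 1) (u : ℕ → Bool) :
    RunN x cod A body k (sqN (postL M D res)) (Sum.elim (upd (fun _ => 0) res r)
      (midO M D x.length h d C (c, ac, os) ((q, i, X :: β), t, kr) (some q') j)) u
      (stA M S D x.length h d C (c, ac, ((q', j, β), t, kr) :: os) 1 0) u := by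
  have hn := hB.hn
  have hg := hs.good
  have hlen : (X :: β).length ≤ D := hg.len
  have hlen' : β.length ≤ D := by
    rw [List.length_cons] at hlen
    omega
  have hg' : Good M D x.length d ((q', j, β), t, kr) := ⟨hj, hlen', hg.tgt, hg.rk⟩
  have hm : (1 - (1 - r)) * cn M D (fp M D ((q, i, X :: β), t, kr), some q') = 1 := by
    have : cn M D (fp M D ((q, i, X :: β), t, kr), some q') = 1 := by
      unfold cn
      rw [if_pos]
      refine ⟨?_, fun h => absurd h (by simp)⟩
      simp only [fp, mkl, dif_pos hlen, ne_eq, reduceCtorEq, not_false_eq_true]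
    rw [this]
    omega
  obtain ⟨s1, s2, s3, s4, s5, s6, s7⟩ := mid_spec (D := D) (n := x.length) (h := h) (d := d)
    (C := C) (s := (c, ac, os)) (o := ((q, i, X :: β), t, kr)) (dn := some q') (j := j)
  refine run_post hB hg hm (RunN.iteT _ _ _ _ _ _ _ _ (by simp) ?_)
  refine setP 1 ?_ (by omega) (RunN.cons (RunN.iteT _ _ _ _ _ _ _ _ (by simp)
    (setP (cod (fp M D ((q', j, β), t, kr))) ?_ ?_ (setP j ?_ (by omega)
      (setP (oscode M D x.length d (((q', j, β), t, kr) :: os)) ?_ (push_lt hs hK hg')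
        RunN.nil)))) (run_clrP' (by omega) ?_ u))
  · rw [eval_tabE (t := some q')]
    · simp [isS]
    · simp only [eval_var, Sum.elim_inr]
      simp [midO]
  · rw [eval_tabE (t := (fp M D ((q, i, X :: β), t, kr), some q')) _
      (eval_pairE (a := fp M D ((q, i, X :: β), t, kr)) (b := some q')
      (by simp only [eval_var, Sum.elim_inr]; simpa using s7)
      (by simp only [eval_var, Sum.elim_inr]; simpa using s5))]
    simp only [fp, mkl, dif_pos hlen, Option.getD_some, List.tail_cons]
  · have := cod_lt (fp M D ((q', j, β), t, kr))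
    have := hB.hF
    omega
  · simp only [eval_var, Sum.elim_inr]
    simpa using s6
  · refine eval_pushE (s := (c, ac, os)) (ob := ((q', j, β), t, kr)) (go := 1) (res := 0)
      (C := C) (h := h) _ ?_ ?_
    · obtain ⟨h1, h2, h3, h4, h5, h6, h7, h8, h9, h10, h11, h12, h13⟩ := mid_st0 (D := D)
        (n := x.length) (h := h) (d := d) (C := C) (s := (c, ac, os))
        (o := ((q, i, X :: β), t, kr)) (dn := some q') (j := j)
      refine ⟨?_, ?_, ?_, ?_, ?_, ?_, ?_, ?_, ?_, ?_, ?_, ?_, ?_⟩ <;> simp [*]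
    · refine ⟨?_, ?_, ?_, ?_⟩
      · simp
      · simp
      · simp [midO, obO, tp]
      · simp [midO, obO]
  · obtain ⟨h1, h2, h3, h4, h5, h6, h7, h8, h9, h10, h11, h12, h13⟩ := mid_st0 (D := D)
      (n := x.length) (h := h) (d := d) (C := C) (s := (c, ac, os))
      (o := ((q, i, X :: β), t, kr)) (dn := some q') (j := j)
    refine ⟨?_, ?_, ?_, ?_, ?_, ?_, ?_, ?_, ?_, ?_, ?_, ?_, ?_⟩ <;> simp [*]

end

end Qry

section

variable {α : Type} [Finite α] (M : NPDA α)

theorem qrySpec (D : ℕ) : PartSpecQ M D := by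
  classical
  intro _
  obtain ⟨K, hK⟩ : ∃ K, Nat.card (Option M.State) ≤ 2 ^ K := ⟨_, Nat.lt_two_pow_self.le⟩
  refine ⟨2 ^ K + Nat.card M.State + Nat.card M.Stack + Nat.card (Fp M D) + 2,
    fun S res qry => ⟨Qry.prog M D K res qry, fun x A k body hq h d C c ac o os hs => ?_⟩⟩
  obtain ⟨b1, b2, b3⟩ := mul_lt_of_sm hs
  have hB : Qry.Bd M D x A K := by
    have h1 : 2 * (x.length + 2) ≤ (2 ^ K + Nat.card M.State + Nat.card M.Stack +
        Nat.card (Fp M D) + 2) * (x.length + 2) := Nat.mul_le_mul_right _ (by omega)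
    exact ⟨by omega, hK, by omega, by omega, by omega, by omega⟩
  have hg := hs.good
  have hc : 0 < Nat.card (Option M.State) := Nat.card_pos
  have hpos := hg.pos
  refine ⟨fun u => ?_, fun new hn v => ?_⟩
  · have hD : gb K u % Nat.card (Option M.State) < Nat.card (Option M.State) := Nat.mod_lt _ hc
    have hJ := gval_lt (show 0 < x.length + 2 by omega) (sh K u)
    set dn : Option M.State := dcd (gb K u % Nat.card (Option M.State)) with hdn
    set J := gval (x.length + 2) (sh K u) with hJn
    have hjj : Qry.jj dn J ≤ x.length + 1 := by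
      cases dn with
      | none => rw [Qry.jj_none]; omega
      | some q => rw [Qry.jj_some]; omega
    obtain ⟨s1, s2, s3, s4, s5, s6, s7⟩ := Qry.mid_spec (D := D) (n := x.length) (h := h) (d := d)
      (C := C) (s := (c, ac, os)) (o := o) (dn := dn) (j := Qry.jj dn J)
    obtain ⟨r, v, h1, h2⟩ := hq.total _ o.1.1 o.1.2.1 (o.1.2.2.headD default) dn (Qry.jj dn J) hpos
      hjj s1 s2 s3 s4 s5 s6 (grest (x.length + 2) (sh K u))
    by_cases hm : (1 - (1 - r)) * Qry.cn M D (fp M D o, dn) = 0
    · exact ⟨v, Or.inl ⟨os, Qry.run_pre hB hg (RunN.cons h1 (Qry.run_post_fail hB hg hm v))⟩⟩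
    · have hr : r ≠ 0 := by
        rintro rfl
        simp at hm
      have hQ := h2 hr
      have hcn : Qry.cn M D (fp M D o, dn) ≠ 0 := by
        intro h3
        rw [h3, Nat.mul_zero] at hm
        exact hm rfl
      unfold Qry.cn at hcn
      have hcn' : (fp M D o, dn).1.2.1.1 ≠ [] ∧
          ((fp M D o, dn).2 = none → (fp M D o, dn).1.2.2 = none) := by
        by_contra h3
        rw [if_neg h3] at hcn
        exact hcn rfl
      obtain ⟨⟨q, i, β⟩, t, kr⟩ := o
      have hlen : β.length ≤ D := hg.len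
      simp only [fp, mkl, dif_pos hlen] at hcn'
      obtain ⟨hβ, ht⟩ := hcn'
      cases β with
      | nil => exact absurd rfl hβ
      | cons X β =>
        simp only [List.headD_cons] at hQ
        cases hdn' : dn with
        | none =>
          rw [hdn'] at hQ h1 ht
          have ht' : t = none := by simpa using ht rfl
          subst ht'
          rw [Qry.jj_none] at hQ
          refine ⟨v, Or.inr ⟨[], RuleQ.aqry _ _ _ _ _ hQ, Qry.run_pre hB hg ?_⟩⟩
          rw [← hdn, hdn']
          exact RunN.cons h1 (Qry.run_post_none hB hg hr (by simp) rfl v)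
        | some q' =>
          rw [hdn'] at hQ h1 hjj
          refine ⟨v, Or.inr ⟨[((q', Qry.jj (some q') J, β), t, kr)],
            RuleQ.adv _ _ _ _ _ _ _ _ hjj hQ, Qry.run_pre hB hg ?_⟩⟩
          rw [← hdn, hdn']
          exact RunN.cons h1 (Qry.run_post_some hB (by omega) hs hr hjj v)
  · cases hn with
    | aqry q i X β kr hQ =>
      obtain ⟨s1, s2, s3, s4, s5, s6, s7⟩ := Qry.mid_spec (D := D) (n := x.length) (h := h)
        (d := d) (C := C) (s := (c, ac, os)) (o := ((q, i, X :: β), none, kr)) (dn := none)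
        (j := 0)
      obtain ⟨u₂, r, hr, h1⟩ := hq.complete _ q i X none 0 hpos (by omega) s1 s2 s3 s4 s5 s6 hQ v
      obtain ⟨u₁, g1, g2⟩ := guess_surj (show 0 < x.length + 2 by omega) u₂
      have hd := cod_lt (none : Option M.State)
      obtain ⟨u₀, g3, g4⟩ := gb_surj K (cod (none : Option M.State)) (by omega) u₁
      refine ⟨u₀, Qry.run_pre hB hg ?_⟩
      rw [g3, g4, g1, g2, Nat.mod_eq_of_lt hd, dcd_cod, Qry.jj_none]
      exact RunN.cons h1 (Qry.run_post_none hB hg hr (by simp) rfl v)
    | adv q i X β t kr q' j hj hQ =>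
      obtain ⟨s1, s2, s3, s4, s5, s6, s7⟩ := Qry.mid_spec (D := D) (n := x.length) (h := h)
        (d := d) (C := C) (s := (c, ac, os)) (o := ((q, i, X :: β), t, kr)) (dn := some q')
        (j := j)
      obtain ⟨u₂, r, hr, h1⟩ := hq.complete _ q i X (some q') j hpos hj s1 s2 s3 s4 s5 s6 hQ v
      obtain ⟨u₁, g1, g2⟩ := guess_surj (show j < x.length + 2 by omega) u₂
      have hd := cod_lt (some q')
      obtain ⟨u₀, g3, g4⟩ := gb_surj K (cod (some q')) (by omega) u₁
      refine ⟨u₀, Qry.run_pre hB hg ?_⟩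
      rw [g3, g4, g1, g2, Nat.mod_eq_of_lt hd, dcd_cod, Qry.jj_some]
      exact RunN.cons h1 (Qry.run_post_some hB (by omega) hs hr hj v)

end

end RN

end Pool.Agent.Lib.MP_9277c3_lc
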