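import Pool.Agent.Lib.MP_9277c3_lc.RN.Spl
import Pool.Agent.Lib.MP_9277c3_lc.RC.Low

/-!
# The rules which replace an obligation by one obligation
-/

set_option autoImplicit false

namespace Pool.Agent.Lib.MP_9277c3_lc

namespace RN

open CM NC RC

namespace Rep

/-- Finite sets which depend on a parameter are the sets of values of a function of the parameter
and a number with a fixed number of bits. -/
theorem exists_opt {P T : Type} [Finite P] [Inhabited T] (rs : P → Set T)
    (hfin : ∀ p, (rs p).Finite) : ∃ (K : ℕ) (opt : P → Fin (2 ^ K) → T),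
    ∀ p, (rs p).Nonempty → (∀ o, opt p o ∈ rs p) ∧ ∀ r ∈ rs p, ∃ o, opt p o = r := by
  classical
  obtain ⟨N, hN⟩ : ∃ N, ∀ p, Nat.card (rs p) ≤ N := by
    obtain ⟨N, hN⟩ := (Set.finite_range fun p => Nat.card (rs p)).bddAbove
    exact ⟨N, fun p => hN ⟨p, rfl⟩⟩
  have key : ∀ p, ∃ g : Fin (2 ^ N) → T,
      (rs p).Nonempty → (∀ o, g o ∈ rs p) ∧ ∀ r ∈ rs p, ∃ o, g o = r := by
    intro p
    by_cases hne : (rs p).Nonempty
    · obtain ⟨r0, hr0⟩ := hne
      have hf : Finite (rs p) := (hfin p).to_subtype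
      refine ⟨fun o => if h : (o : ℕ) < Nat.card (rs p) then
        (((Finite.equivFin (rs p)).symm ⟨o, h⟩ : rs p) : T)
        else r0, fun _ => ⟨fun o => ?_, fun r hr => ?_⟩⟩
      · dsimp only
        split_ifs with h
        · exact Subtype.coe_prop _
        · exact hr0
      · have h1 : ((Finite.equivFin (rs p)) ⟨r, hr⟩ : ℕ) < Nat.card (rs p) := Fin.isLt _
        refine ⟨⟨(Finite.equivFin (rs p)) ⟨r, hr⟩,
          h1.trans_le ((hN p).trans (Nat.lt_two_pow_self).le)⟩, ?_⟩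
        dsimp only
        rw [dif_pos h1]
        exact congrArg Subtype.val ((Finite.equivFin (rs p)).symm_apply_apply ⟨r, hr⟩)
    · exact ⟨fun _ => default, fun h => absurd h hne⟩
  choose opt hopt using key
  exact ⟨N, opt, hopt⟩

section

variable {α : Type} (M : NPDA α)

/-- What the rules depend on: the finite part of the obligation, the symbol at the position, and
whether the rank is positive. -/
abbrev Kr (D : ℕ) : Type := (Fp M D × Cell α) × Bool

/-- The new parts of the obligation. -/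
def rs (D : ℕ) (p : Kr M D) : Set (M.State × Move × List M.Stack) :=
  {r | (p.2 = true ∧ ∃ X, p.1.1.2.1.1 = [X] ∧ r ∈ M.next p.1.1.1 p.1.2 X) ∨
    (p.1.1.2.2 = none ∧ r.1 = p.1.1.1 ∧ r.2.1 = Move.stay ∧ r.2.2 <+: p.1.1.2.1.1)}

theorem rs_finite (D : ℕ) (p : Kr M D) : (rs M D p).Finite := by
  refine Set.Finite.union ?_ ?_
  · by_cases h : ∃ X, p.1.1.2.1.1 = [X]
    · obtain ⟨X, hX⟩ := h
      have hf : (M.next p.1.1.1 p.1.2 X).Finite := M.finite_next _ _ _
      refine hf.subset ?_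
      rintro r ⟨-, Y, hY, hr⟩
      have h1 : Y = X := by
        rw [hX] at hY
        exact ((List.cons.injEq _ _ _ _ ▸ hY : X = Y ∧ _).1).symm
      rwa [h1] at hr
    · refine Set.finite_empty.subset ?_
      rintro r ⟨-, Y, hY, -⟩
      exact h ⟨Y, hY⟩
  · refine (Set.finite_range fun m : Fin (p.1.1.2.1.1.length + 1) =>
      ((p.1.1.1, Move.stay, p.1.1.2.1.1.take m) : M.State × Move × List M.Stack)).subset ?_
    rintro ⟨q, mv, l⟩ ⟨-, h1, h2, h3⟩
    simp only at h1 h2 h3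
    subst h1 h2
    refine ⟨⟨l.length, Nat.lt_succ_of_le h3.length_le⟩, ?_⟩
    simp only [Prod.mk.injEq, true_and]
    exact (List.prefix_iff_eq_take.mp h3).symm

/-- The parameter of an obligation. -/
def ky (D : ℕ) (x : List α) (o : Ob M) : Kr M D :=
  ((fp M D o, cell x o.1.2.1), decide (0 < rk M o))

/-- The new obligation. -/
def nw (x : List α) (o : Ob M) (r : M.State × Move × List M.Stack) : Ob M :=
  ((r.1, r.2.1.apply x.length o.1.2.1, r.2.2), o.2.1, o.2.2)

theorem ruleR_iff {D : ℕ} (x : List α) {o : Ob M} (hl : o.1.2.2.length ≤ D) (new : List (Ob M)) :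
    RuleR M x o new ↔ ∃ r ∈ rs M D (ky M D x o), new = [nw M x o r] := by
  obtain ⟨⟨q, i, β⟩, t, k⟩ := o
  have hβ : (mkl M D β).1 = β := by
    simp only [mkl, dif_pos hl]
  constructor
  · intro h
    cases h with
    | step q i X t k r hr =>
      refine ⟨r, Or.inl ⟨by simp [ky, rk], X, hβ, hr⟩, rfl⟩
    | left q i β γ k =>
      refine ⟨(q, Move.stay, β), Or.inr ⟨rfl, rfl, rfl, ?_⟩, rfl⟩
      show β <+: (mkl M D (β ++ γ)).1
      rw [hβ]
      exact List.prefix_append _ _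
  · rintro ⟨r, hr, rfl⟩
    rcases hr with ⟨h1, X, h2, h3⟩ | ⟨h1, h2, h3, h4⟩
    · simp only [ky, fp, hβ, decide_eq_true_eq, rk] at h1 h2 h3
      subst h2
      obtain ⟨k, rfl⟩ : ∃ k', k = k' + 1 := ⟨k - 1, by omega⟩
      exact RuleR.step q i X t k r h3
    · obtain ⟨q', mv, l⟩ := r
      simp only [ky, fp, hβ] at h1 h2 h3 h4
      subst h2 h3
      obtain ⟨γ, rfl⟩ := h4
      cases t with
      | none => exact RuleR.left _ i l γ k
      | some p => simp at h1

theorem good_nw {D n : ℕ} (hD : PushLe M D) {x : List α} (hn : x.length = n) {d : ℕ} {o : Ob M}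
    (hg : Good M D n d o) {r : M.State × Move × List M.Stack}
    (hr : r ∈ rs M D (ky M D x o)) : Good M D n d (nw M x o r) where
  pos := by
    subst hn
    exact NPDA.apply_le x.length r.2.1 o.1.2.1 hg.pos
  len := by
    rcases hr with ⟨-, X, -, h3⟩ | ⟨-, -, -, h4⟩
    · exact hD _ _ _ r h3
    · refine h4.length_le.trans ?_
      exact (mkl M D o.1.2.2).2
  tgt := hg.tgt
  rk := hg.rk

end

section

variable {α S : Type} [Finite α] (M : NPDA α)

/-- The code of a truth value. -/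
noncomputable def boolE (e : Exp (S ⊕ RP)) : Exp (S ⊕ RP) :=
  Exp.tab (fun n => cod (decide (n = 1))) 2 e

theorem eval_boolE {x : List α} {s : S ⊕ RP → ℕ} {e : Exp (S ⊕ RP)} {b : Bool}
    (h : e.eval x cod s = b.toNat) : (boolE e).eval x cod s = cod b := by
  rw [boolE, Exp.eval, h]
  cases b <;> simp

variable {M}

/-- The part of the program in which the new obligation is guessed. -/
noncomputable def progT (D K : ℕ) (opt : Kr M D → Fin (2 ^ K) → M.State × Move × List M.Stack) :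
    NStmt (S ⊕ RP) Empty :=
  sqN [gk (Sum.inr .op) (Sum.inr .fl) K,
    asg (Sum.inr .ky) (pairE (Kr M D) (Fin (2 ^ K)) (vP .ky) (vP .op)),
    asg (Sum.inr .ph) (tabE (T := Kr M D × Fin (2 ^ K))
      (fun p => cod (((opt p.1 p.2).1, mkl M D (opt p.1 p.2).2.2, p.1.1.1.2.2) : Fp M D))
      (vP .ky)),
    asg (Sum.inr .t) (vP .i1 +
      tabE (T := Kr M D × Fin (2 ^ K)) (fun p => mvc (opt p.1 p.2).2.1) (vP .ky)),
    asg (Sum.inr .i1) (vP .t - (vP .t - (vP .n + 2)) - 1),
    asg (Sum.inr .Y) pushE,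
    clrP]

open Classical in
/-- The program. -/
noncomputable def prog (D K : ℕ) (opt : Kr M D → Fin (2 ^ K) → M.State × Move × List M.Stack) :
    NStmt (S ⊕ RP) Empty :=
  sqN [asg (Sum.inr .ky) (pairE (Fp M D × Cell α) Bool
      (pairE (Fp M D) (Cell α) (vP .ph) (Exp.inp (vP .i1))) (boolE (1 - (1 - vP .kk)))),
    asg (Sum.inr .t) (tabE (T := Kr M D) (fun p => if rs M D p = ∅ then 0 else 1) (vP .ky)),
    Stmt.ite (Sum.inr .t) (progT D K opt) (sqN [asg (Sum.inr .go) 0, clrP])]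

/-- The constant. -/
noncomputable def cK (M : NPDA α) (D K : ℕ) : ℕ :=
  Nat.card (Kr M D) + Nat.card (Kr M D × Fin (2 ^ K)) + 2 ^ K + Nat.card (Fp M D) + 4

variable {x : List α} {A K D : ℕ} {body : Empty → NStmt (S ⊕ RP) Empty} {k : ℕ}
  {opt : Kr M D → Fin (2 ^ K) → M.State × Move × List M.Stack}

theorem run_progT (hD : PushLe M D) {h d C : ℕ} {c : M.Cfg} {ac : Bool} {ob : Ob M}
    {os : List (Ob M)} (hs : Sm M x A (cK M D K) D h d ob os) (u : ℕ → Bool)
    {r : M.State × Move × List M.Stack}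
    (hr : r = opt (ky M D x ob) (dcd (gb K u))) (hr' : r ∈ rs M D (ky M D x ob)) :
    RunN x cod A body k (progT D K opt) (Sum.elim (fun _ : S => 0)
      (upd (upd (obO M D x.length h d C (c, ac, os) ob) .ky (cod (ky M D x ob))) .t 1)) u
      (stA M S D x.length h d C (c, ac, nw M x ob r :: os) 1 0) (sh K u) := by
  have h3 : 0 < 2 ^ K := Nat.two_pow_pos K
  obtain ⟨hA1, -, hA2⟩ := mul_lt_of_sm hs
  have hcK : cK M D K = Nat.card (Kr M D) + Nat.card (Kr M D × Fin (2 ^ K)) + 2 ^ K +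
    Nat.card (Fp M D) + 4 := rfl
  have hi : ob.1.2.1 ≤ x.length + 1 := hs.good.pos
  have h4 : 4 * (x.length + 2) ≤ A := (Nat.mul_le_mul_right _ (by omega)).trans hA1
  have hgn := good_nw M hD rfl hs.good hr'
  have hY : oscode M D x.length d (nw M x ob r :: os) < A := push_lt hs (by omega) hgn
  set o : Fin (2 ^ K) := dcd (gb K u) with ho
  have hgo : gb K u = cod o := by
    rw [ho, cod_dcd]
    rw [Nat.card_fin]
    exact gb_lt K u
  have hck : cod (ky M D x ob, o) < Nat.card (Kr M D × Fin (2 ^ K)) := cod_lt _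
  have hfp : cod (fp M D (nw M x ob r)) < Nat.card (Fp M D) := cod_lt _
  have hmv : mvc r.2.1 ≤ 2 := mvc_le _
  have hap : r.2.1.apply x.length ob.1.2.1 ≤ x.length + 1 := hgn.pos
  unfold progT
  refine RunN.cons (run_gk (by simp) (by simp [obO, stO]) (by omega) k u) ?_
  rw [upd_inrP]
  refine setP (cod (ky M D x ob, o)) ?_ (by omega)
    (setP (cod (fp M D (nw M x ob r))) ?_ (by omega)
    (setP (ob.1.2.1 + mvc r.2.1) ?_ (by omega)
    (setP (r.2.1.apply x.length ob.1.2.1) ?_ (by omega)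
    (setP (oscode M D x.length d (nw M x ob r :: os)) ?_ hY
    (run_clrP' (by omega) ?_ _)))))
  · refine eval_pairE ?_ ?_
    · simp [eval_var]
    · simp [eval_var, hgo]
  · rw [eval_tabE _ (t := (ky M D x ob, o)) (by simp [eval_var]), ← hr]
    rfl
  · rw [eval_add, eval_tabE (T := Kr M D × Fin (2 ^ K)) _ (t := (ky M D x ob, o))
      (by simp [eval_var]), ← hr]
    simp [eval_var, obO]
  · rw [← mvc_apply hi]
    simp [eval_var, obO, stO]
  · refine eval_pushE (h := h) (C := C) (s := (c, ac, os)) (go := 1) (res := 0) _ ?_ ?_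
    · refine ⟨?_, ?_, ?_, ?_, ?_, ?_, ?_, ?_, ?_, ?_, ?_, ?_, ?_⟩ <;> simp [obO, stO]
    · refine ⟨?_, ?_, ?_, ?_⟩
      · simp
      · simp [nw]
      · simp [obO, nw, tp]
      · simp [obO, nw, rk]
  · refine ⟨?_, ?_, ?_, ?_, ?_, ?_, ?_, ?_, ?_, ?_, ?_, ?_, ?_⟩ <;> simp [obO, stO]

theorem run_prog {h d C : ℕ} {c : M.Cfg} {ac : Bool} {ob : Ob M} {os : List (Ob M)}
    (hs : Sm M x A (cK M D K) D h d ob os) {u v : ℕ → Bool} {s : S ⊕ RP → ℕ} {m : ℕ}
    (hm : m = open Classical in if rs M D (ky M D x ob) = ∅ then 0 else 1)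
    (hl : RunN x cod A body k
      (sqN [Stmt.ite (Sum.inr .t) (progT D K opt) (sqN [asg (Sum.inr .go) 0, clrP])])
      (Sum.elim (fun _ : S => 0)
      (upd (upd (obO M D x.length h d C (c, ac, os) ob) .ky (cod (ky M D x ob))) .t m)) u s v) :
    RunN x cod A body k (prog D K opt)
      (obA M S D x.length h d C (c, ac, os) ob) u s v := by
  classical
  have h3 : 0 < 2 ^ K := Nat.two_pow_pos K
  obtain ⟨hA1, -, hA2⟩ := mul_lt_of_sm hs
  have hcK : cK M D K = Nat.card (Kr M D) + Nat.card (Kr M D × Fin (2 ^ K)) + 2 ^ K +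
    Nat.card (Fp M D) + 4 := rfl
  have hck : cod (ky M D x ob) < Nat.card (Kr M D) := cod_lt _
  refine setP (cod (ky M D x ob)) ?_ (by omega) (setP m ?_ ?_ hl)
  · refine eval_pairE (eval_pairE ?_ ?_) (eval_boolE ?_)
    · simp only [eval_var, Sum.elim_inr, obO]
    · simp only [Exp.eval, Sum.elim_inr, obO]
    · simp only [eval_sub, eval_one, eval_var, Sum.elim_inr, obO]
      by_cases h1 : 0 < rk M ob
      · rw [decide_eq_true h1]
        simp only [Bool.toNat_true]
        omega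
      · rw [decide_eq_false h1]
        simp only [Bool.toNat_false]
        omega
  · rw [eval_tabE (t := ky M D x ob) _ (by simp [eval_var]), hm]
  · rw [hm]
    split_ifs <;> omega

end

end Rep

section

variable {α : Type} [Finite α] (M : NPDA α)

/-- The rules which replace an obligation by one obligation. -/
theorem repSpec (D : ℕ) : PartSpec M D (RuleR M) := by
  classical
  intro hD
  obtain ⟨K, opt, hopt⟩ := Rep.exists_opt (Rep.rs M D) (Rep.rs_finite M D)
  refine ⟨Rep.cK M D K, fun S => ⟨Rep.prog D K opt,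
    fun x A k body h d C c ac ob os hs => ?_⟩⟩
  have hA : 0 < A := by
    have h3 : 0 < 2 ^ K := Nat.two_pow_pos K
    obtain ⟨-, -, hA2⟩ := mul_lt_of_sm hs
    have hcK : Rep.cK M D K = Nat.card (Rep.Kr M D) + Nat.card (Rep.Kr M D × Fin (2 ^ K)) + 2 ^ K +
      Nat.card (Fp M D) + 4 := rfl
    omega
  have hT : ∀ (u : ℕ → Bool), (Rep.rs M D (Rep.ky M D x ob)).Nonempty →
      RunN x cod A body k (Rep.prog D K opt) (obA M S D x.length h d C (c, ac, os) ob) u
        (stA M S D x.length h d C (c, ac,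
          Rep.nw M x ob (opt (Rep.ky M D x ob) (dcd (gb K u))) :: os) 1 0) (sh K u) := by
    intro u hne
    refine Rep.run_prog hs (if_neg hne.ne_empty).symm
      (RunN.cons (RunN.iteT _ _ _ _ _ _ _ _ ?_ (Rep.run_progT hD hs u rfl
        ((hopt _ hne).1 _))) RunN.nil)
    simp
  refine ⟨fun u => ?_, fun new hn v => ?_⟩
  · by_cases hne : (Rep.rs M D (Rep.ky M D x ob)).Nonempty
    · exact ⟨_, Or.inr ⟨_, (Rep.ruleR_iff M x hs.good.len _).2 ⟨_, (hopt _ hne).1 _, rfl⟩,
        hT u hne⟩⟩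
    · rw [Set.not_nonempty_iff_eq_empty] at hne
      refine ⟨u, Or.inl ⟨os, Rep.run_prog hs (if_pos hne).symm
        (RunN.cons (RunN.iteF _ _ _ _ _ _ _ _ ?_ (run_fail (s := (c, ac, os)) (go := 1) hA ?_ u))
          RunN.nil)⟩⟩
      · simp
      · refine ⟨?_, ?_, ?_, ?_, ?_, ?_, ?_, ?_, ?_, ?_, ?_, ?_, ?_⟩ <;> simp [obO, stO]
  · obtain ⟨r, hr, rfl⟩ := (Rep.ruleR_iff M x hs.good.len _).1 hn
    have hne : (Rep.rs M D (Rep.ky M D x ob)).Nonempty := ⟨r, hr⟩
    obtain ⟨o, ho⟩ := (hopt _ hne).2 r hr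
    obtain ⟨u, g1, g2⟩ := gb_surj K (cod o) (by
      have := cod_lt o
      rwa [Nat.card_fin] at this) v
    refine ⟨u, ?_⟩
    have h1 := hT u hne
    rw [g1, g2, dcd_cod, ho] at h1
    exact h1

end

end RN

end Pool.Agent.Lib.MP_9277c3_lc
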