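import Pool.Agent.Lib.MP_9277c3_lc.RN.Defs
import Pool.Agent.Lib.MP_9277c3_lc.RC.SpecO

/-!
# Specification of the program for the machine with obligations
-/

set_option autoImplicit false

namespace Pool.Agent.Lib.MP_9277c3_lc

namespace RN

open CM NC RC

/-- The registers. First the state: the length `n` of the input, the threshold `h`, the bound `d` for
the rank, the base `B` of the list of obligations, the number `C` of rounds which are left, the
configuration `q, i, Z, H` (state, position, number of the stack, height), the flag `ac`, the number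
`Y` of the list of obligations, the flag `go`, the result `res`. Then the arguments of a query:
state `qq`, position `qi`, symbol `X`, target `dd`, position `j` of the target. Then one obligation:
finite part `ph`, position `i1`, position `i2` of the target, rank `kk`. The other registers are
auxiliary. -/
inductive RP : Type
  | n | h | d | B | C | q | i | Z | H | ac | Y | go | res
  | qq | qi | X | dd | j | ph | i1 | i2 | kk | ky | op | vv | fl | t | t'

section

variable {α : Type} [Finite α] (M : NPDA α)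

/-- The finite part of an obligation: state, at most `D` symbols, state of the target. -/
abbrev Fp (D : ℕ) : Type := M.State × {l : List M.Stack // l.length ≤ D} × Option M.State

instance (D : ℕ) : Inhabited {l : List M.Stack // l.length ≤ D} := ⟨⟨[], Nat.zero_le _⟩⟩

instance (D : ℕ) : Finite {l : List M.Stack // l.length ≤ D} :=
  Finite.of_injective (β := Fin D → Option M.Stack) (fun l k => l.1[(k : ℕ)]?) (by
    intro a b hab
    apply Subtype.ext
    apply List.ext_getElem?
    intro k
    by_cases hk : k < D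
    · exact congrFun hab ⟨k, hk⟩
    · rw [List.getElem?_eq_none (by have := a.2; omega),
        List.getElem?_eq_none (by have := b.2; omega)])

/-- The list, if it has at most `D` symbols. -/
def mkl (D : ℕ) (l : List M.Stack) : {l : List M.Stack // l.length ≤ D} :=
  if h : l.length ≤ D then ⟨l, h⟩ else default

/-- The finite part of an obligation. -/
def fp (D : ℕ) (o : Ob M) : Fp M D := (o.1.1, mkl M D o.1.2.2, o.2.1.map Prod.fst)

/-- The position of the target of an obligation, or zero. -/
def tp (o : Ob M) : ℕ := match o.2.1 with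
  | some p => p.2
  | none => 0

/-- The number of an obligation. -/
noncomputable def ocode (D n d : ℕ) (o : Ob M) : ℕ :=
  ((cod (fp M D o) * (n + 2) + o.1.2.1) * (n + 2) + tp M o) * (d + 1) + rk M o

/-- The base of the numbers of lists of obligations. -/
noncomputable def nB (D n d : ℕ) : ℕ := Nat.card (Fp M D) * (n + 2) ^ 2 * (d + 1) + 1

/-- The number of a list of obligations. -/
noncomputable def oscode (D n d : ℕ) : List (Ob M) → ℕ
  | [] => 0
  | o :: os => ocode M D n d o + 1 + nB M D n d * oscode D n d os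

/-- The size. -/
noncomputable def SZ (D n h d : ℕ) : ℕ :=
  (n + 2) * (Nat.card M.Stack + 1) ^ (h + D + 1) * nB M D n d ^ (d + 2)

/-- The registers of the state of the machine; the other registers are zero. -/
noncomputable def stO (D n h d C : ℕ) (s : St M) (go res : ℕ) : RP → ℕ
  | .n => n
  | .h => h
  | .d => d
  | .B => nB M D n d
  | .C => C
  | .q => cod s.1.1
  | .i => s.1.2.1
  | .Z => scode M s.1.2.2
  | .H => s.1.2.2.length
  | .ac => s.2.1.toNat
  | .Y => oscode M D n d s.2.2
  | .go => go
  | .res => res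
  | _ => 0

/-- All registers, the registers of the query program are zero. -/
noncomputable def stA (S : Type) (D n h d C : ℕ) (s : St M) (go res : ℕ) : S ⊕ RP → ℕ :=
  Sum.elim (fun _ => 0) (stO M D n h d C s go res)

/-- The registers of the state and one obligation. -/
noncomputable def obO (D n h d C : ℕ) (s : St M) (o : Ob M) : RP → ℕ
  | .ph => cod (fp M D o)
  | .i1 => o.1.2.1
  | .i2 => tp M o
  | .kk => rk M o
  | r => stO M D n h d C s 1 0 r

/-- All registers, with one obligation. -/
noncomputable def obA (S : Type) (D n h d C : ℕ) (s : St M) (o : Ob M) : S ⊕ RP → ℕ :=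
  Sum.elim (fun _ => 0) (obO M D n h d C s o)

variable {S : Type}

/-- The query program, in the registers `RP`. -/
structure QryR (x : List α) (A : ℕ) (body : Empty → NStmt (S ⊕ RP) Empty) (k : ℕ) (res : S)
    (qry : NStmt (S ⊕ RP) Empty) : Prop where
  total : ∀ (o : RP → ℕ) (q : M.State) (i : ℕ) (X : M.Stack) (d : Option M.State) (j : ℕ),
    i ≤ x.length + 1 → j ≤ x.length + 1 → o .n = x.length → o .qq = cod q → o .qi = i →
    o .X = cod X → o .dd = cod d → o .j = j → ∀ u : ℕ → Bool, ∃ (r : ℕ) (v : ℕ → Bool),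
      RunN x cod A body k qry (Sum.elim (fun _ => 0) o) u
        (Sum.elim (upd (fun _ => 0) res r) o) v ∧ (r ≠ 0 → M.Query x q i X d j)
  complete : ∀ (o : RP → ℕ) (q : M.State) (i : ℕ) (X : M.Stack) (d : Option M.State) (j : ℕ),
    i ≤ x.length + 1 → j ≤ x.length + 1 → o .n = x.length → o .qq = cod q → o .qi = i →
    o .X = cod X → o .dd = cod d → o .j = j → M.Query x q i X d j → ∀ v : ℕ → Bool,
      ∃ (u : ℕ → Bool) (r : ℕ), r ≠ 0 ∧
        RunN x cod A body k qry (Sum.elim (fun _ => 0) o) u
          (Sum.elim (upd (fun _ => 0) res r) o) v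

/-- REN, statement: the query program of `RC` can be used. -/
def RenSpec : Prop := ∀ (S : Type) (res : S) (qry : NStmt (S ⊕ RO) Empty),
  ∃ qry' : NStmt ((S ⊕ RO) ⊕ RP) Empty, ∀ (x : List α) (A k : ℕ)
    (body : Empty → NStmt (S ⊕ RO) Empty) (body' : Empty → NStmt ((S ⊕ RO) ⊕ RP) Empty),
    QryOK M x A body k res qry → QryR M x A body' k (Sum.inl res) qry'

/-- Steps with a low stack. -/
structure LowR (x : List α) (A K₀ D : ℕ) (body : Empty → NStmt (S ⊕ RP) Empty) (k : ℕ)
    (P : NStmt (S ⊕ RP) Empty) : Prop where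
  none : ∀ (h d C : ℕ) (q : M.State) (i : ℕ) (X : M.Stack) (γ : List M.Stack),
    Big M x A K₀ (q, i, X :: γ) D → M.next q (cell x i) X = ∅ → ∀ u : ℕ → Bool,
    ∃ v, RunN x cod A body k P (stA M S D x.length h d C ((q, i, X :: γ), false, []) 1 0) u
      (stA M S D x.length h d C ((q, i, X :: γ), false, []) 0 0) v
  total : ∀ (h d C : ℕ) (q : M.State) (i : ℕ) (X : M.Stack) (γ : List M.Stack),
    Big M x A K₀ (q, i, X :: γ) D → (M.next q (cell x i) X).Nonempty → ∀ u : ℕ → Bool,
    ∃ r ∈ M.next q (cell x i) X, ∃ v, RunN x cod A body k P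
      (stA M S D x.length h d C ((q, i, X :: γ), false, []) 1 0) u
      (stA M S D x.length h d C ((r.1, r.2.1.apply x.length i, r.2.2 ++ γ), false, []) 1 0) v
  complete : ∀ (h d C : ℕ) (q : M.State) (i : ℕ) (X : M.Stack) (γ : List M.Stack),
    Big M x A K₀ (q, i, X :: γ) D → ∀ r ∈ M.next q (cell x i) X, ∀ v : ℕ → Bool,
    ∃ u, RunN x cod A body k P
      (stA M S D x.length h d C ((q, i, X :: γ), false, []) 1 0) u
      (stA M S D x.length h d C ((r.1, r.2.1.apply x.length i, r.2.2 ++ γ), false, []) 1 0) v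

/-- LOW, statement (from `RC.lowSpec` by renaming the registers). -/
def LowSpecR (D : ℕ) : Prop := PushLe M D → ∃ K₀ : ℕ, ∀ S : Type,
  ∃ P : NStmt (S ⊕ RP) Empty, ∀ (x : List α) (A k : ℕ) (body : Empty → NStmt (S ⊕ RP) Empty),
    LowR M x A K₀ D body k P

/-- The program for an obligation or a part of it: in every run it does something correct, and
whatever is correct is done by some run. `pre` are the registers at the beginning, `ok new` means
that the obligation may be replaced by the list `new`. -/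
structure Does (x : List α) (A D h d C : ℕ) (body : Empty → NStmt (S ⊕ RP) Empty) (k : ℕ)
    (P : NStmt (S ⊕ RP) Empty) (pre : S ⊕ RP → ℕ) (c : M.Cfg) (ac : Bool) (os : List (Ob M))
    (ok : List (Ob M) → Prop) : Prop where
  total : ∀ u : ℕ → Bool, ∃ v,
    (∃ os', RunN x cod A body k P pre u (stA M S D x.length h d C (c, ac, os') 0 0) v) ∨
    ∃ new, ok new ∧ RunN x cod A body k P pre u
      (stA M S D x.length h d C (c, ac, new ++ os) 1 0) v
  complete : ∀ new, ok new → ∀ v : ℕ → Bool, ∃ u, RunN x cod A body k P pre u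
    (stA M S D x.length h d C (c, ac, new ++ os) 1 0) v

/-- The numbers in a round for the obligation `o` in the list `o :: os` are small. -/
structure Sm (x : List α) (A K₀ D h d : ℕ) (o : Ob M) (os : List (Ob M)) : Prop where
  good : Good M D x.length d o
  big : K₀ * (nB M D x.length d ^ 2 * (oscode M D x.length d os + 1)) ≤ A
  pos : 1 ≤ D

/-- The four kinds of rules. -/
inductive RuleC (x : List α) : Ob M → List (Ob M) → Prop
  | fin (q : M.State) (i k : ℕ) : RuleC x ((q, i, []), some (q, i), k) []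
  | acc (q : M.State) (i : ℕ) (β : List M.Stack) (k : ℕ) (ha : M.accepting q (cell x i)) :
      RuleC x ((q, i, β), none, k) []

/-- Rules with a query. -/
inductive RuleQ (x : List α) : Ob M → List (Ob M) → Prop
  | aqry (q : M.State) (i : ℕ) (X : M.Stack) (β : List M.Stack) (k : ℕ)
      (hQ : M.Query x q i X none 0) : RuleQ x ((q, i, X :: β), none, k) []
  | adv (q : M.State) (i : ℕ) (X : M.Stack) (β : List M.Stack) (t : Option (M.State × ℕ)) (k : ℕ)
      (q' : M.State) (j : ℕ) (hj : j ≤ x.length + 1) (hQ : M.Query x q i X (some q') j) :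
      RuleQ x ((q, i, X :: β), t, k) [((q', j, β), t, k)]

/-- Rules which replace an obligation by one obligation. -/
inductive RuleR (x : List α) : Ob M → List (Ob M) → Prop
  | step (q : M.State) (i : ℕ) (X : M.Stack) (t : Option (M.State × ℕ)) (k : ℕ)
      (r : M.State × Move × List M.Stack) (hr : r ∈ M.next q (cell x i) X) :
      RuleR x ((q, i, [X]), t, k + 1) [((r.1, r.2.1.apply x.length i, r.2.2), t, k + 1)]
  | left (q : M.State) (i : ℕ) (β γ : List M.Stack) (k : ℕ) :
      RuleR x ((q, i, β ++ γ), none, k) [((q, i, β), none, k)]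

/-- Rules which split an obligation. -/
inductive RuleS (x : List α) : Ob M → List (Ob M) → Prop
  | fst (q : M.State) (i : ℕ) (β γ : List M.Stack) (t : Option (M.State × ℕ)) (k : ℕ)
      (q' : M.State) (j : ℕ) (hj : j ≤ x.length + 1) :
      RuleS x ((q, i, β ++ γ), t, k + 1)
        [((q', j, γ), t, k), ((q, i, β), some (q', j), k + 1)]
  | snd (q : M.State) (i : ℕ) (β γ : List M.Stack) (t : Option (M.State × ℕ)) (k : ℕ)
      (q' : M.State) (j : ℕ) (hj : j ≤ x.length + 1) :
      RuleS x ((q, i, β ++ γ), t, k + 1)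
        [((q, i, β), some (q', j), k), ((q', j, γ), t, k + 1)]

/-- CLOSE, QRY, REP, SPL, statements: the program `P` is started with the obligation `o` in its
registers (and removed from the list). -/
def PartSpec (D : ℕ) (ok : List α → Ob M → List (Ob M) → Prop) : Prop :=
  PushLe M D → ∃ K₀ : ℕ, ∀ S : Type, ∃ P : NStmt (S ⊕ RP) Empty,
    ∀ (x : List α) (A k : ℕ) (body : Empty → NStmt (S ⊕ RP) Empty) (h d C : ℕ) (c : M.Cfg)
      (ac : Bool) (o : Ob M) (os : List (Ob M)), Sm M x A K₀ D h d o os →
      Does M x A D h d C body k P (obA M S D x.length h d C (c, ac, os) o) c ac os (ok x o)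

/-- QRY, statement. -/
def PartSpecQ (D : ℕ) : Prop :=
  PushLe M D → ∃ K₀ : ℕ, ∀ (S : Type) (res : S) (qry : NStmt (S ⊕ RP) Empty),
    ∃ P : NStmt (S ⊕ RP) Empty,
    ∀ (x : List α) (A k : ℕ) (body : Empty → NStmt (S ⊕ RP) Empty),
      QryR M x A body k res qry → ∀ (h d C : ℕ) (c : M.Cfg)
      (ac : Bool) (o : Ob M) (os : List (Ob M)), Sm M x A K₀ D h d o os →
      Does M x A D h d C body k P (obA M S D x.length h d C (c, ac, os) o) c ac os (RuleQ M x o)

/-- RULE, statement (from the four parts): one round for an obligation. -/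
def RuleSpec (D : ℕ) : Prop :=
  PushLe M D → ∃ K₀ : ℕ, ∀ (S : Type) (res : S) (qry : NStmt (S ⊕ RP) Empty),
    ∃ P : NStmt (S ⊕ RP) Empty,
    ∀ (x : List α) (A k : ℕ) (body : Empty → NStmt (S ⊕ RP) Empty),
      QryR M x A body k res qry → ∀ (h d C : ℕ) (c : M.Cfg)
      (ac : Bool) (o : Ob M) (os : List (Ob M)), Sm M x A K₀ D h d o os →
      Does M x A D h d C body k P (stA M S D x.length h d C (c, ac, o :: os) 1 0) c ac os
        (Rule M x o)

/-- Steps with a high stack: the obligation is pushed. -/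
structure HighR (x : List α) (A K₀ D : ℕ) (body : Empty → NStmt (S ⊕ RP) Empty) (k : ℕ)
    (P : NStmt (S ⊕ RP) Empty) : Prop where
  total : ∀ (h d C : ℕ) (q : M.State) (i : ℕ) (X : M.Stack) (γ : List M.Stack),
    Big M x A K₀ (q, i, X :: γ) D → K₀ * nB M D x.length d ≤ A → ∀ u : ℕ → Bool,
    ∃ v, (∃ s, RunN x cod A body k P
        (stA M S D x.length h d C ((q, i, X :: γ), false, []) 1 0) u
        (stA M S D x.length h d C s 0 0) v) ∨
      (RunN x cod A body k P (stA M S D x.length h d C ((q, i, X :: γ), false, []) 1 0) u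
        (stA M S D x.length h d C ((q, i, X :: γ), true, [((q, i, [X]), none, d)]) 1 0) v) ∨
      ∃ q' j, j ≤ x.length + 1 ∧
        RunN x cod A body k P (stA M S D x.length h d C ((q, i, X :: γ), false, []) 1 0) u
        (stA M S D x.length h d C ((q', j, γ), false, [((q, i, [X]), some (q', j), d)]) 1 0) v
  last : ∀ (h d C : ℕ) (q : M.State) (i : ℕ) (X : M.Stack) (γ : List M.Stack),
    Big M x A K₀ (q, i, X :: γ) D → K₀ * nB M D x.length d ≤ A → ∀ v : ℕ → Bool,
    ∃ u, RunN x cod A body k P (stA M S D x.length h d C ((q, i, X :: γ), false, []) 1 0) u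
      (stA M S D x.length h d C ((q, i, X :: γ), true, [((q, i, [X]), none, d)]) 1 0) v
  pop : ∀ (h d C : ℕ) (q : M.State) (i : ℕ) (X : M.Stack) (γ : List M.Stack),
    Big M x A K₀ (q, i, X :: γ) D → K₀ * nB M D x.length d ≤ A → ∀ q' j, j ≤ x.length + 1 →
    ∀ v : ℕ → Bool,
    ∃ u, RunN x cod A body k P (stA M S D x.length h d C ((q, i, X :: γ), false, []) 1 0) u
      (stA M S D x.length h d C ((q', j, γ), false, [((q, i, [X]), some (q', j), d)]) 1 0) v

/-- HIGH, statement. -/
def HighSpecR (D : ℕ) : Prop := 1 ≤ D → ∃ K₀ : ℕ, ∀ S : Type,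
  ∃ P : NStmt (S ⊕ RP) Empty, ∀ (x : List α) (A k : ℕ) (body : Empty → NStmt (S ⊕ RP) Empty),
    HighR M x A K₀ D body k P

/-- The registers before the main loop. -/
noncomputable def iniP (D n h d C : ℕ) : RP → ℕ
  | .n => n
  | .h => h
  | .d => d
  | .B => nB M D n d
  | .C => C
  | _ => 0

/-- The main loop, statement. -/
def OuterSpecR (K₀ D : ℕ) : Prop :=
  ∀ (S : Type) (res : S) (qry : NStmt (S ⊕ RP) Empty), ∃ P : NStmt (S ⊕ RP) Empty,
    ∀ (x : List α) (A k : ℕ) (body : Empty → NStmt (S ⊕ RP) Empty), QryR M x A body k res qry →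
      ∀ h d C : ℕ, K₀ * SZ M D x.length h d ≤ A →
        C = 2 * Nat.card M.State * SZ M D x.length h d →
        (∀ u : ℕ → Bool, ∃ t v, RunN x cod A body k P
          (Sum.elim (fun _ => 0) (iniP M D x.length h d C)) u t v ∧
          (t (Sum.inr .res) ≠ 0 → M.AcceptsRank h d x)) ∧
        (M.AcceptsRank h d x → ∃ (u : ℕ → Bool) (t : S ⊕ RP → ℕ) (v : ℕ → Bool),
          RunN x cod A body k P (Sum.elim (fun _ => 0) (iniP M D x.length h d C)) u t v ∧
          t (Sum.inr .res) ≠ 0)

/-- CNT, statement: there is a run without repetitions of states. -/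
def CntSpec (D : ℕ) : Prop := PushLe M D → 1 ≤ D → ObSpec M D → ∀ (x : List α) (h d : ℕ),
  M.AcceptsRank h d x → ∃ (T : ℕ) (f : ℕ → St M),
    T < 2 * Nat.card M.State * SZ M D x.length h d ∧ f 0 = ini M ∧
    (∀ m < T, AS M x h d (f m) (f (m + 1))) ∧ (∀ m ≤ T, Inv M D x.length h d (f m)) ∧
    Acc M x (f T)

/-- The registers of the initial program. -/
inductive RJ : Type
  | n | L | s | h | d | B | C | i | t

/-- The registers after the initial program; `kf` is the number of finite parts, `Bs` the base of the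
numbers of stacks. -/
def finJ (b kq kf Bs D n : ℕ) : RJ → ℕ
  | .n => n
  | .L => Nat.log 2 (n + 2)
  | .s => Nat.sqrt (Nat.log 2 (n + 2))
  | .h => b * (Nat.log 2 (n + 2) * (Nat.sqrt (Nat.log 2 (n + 2)) + 1))
  | .d => b * (Nat.sqrt (Nat.log 2 (n + 2)) + 1)
  | .B => kf * (n + 2) ^ 2 * (b * (Nat.sqrt (Nat.log 2 (n + 2)) + 1) + 1) + 1
  | .C => 2 * kq * ((n + 2) *
      Bs ^ (b * (Nat.log 2 (n + 2) * (Nat.sqrt (Nat.log 2 (n + 2)) + 1)) + D + 1) *
      (kf * (n + 2) ^ 2 * (b * (Nat.sqrt (Nat.log 2 (n + 2)) + 1) + 1) + 1) ^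
        (b * (Nat.sqrt (Nat.log 2 (n + 2)) + 1) + 2))
  | .i => 0
  | .t => 0

/-- INIT, statement. -/
def InitSpecR (α : Type) [Finite α] (b kq kf Bs D : ℕ) : Prop :=
  ∃ (P : AStmt RJ Empty) (K : ℕ), ∀ (x : List α) (A : ℕ),
    2 ^ (K * (Nat.log 2 (x.length + 2) * (Nat.sqrt (Nat.log 2 (x.length + 2)) + 1))) ≤ A →
    RunA x cod A (fun f : Empty => (nomatch f : AStmt RJ Empty)) 0 P (fun _ => 0)
      (finJ b kq kf Bs D x.length)

/-- LOOP, statement: the main loop from its parts. -/
def LoopSpecR (D : ℕ) : Prop := PushLe M D → 1 ≤ D → ObSpec M D → CntSpec M D → LowSpecR M D →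
  HighSpecR M D → RuleSpec M D → ∃ K₀, OuterSpecR M K₀ D

end

end RN

end Pool.Agent.Lib.MP_9277c3_lc
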