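import Pool.Agent.Lib.MP_9277c3_lc.RN.Spec
import Pool.Agent.Lib.MP_9277c3_lc.RC.High
import Pool.Agent.Lib.MP_9277c3_lc.RC.Low

section
/-!
# Lemmas for the programs for obligations
-/
set_option autoImplicit false

namespace Pool.Agent.Lib.MP_9277c3_lc

namespace RN

open CM NC RC

section

variable {α S : Type} {x : List α} {cc : Cell α → ℕ} {A : ℕ} {body : Empty → NStmt (S ⊕ RP) Empty}

/-- A register of the main program. -/
abbrev vP (r : RP) : Exp (S ⊕ RP) := Exp.var (Sum.inr r)

theorem upd_inrP (f : S → ℕ) (o : RP → ℕ) (r : RP) (n : ℕ) :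
    upd (Sum.elim f o) (Sum.inr r) n = Sum.elim f (upd o r n) := by
  funext p
  cases p with
  | inl p => rw [upd_ne (by simp)]; rfl
  | inr p =>
    by_cases h : p = r
    · subst h
      simp
    · rw [upd_ne (by simpa using h), Sum.elim_inr, Sum.elim_inr, upd_ne h]

/-- The first instruction of a list is an assignment. -/
theorem setP {k : ℕ} {f : S → ℕ} {o : RP → ℕ} {r : RP} {ex : Exp (S ⊕ RP)}
    {l : List (NStmt (S ⊕ RP) Empty)} {t : S ⊕ RP → ℕ} {u v : ℕ → Bool} (n : ℕ)
    (hn : ex.eval x cc (Sum.elim f o) = n) (hA : n < A)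
    (h₂ : RunN x cc A body k (sqN l) (Sum.elim f (upd o r n)) u t v) :
    RunN x cc A body k (sqN (asg (Sum.inr r) ex :: l)) (Sum.elim f o) u t v := by
  refine RunN.set n hn hA ?_
  rw [upd_inrP]
  exact h₂

/-- The auxiliary registers. -/
def auxL : List RP := [.qq, .qi, .X, .dd, .j, .ph, .i1, .i2, .kk, .ky, .op, .vv, .fl, .t, .t']

/-- Set the auxiliary registers to zero. -/
def clrP : NStmt (S ⊕ RP) Empty :=
  sqN ((auxL.map Sum.inr).map fun q : S ⊕ RP => asg q 0)

/-- The expression for the number of the list, after a push of the obligation in the registers. -/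
def pushE : Exp (S ⊕ RP) :=
  vP .Y * vP .B + (((vP .ph * (vP .n + 2) + vP .i1) * (vP .n + 2) + vP .i2) * (vP .d + 1) +
    vP .kk + 1)

end

section

variable {α : Type} [Finite α] (M : NPDA α)

/-- The value of a state register of the machine: all but the auxiliary registers. -/
def St0 (D n h d C : ℕ) (s : St M) (go res : ℕ) (o : RP → ℕ) : Prop :=
  o .n = n ∧ o .h = h ∧ o .d = d ∧ o .B = nB M D n d ∧ o .C = C ∧ o .q = cod s.1.1 ∧
    o .i = s.1.2.1 ∧ o .Z = scode M s.1.2.2 ∧ o .H = s.1.2.2.length ∧ o .ac = s.2.1.toNat ∧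
    o .Y = oscode M D n d s.2.2 ∧ o .go = go ∧ o .res = res

/-- The registers of an obligation. -/
def Ob0 (D : ℕ) (ob : Ob M) (o : RP → ℕ) : Prop :=
  o .ph = cod (fp M D ob) ∧ o .i1 = ob.1.2.1 ∧ o .i2 = tp M ob ∧ o .kk = rk M ob

variable {M}

theorem st0_stO (D n h d C : ℕ) (s : St M) (go res : ℕ) :
    St0 M D n h d C s go res (stO M D n h d C s go res) :=
  ⟨rfl, rfl, rfl, rfl, rfl, rfl, rfl, rfl, rfl, rfl, rfl, rfl, rfl⟩

theorem st0_obO (D n h d C : ℕ) (s : St M) (ob : Ob M) :
    St0 M D n h d C s 1 0 (obO M D n h d C s ob) :=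
  ⟨rfl, rfl, rfl, rfl, rfl, rfl, rfl, rfl, rfl, rfl, rfl, rfl, rfl⟩

theorem ob0_obO (D n h d C : ℕ) (s : St M) (ob : Ob M) :
    Ob0 M D ob (obO M D n h d C s ob) := ⟨rfl, rfl, rfl, rfl⟩

/-- Clear the auxiliary registers. -/
theorem run_clrP {S : Type} {x : List α} {A : ℕ} {body : Empty → NStmt (S ⊕ RP) Empty} {k : ℕ}
    (hA : 0 < A) {D n h d C : ℕ} {s : St M} {go res : ℕ} {o : RP → ℕ}
    (ho : St0 M D n h d C s go res o) (u : ℕ → Bool) :
    RunN x cod A body k clrP (Sum.elim (fun _ => 0) o) u (stA M S D n h d C s go res) u := by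
  classical
  refine (run_clear (auxL.map Sum.inr) hA _ u).cast ?_
  obtain ⟨h1, h2, h3, h4, h5, h6, h7, h8, h9, h10, h11, h12, h13⟩ := ho
  funext r
  rcases r with r | r
  · simp [stA]
  · cases r <;> simp [stA, stO, auxL, *]

/-- Clear the auxiliary registers, at the end of a list. -/
theorem run_clrP' {S : Type} {x : List α} {A : ℕ} {body : Empty → NStmt (S ⊕ RP) Empty} {k : ℕ}
    (hA : 0 < A) {D n h d C : ℕ} {s : St M} {go res : ℕ} {o : RP → ℕ}
    (ho : St0 M D n h d C s go res o) (u : ℕ → Bool) :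
    RunN x cod A body k (sqN [clrP]) (Sum.elim (fun _ => 0) o) u
      (stA M S D n h d C s go res) u :=
  RunN.cons (run_clrP hA ho u) RunN.nil

/-- Stop: the obligation cannot be replaced. -/
theorem run_fail {S : Type} {x : List α} {A : ℕ} {body : Empty → NStmt (S ⊕ RP) Empty} {k : ℕ}
    (hA : 0 < A) {D n h d C : ℕ} {s : St M} {go res : ℕ} {o : RP → ℕ}
    (ho : St0 M D n h d C s go res o) (u : ℕ → Bool) :
    RunN x cod A body k (sqN [asg (Sum.inr .go) 0, clrP]) (Sum.elim (fun _ => 0) o) u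
      (stA M S D n h d C s 0 res) u := by
  refine setP 0 rfl hA (run_clrP' hA ?_ u)
  obtain ⟨h1, h2, h3, h4, h5, h6, h7, h8, h9, h10, h11, h12, h13⟩ := ho
  refine ⟨?_, ?_, ?_, ?_, ?_, ?_, ?_, ?_, ?_, ?_, ?_, ?_, ?_⟩ <;> simp [upd, *]

theorem one_le_nB (D n d : ℕ) : 1 ≤ nB M D n d := Nat.succ_pos _

theorem card_Fp_pos (D : ℕ) : 0 < Nat.card (Fp M D) := Nat.card_pos

theorem tp_le {D n d : ℕ} {ob : Ob M} (hg : Good M D n d ob) : tp M ob ≤ n + 1 := by
  obtain ⟨c, t, k⟩ := ob
  cases t with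
  | none => exact Nat.zero_le _
  | some p => exact hg.tgt p.1 p.2 rfl

/-- The number of a good obligation. -/
theorem ocode_lt {D n d : ℕ} {ob : Ob M} (hg : Good M D n d ob) :
    ocode M D n d ob + 1 < nB M D n d := by
  have h1 := cod_lt (fp M D ob)
  have h2 := hg.pos
  have h3 := tp_le hg
  have h4 : rk M ob ≤ d := hg.rk
  unfold ocode nB
  have h5 : cod (fp M D ob) * (n + 2) + ob.1.2.1 < Nat.card (Fp M D) * (n + 2) := by
    calc _ < (cod (fp M D ob) + 1) * (n + 2) := by
          rw [Nat.add_mul, Nat.one_mul]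
          omega
      _ ≤ _ := Nat.mul_le_mul_right _ h1
  have h6 : (cod (fp M D ob) * (n + 2) + ob.1.2.1) * (n + 2) + tp M ob <
      Nat.card (Fp M D) * (n + 2) * (n + 2) := by
    calc _ < (cod (fp M D ob) * (n + 2) + ob.1.2.1 + 1) * (n + 2) := by
          rw [Nat.add_mul _ 1 (n + 2), Nat.one_mul]
          omega
      _ ≤ _ := Nat.mul_le_mul_right _ h5
  have h7 : ((cod (fp M D ob) * (n + 2) + ob.1.2.1) * (n + 2) + tp M ob) * (d + 1) + rk M ob <
      Nat.card (Fp M D) * (n + 2) * (n + 2) * (d + 1) := by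
    calc _ < ((cod (fp M D ob) * (n + 2) + ob.1.2.1) * (n + 2) + tp M ob + 1) * (d + 1) := by
          rw [Nat.add_mul _ 1 (d + 1), Nat.one_mul]
          omega
      _ ≤ _ := Nat.mul_le_mul_right _ h6
  have h8 : Nat.card (Fp M D) * (n + 2) ^ 2 * (d + 1) =
      Nat.card (Fp M D) * (n + 2) * (n + 2) * (d + 1) := by ring
  omega

theorem oscode_cons (D n d : ℕ) (ob : Ob M) (os : List (Ob M)) :
    oscode M D n d (ob :: os) = ocode M D n d ob + 1 + nB M D n d * oscode M D n d os := rfl

theorem oscode_mod {D n d : ℕ} {ob : Ob M} (hg : Good M D n d ob) (os : List (Ob M)) :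
    oscode M D n d (ob :: os) % nB M D n d = ocode M D n d ob + 1 := by
  rw [oscode_cons, Nat.add_mul_mod_self_left, Nat.mod_eq_of_lt (ocode_lt hg)]

theorem oscode_div {D n d : ℕ} {ob : Ob M} (hg : Good M D n d ob) (os : List (Ob M)) :
    oscode M D n d (ob :: os) / nB M D n d = oscode M D n d os := by
  rw [oscode_cons, Nat.add_mul_div_left _ _ (one_le_nB D n d), Nat.div_eq_of_lt (ocode_lt hg),
    Nat.zero_add]

/-- The number of a list after one push. -/
theorem oscode_cons_lt {D n d : ℕ} {ob : Ob M} (hg : Good M D n d ob) (os : List (Ob M)) :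
    oscode M D n d (ob :: os) < nB M D n d * (oscode M D n d os + 1) := by
  rw [oscode_cons, Nat.mul_add, Nat.mul_one]
  have := ocode_lt hg
  omega

/-- The value of the expression for a push. -/
theorem eval_pushE {S : Type} {x : List α} {D n h d C : ℕ} {s : St M} {go res : ℕ} {ob : Ob M}
    {o : RP → ℕ} (f : S → ℕ) (ho : St0 M D n h d C s go res o) (hb : Ob0 M D ob o) :
    (pushE (S := S)).eval x cod (Sum.elim f o) = oscode M D n d (ob :: s.2.2) := by
  obtain ⟨h1, h2, h3, h4, h5, h6, h7, h8, h9, h10, h11, h12, h13⟩ := ho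
  obtain ⟨g1, g2, g3, g4⟩ := hb
  simp only [pushE, eval_add, eval_mul, eval_var, eval_ofNat, eval_one, Sum.elim_inr, h1, h3, h4,
    h11, g1, g2, g3, g4, oscode_cons, ocode]
  ring

/-- The value after a push is small. -/
theorem push_lt {x : List α} {A K₀ D h d : ℕ} {o : Ob M} {os : List (Ob M)}
    (hs : Sm M x A K₀ D h d o os) (hK : 1 ≤ K₀) {ob : Ob M} (hg : Good M D x.length d ob) :
    oscode M D x.length d (ob :: os) < A := by
  refine (oscode_cons_lt hg os).trans_le (le_trans ?_ hs.big)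
  have h1 := one_le_nB (M := M) D x.length d
  calc nB M D x.length d * (oscode M D x.length d os + 1)
      = 1 * (nB M D x.length d * 1 * (oscode M D x.length d os + 1)) := by ring
    _ ≤ K₀ * (nB M D x.length d * nB M D x.length d * (oscode M D x.length d os + 1)) :=
        Nat.mul_le_mul hK (Nat.mul_le_mul_right _ (Nat.mul_le_mul_left _ h1))
    _ = K₀ * (nB M D x.length d ^ 2 * (oscode M D x.length d os + 1)) := by ring

/-- The value after two pushes is small. -/
theorem push_lt2 {x : List α} {A K₀ D h d : ℕ} {o : Ob M} {os : List (Ob M)}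
    (hs : Sm M x A K₀ D h d o os) (hK : 1 ≤ K₀) {ob ob' : Ob M} (hg : Good M D x.length d ob)
    (hg' : Good M D x.length d ob') : oscode M D x.length d (ob :: ob' :: os) < A := by
  refine (oscode_cons_lt hg _).trans_le (le_trans ?_ hs.big)
  have h1 := one_le_nB (M := M) D x.length d
  have h2 := oscode_cons_lt hg' os
  calc nB M D x.length d * (oscode M D x.length d (ob' :: os) + 1)
      ≤ nB M D x.length d * (nB M D x.length d * (oscode M D x.length d os + 1)) :=
        Nat.mul_le_mul_left _ h2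
    _ = 1 * (nB M D x.length d ^ 2 * (oscode M D x.length d os + 1)) := by ring
    _ ≤ K₀ * (nB M D x.length d ^ 2 * (oscode M D x.length d os + 1)) := Nat.mul_le_mul_right _ hK

/-- Constants and multiples of the length are small. -/
theorem mul_lt_of_sm {x : List α} {A K₀ D h d : ℕ} {o : Ob M} {os : List (Ob M)}
    (hs : Sm M x A K₀ D h d o os) : K₀ * (x.length + 2) ≤ A ∧ K₀ * (d + 1) ≤ A ∧ K₀ ≤ A := by
  have h1 := card_Fp_pos (M := M) D
  have h2 : x.length + 2 ≤ nB M D x.length d := by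
    unfold nB
    calc x.length + 2 = 1 * (x.length + 2) ^ 1 * 1 := by ring
      _ ≤ Nat.card (Fp M D) * (x.length + 2) ^ 2 * (d + 1) :=
          Nat.mul_le_mul (Nat.mul_le_mul h1 (Nat.pow_le_pow_right (by omega) (by omega))) (by omega)
      _ ≤ _ := Nat.le_succ _
  have h3 : d + 1 ≤ nB M D x.length d := by
    unfold nB
    calc d + 1 = 1 * 1 * (d + 1) := by ring
      _ ≤ Nat.card (Fp M D) * (x.length + 2) ^ 2 * (d + 1) :=
          Nat.mul_le_mul_right _ (Nat.mul_le_mul h1 (Nat.one_le_pow _ _ (by omega)))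
      _ ≤ _ := Nat.le_succ _
  have h4 := one_le_nB (M := M) D x.length d
  have h5 : nB M D x.length d ≤
      nB M D x.length d ^ 2 * (oscode M D x.length d os + 1) := by
    calc nB M D x.length d = nB M D x.length d * 1 * 1 := by ring
      _ ≤ nB M D x.length d * nB M D x.length d * (oscode M D x.length d os + 1) :=
          Nat.mul_le_mul (Nat.mul_le_mul_left _ h4) (by omega)
      _ = _ := by ring
  refine ⟨(Nat.mul_le_mul_left K₀ (h2.trans h5)).trans hs.big,
    (Nat.mul_le_mul_left K₀ (h3.trans h5)).trans hs.big, ?_⟩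
  calc K₀ = K₀ * 1 := (Nat.mul_one _).symm
    _ ≤ _ := Nat.mul_le_mul_left K₀ (h4.trans h5)
    _ ≤ A := hs.big

end

end RN

end Pool.Agent.Lib.MP_9277c3_lc
end

section
/-!
# The rules which remove an obligation
-/
set_option autoImplicit false

namespace Pool.Agent.Lib.MP_9277c3_lc

namespace RN

open CM NC RC

namespace Close

section

variable {α S : Type} (M : NPDA α)

theorem upd_r (a : S → ℕ) (o : RP → ℕ) (r : RP) (v : ℕ) :
    upd (Sum.elim a o) (Sum.inr r) v = Sum.elim a (upd o r v) := by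
  funext b
  cases b with
  | inl b => simp [upd]
  | inr b =>
    by_cases h : b = r
    · subst h
      simp
    · rw [upd_ne (by simpa using h)]
      simp [upd_ne h]

/-- The obligation may be removed. -/
def okC (x : List α) (o : Ob M) : Prop :=
  (o.1.2.2 = [] ∧ o.2.1 = some (o.1.1, o.1.2.1)) ∨
    (o.2.1 = none ∧ M.accepting o.1.1 (cell x o.1.2.1))

theorem ruleC_iff (x : List α) (o : Ob M) (new : List (Ob M)) :
    RuleC M x o new ↔ new = [] ∧ okC M x o := by
  constructor
  · intro h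
    cases h with
    | fin q i k => exact ⟨rfl, Or.inl ⟨rfl, rfl⟩⟩
    | acc q i β k ha => exact ⟨rfl, Or.inr ⟨rfl, ha⟩⟩
  · rintro ⟨rfl, h⟩
    obtain ⟨⟨q, i, β⟩, t, k⟩ := o
    rcases h with ⟨h1, h2⟩ | ⟨h1, h2⟩
    · simp only at h1 h2
      subst h1 h2
      exact RuleC.fin _ _ _
    · simp only at h1 h2
      subst h1
      exact RuleC.acc _ _ _ _ h2

variable [Finite α]

/-- A register of the main loop. -/
abbrev rp (r : RP) : Exp (S ⊕ RP) := Exp.var (Sum.inr r)

open Classical in
/-- The value of `go`. -/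
noncomputable def goE (D : ℕ) : Exp (S ⊕ RP) :=
  tabE (fun p : Fp M D × Cell α => if p.1.2.2 = none ∧ M.accepting p.1.1 p.2 then 1 else 0)
    (pairE (Fp M D) (Cell α) (rp .ph) (Exp.inp (rp .i1))) +
  tabE (fun p : Fp M D => if p.2.1.1 = [] ∧ p.2.2 = some p.1 then 1 else 0) (rp .ph) *
    (1 - ((rp .i1 - rp .i2) + (rp .i2 - rp .i1)))

/-- The program. -/
noncomputable def prog (D : ℕ) : NStmt (S ⊕ RP) Empty :=
  sqN [asg (Sum.inr .go) (goE M D), asg (Sum.inr .ph) 0, asg (Sum.inr .i1) 0,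
    asg (Sum.inr .i2) 0, asg (Sum.inr .kk) 0]

open Classical in
theorem eval_goE (x : List α) (D h d C : ℕ) (s : St M) (o : Ob M)
    (hg : Good M D x.length d o) :
    (goE M D).eval x cod (obA M S D x.length h d C s o) = if okC M x o then 1 else 0 := by
  obtain ⟨⟨q, i, β⟩, t, k⟩ := o
  have hlen : β.length ≤ D := hg.len
  have e1 : (rp .ph : Exp (S ⊕ RP)).eval x cod (obA M S D x.length h d C s ((q, i, β), t, k)) =
      cod ((q, ⟨β, hlen⟩, t.map Prod.fst) : Fp M D) := by
    simp only [eval_var, obA, Sum.elim_inr, obO, fp, mkl, dif_pos hlen]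
  have e2 : (Exp.inp (rp .i1) : Exp (S ⊕ RP)).eval x cod
      (obA M S D x.length h d C s ((q, i, β), t, k)) = cod (cell x i) := by
    simp only [Exp.eval, obA, Sum.elim_inr, obO]
  have e3 : (rp .i1 : Exp (S ⊕ RP)).eval x cod (obA M S D x.length h d C s ((q, i, β), t, k)) =
      i := by
    simp only [eval_var, obA, Sum.elim_inr, obO]
  have e4 : (rp .i2 : Exp (S ⊕ RP)).eval x cod (obA M S D x.length h d C s ((q, i, β), t, k)) =
      tp M ((q, i, β), t, k) := by
    simp only [eval_var, obA, Sum.elim_inr, obO]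
  simp only [goE, eval_add, eval_mul, eval_sub, eval_one, e3, e4, eval_tabE _ e1,
    eval_tabE _ (eval_pairE e1 e2)]
  cases t with
  | none =>
    simp [okC]
  | some p =>
    obtain ⟨q', j⟩ := p
    simp only [Option.map_some, tp, okC, reduceCtorEq, false_and, if_false, Nat.zero_add,
      Option.some.injEq, Prod.mk.injEq, or_false]
    by_cases h1 : β = [] ∧ q' = q
    · rw [if_pos h1]
      by_cases h2 : j = i
      · subst h2
        simp [h1]
      · rw [if_neg (fun h3 => h2 h3.2.2)]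
        omega
    · rw [if_neg h1, if_neg (fun h3 => h1 ⟨h3.1, h3.2.1⟩), Nat.zero_mul]

open Classical in
theorem run_prog {x : List α} {A D h d C k : ℕ} {body : Empty → NStmt (S ⊕ RP) Empty}
    {c : M.Cfg} {ac : Bool} {o : Ob M} {os : List (Ob M)} (hA : 1 < A)
    (hg : Good M D x.length d o) (u : ℕ → Bool) :
    RunN x cod A body k (prog M D) (obA M S D x.length h d C (c, ac, os) o) u
      (stA M S D x.length h d C (c, ac, os) (if okC M x o then 1 else 0) 0) u := by
  refine RunN.set (if okC M x o then 1 else 0) (eval_goE M x D h d C _ o hg)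
    (by split_ifs <;> omega) (RunN.set 0 rfl (by omega) (RunN.set 0 rfl (by omega)
    (RunN.set 0 rfl (by omega) (RunN.set 0 rfl (by omega) ((RunN.nil).cast ?_)))))
  simp only [obA, stA, upd_r]
  congr 1
  funext a
  cases a <;> simp [obO, stO, upd]

end

end Close

section

variable {α : Type} [Finite α] (M : NPDA α)

theorem closeSpec (D : ℕ) : PartSpec M D (RuleC M) := by
  classical
  intro _
  refine ⟨2, fun S => ⟨Close.prog M D, fun x A k body h d C c ac o os hs => ?_⟩⟩
  have hA : 1 < A := by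
    have h1 := hs.big
    have h2 : 1 ≤ nB M D x.length d ^ 2 * (oscode M D x.length d os + 1) :=
      Nat.mul_pos (pow_pos (Nat.succ_pos _) _) (Nat.succ_pos _)
    omega
  refine ⟨fun u => ?_, fun new hn v => ?_⟩
  · by_cases hk : Close.okC M x o
    · refine ⟨u, Or.inr ⟨[], (Close.ruleC_iff M x o _).2 ⟨rfl, hk⟩, ?_⟩⟩
      have := Close.run_prog M (S := S) (h := h) (C := C) (k := k) (body := body) (c := c)
        (ac := ac) (os := os) hA hs.good u
      rwa [if_pos hk] at this
    · refine ⟨u, Or.inl ⟨os, ?_⟩⟩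
      have := Close.run_prog M (S := S) (h := h) (C := C) (k := k) (body := body) (c := c)
        (ac := ac) (os := os) hA hs.good u
      rwa [if_neg hk] at this
  · obtain ⟨rfl, hk⟩ := (Close.ruleC_iff M x o _).1 hn
    have := Close.run_prog M (S := S) (h := h) (C := C) (k := k) (body := body) (c := c)
      (ac := ac) (os := os) hA hs.good v
    rw [if_pos hk] at this
    exact ⟨v, this⟩

end

end RN

end Pool.Agent.Lib.MP_9277c3_lc
end

section
/-!
# The steps with a high stack: an obligation is pushed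
-/
set_option autoImplicit false

namespace Pool.Agent.Lib.MP_9277c3_lc

namespace RN

open CM NC RC

namespace High

section

variable {α S : Type} [Finite α] (M : NPDA α)

/-- The program. -/
noncomputable def prog (D K : ℕ) : NStmt (S ⊕ RP) Empty :=
  sqN [asg (Sum.inr .X) (vP .Z % Exp.lit (Nat.card M.Stack + 1) - 1),
    gk (Sum.inr .dd) (Sum.inr .fl) K,
    asg (Sum.inr .dd) (vP .dd % Exp.lit (Nat.card (Option M.State))),
    asg (Sum.inr .t') (vP .n + 2),
    guess (Sum.inr .j) (Sum.inr .t') (Sum.inr .t) (Sum.inr .fl),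
    asg (Sum.inr .ph) (tabE (fun p : (M.State × M.Stack) × Option M.State =>
      cod ((p.1.1, mkl M D [p.1.2], p.2) : Fp M D))
      (pairE (M.State × M.Stack) (Option M.State) (pairE M.State M.Stack (vP .q) (vP .X))
        (vP .dd))),
    asg (Sum.inr .i1) (vP .i),
    asg (Sum.inr .t) (tabE (fun d : Option M.State => if d.isSome then 1 else 0) (vP .dd)),
    asg (Sum.inr .i2) (vP .j * vP .t),
    asg (Sum.inr .kk) (vP .d),
    asg (Sum.inr .Y) pushE,
    Stmt.ite (Sum.inr .t)
      (sqN [asg (Sum.inr .q) (tabE (fun d : Option M.State => cod (d.getD default)) (vP .dd)),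
        asg (Sum.inr .i) (vP .j), asg (Sum.inr .Z) (vP .Z / Exp.lit (Nat.card M.Stack + 1)),
        asg (Sum.inr .H) (vP .H - 1)])
      (asg (Sum.inr .ac) 1),
    clrP]

/-- The obligation. -/
def obl (d : ℕ) (q : M.State) (i : ℕ) (X : M.Stack) (t : Option M.State) (J : ℕ) : Ob M :=
  ((q, i, [X]), t.map fun q' => (q', J), d)

/-- The registers before the test. -/
noncomputable def midO (D n h d C : ℕ) (q : M.State) (i : ℕ) (X : M.Stack) (γ : List M.Stack)
    (t : Option M.State) (J : ℕ) : RP → ℕ :=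
  upd (upd (upd (upd (upd (upd (upd (upd (upd (upd (stO M D n h d C ((q, i, X :: γ), false, []) 1 0)
    .X (cod X)) .dd (cod t)) .t' (n + 2)) .j J) .ph (cod (fp M D (obl M d q i X t J)))) .i1 i)
    .t (if t.isSome then 1 else 0)) .i2 (tp M (obl M d q i X t J))) .kk d)
    .Y (oscode M D n d [obl M d q i X t J])

variable {M} {x : List α} {A k : ℕ} {body : Empty → NStmt (S ⊕ RP) Empty}

theorem good_obl {D : ℕ} (hD : 1 ≤ D) {n d : ℕ} {q : M.State} {i : ℕ} (hi : i ≤ n + 1)
    {X : M.Stack} {t : Option M.State} {J : ℕ} (hJ : J < n + 2) :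
    Good M D n d (obl M d q i X t J) where
  pos := hi
  len := hD
  tgt := by
    intro q' j h
    cases t with
    | none => simp [obl] at h
    | some p =>
      simp only [obl, Option.map_some, Option.some.injEq, Prod.mk.injEq] at h
      omega
  rk := le_rfl

/-- The registers of the state in `midO`. -/
theorem fp_obl {D d : ℕ} {q : M.State} {i : ℕ} {X : M.Stack} {t : Option M.State} {J : ℕ} :
    fp M D (obl M d q i X t J) = (q, mkl M D [X], t) := by
  cases t <;> rfl

theorem tp_obl {d : ℕ} {q : M.State} {i : ℕ} {X : M.Stack} {t : Option M.State} {J : ℕ} :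
    tp M (obl M d q i X t J) = J * (if t.isSome then 1 else 0) := by
  cases t <;> simp [obl, tp]

theorem run_pre {K D : ℕ} (hD : 1 ≤ D) {h d C : ℕ} {q : M.State} {i : ℕ} {X : M.Stack}
    {γ : List M.Stack} (hi : i ≤ x.length + 1) (hB : RC.High.Bd M x A K X γ)
    (hA : nB M D x.length d ≤ A) {u v : ℕ → Bool} {s : S ⊕ RP → ℕ} {t : Option M.State} {J : ℕ}
    (ht : gb K u % Nat.card (Option M.State) = cod t)
    (hJ : gval (x.length + 2) (sh K u) = J)
    (hl : RunN x cod A body k (sqN [Stmt.ite (Sum.inr .t)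
      (sqN [asg (Sum.inr .q) (tabE (fun d : Option M.State => cod (d.getD default)) (vP .dd)),
        asg (Sum.inr .i) (vP .j), asg (Sum.inr .Z) (vP .Z / Exp.lit (Nat.card M.Stack + 1)),
        asg (Sum.inr .H) (vP .H - 1)])
      (asg (Sum.inr .ac) 1), clrP]) (Sum.elim (fun _ => 0) (midO M D x.length h d C q i X γ t J))
      (grest (x.length + 2) (sh K u)) s v) :
    RunN x cod A body k (prog M D K)
      (stA M S D x.length h d C ((q, i, X :: γ), false, []) 1 0) u s v := by
  have hA' := hB.hK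
  have hX := cod_lt X
  have hgb := gb_lt K u
  have hn' := hB.hn'
  have hJ2 : J < x.length + 2 := hJ ▸ gval_lt (show 0 < x.length + 2 by omega) (sh K u)
  have hgood := good_obl (M := M) hD (d := d) (q := q) hi (X := X) (t := t) hJ2
  have hoc := ocode_lt hgood
  have hos : oscode M D x.length d [obl M d q i X t J] < nB M D x.length d := by
    rw [oscode_cons]
    simpa [oscode] using hoc
  have hfp := cod_lt (fp M D (obl M d q i X t J))
  have hfpA : Nat.card (Fp M D) < A := by
    refine lt_of_lt_of_le ?_ hA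
    unfold nB
    have h1 : Nat.card (Fp M D) * 1 * 1 ≤
        Nat.card (Fp M D) * (x.length + 2) ^ 2 * (d + 1) :=
      Nat.mul_le_mul (Nat.mul_le_mul_left _ (Nat.one_le_pow _ _ (by omega))) (by omega)
    omega
  have hdA : d < A := by
    refine lt_of_lt_of_le ?_ hA
    unfold nB
    have h1 : 1 * 1 * (d + 1) ≤
        Nat.card (Fp M D) * (x.length + 2) ^ 2 * (d + 1) :=
      Nat.mul_le_mul_right _ (Nat.mul_le_mul (card_Fp_pos D) (Nat.one_le_pow _ _ (by omega)))
    omega
  have htp := tp_le hgood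
  refine setP (cod X) ?_ ?_ ?_
  · simp only [eval_sub, eval_mod, eval_var, eval_one, Sum.elim_inr, stO]
    exact RC.High.scode_mod M X γ
  · have h1 := hB.hZ
    rw [RC.High.scode_cons] at h1
    omega
  refine RunN.cons (run_gk (by simp) (by simp [upd, stO]) hA' k u) ?_
  rw [upd_inrP]
  refine setP (cod t) ?_ ?_ ?_
  · simp only [eval_mod, eval_var, Sum.elim_inr, upd_self]
    exact ht
  · rw [← ht]
    exact (Nat.mod_le _ _).trans_lt (hgb.trans_le hA')
  refine setP (x.length + 2) ?_ hB.hn' ?_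
  · simp only [eval_add, eval_ofNat, eval_var, Sum.elim_inr]
    simp [stO]
  refine RunN.cons (run_guess (by simp) (by simp) (by simp) (by simp) (by simp) (by simp)
    (by simp [stO]) (by simp [stO]) ?_ ?_ k (sh K u)) ?_
  · simpa using hB.hn
  · simp
  have e1 : ∀ o : RP → ℕ, Sum.elim (fun _ : S => 0) (upd o RP.t' (x.length + 2)) (Sum.inr RP.t') =
      x.length + 2 := fun o => by simp
  rw [e1, upd_inrP, hJ]
  refine setP (cod (fp M D (obl M d q i X t J))) ?_ (by omega) ?_
  · rw [eval_tabE (t := (((q, X), t) : (M.State × M.Stack) × Option M.State)) _ ?_]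
    · rw [fp_obl]
    · refine eval_pairE (eval_pairE ?_ ?_) ?_ <;>
        simp only [eval_var, Sum.elim_inr] <;> simp [stO]
  refine setP i ?_ (by omega) ?_
  · simp only [eval_var, Sum.elim_inr]
    simp [stO]
  refine setP (if t.isSome then 1 else 0) ?_ ?_ ?_
  · rw [eval_tabE (t := t) _ ?_]
    simp only [eval_var, Sum.elim_inr]
    simp
  · split_ifs <;> omega
  refine setP (tp M (obl M d q i X t J)) ?_ (by omega) ?_
  · rw [tp_obl]
    simp only [eval_mul, eval_var, Sum.elim_inr]
    simp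
  refine setP d ?_ hdA ?_
  · simp only [eval_var, Sum.elim_inr]
    simp [stO]
  refine setP (oscode M D x.length d [obl M d q i X t J]) ?_ (hos.trans_le hA) ?_
  · refine eval_pushE (h := h) (C := C) (s := ((q, i, X :: γ), false, [])) (go := 1) (res := 0)
      _ ?_ ?_
    · refine ⟨?_, ?_, ?_, ?_, ?_, ?_, ?_, ?_, ?_, ?_, ?_, ?_, ?_⟩ <;> simp [stO, upd]
    · refine ⟨?_, ?_, ?_, ?_⟩ <;> simp [upd, obl]
  refine hl.congr_left ?_
  simp only [midO, upd_upd]

/-- The run is finished by the obligation. -/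
theorem run_post_none {D : ℕ} {h d C : ℕ} {q : M.State} {i : ℕ} {X : M.Stack} {γ : List M.Stack}
    {J : ℕ} (hA : 2 < A) (u : ℕ → Bool) :
    RunN x cod A body k (sqN [Stmt.ite (Sum.inr .t)
      (sqN [asg (Sum.inr .q) (tabE (fun d : Option M.State => cod (d.getD default)) (vP .dd)),
        asg (Sum.inr .i) (vP .j), asg (Sum.inr .Z) (vP .Z / Exp.lit (Nat.card M.Stack + 1)),
        asg (Sum.inr .H) (vP .H - 1)])
      (asg (Sum.inr .ac) 1), clrP])
      (Sum.elim (fun _ => 0) (midO M D x.length h d C q i X γ none J)) u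
      (stA M S D x.length h d C ((q, i, X :: γ), true, [((q, i, [X]), none, d)]) 1 0) u := by
  refine RunN.cons (t := Sum.elim (fun _ => 0)
    (upd (midO M D x.length h d C q i X γ none J) .ac 1)) (v := u) ?_ ?_
  · refine RunN.iteF _ _ _ _ _ _ _ _ ?_ (RunN.asg _ _ _ _ _ ?_) |>.cast (upd_inrP _ _ _ _)
    · simp [midO, upd]
    · simp only [Exp.eval]
      show 1 < A
      omega
  · refine run_clrP' (by omega) ?_ u
    refine ⟨?_, ?_, ?_, ?_, ?_, ?_, ?_, ?_, ?_, ?_, ?_, ?_, ?_⟩ <;> simp [midO, stO, upd, obl]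

/-- The topmost symbol is removed. -/
theorem run_post_some {K D : ℕ} {h d C : ℕ} {q q' : M.State} {i : ℕ} {X : M.Stack}
    {γ : List M.Stack} {J : ℕ} (hB : RC.High.Bd M x A K X γ) (hJ : J < x.length + 2)
    (u : ℕ → Bool) :
    RunN x cod A body k (sqN [Stmt.ite (Sum.inr .t)
      (sqN [asg (Sum.inr .q) (tabE (fun d : Option M.State => cod (d.getD default)) (vP .dd)),
        asg (Sum.inr .i) (vP .j), asg (Sum.inr .Z) (vP .Z / Exp.lit (Nat.card M.Stack + 1)),
        asg (Sum.inr .H) (vP .H - 1)])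
      (asg (Sum.inr .ac) 1), clrP])
      (Sum.elim (fun _ => 0) (midO M D x.length h d C q i X γ (some q') J)) u
      (stA M S D x.length h d C ((q', J, γ), false, [((q, i, [X]), some (q', J), d)]) 1 0) u := by
  have h1 := hB.hn'
  have h2 := hB.hZ
  have h3 := hB.hH
  have h4 := cod_lt q'
  have h5 := hB.hQ
  rw [RC.High.scode_cons] at h2
  have h6 : scode M γ ≤ (Nat.card M.Stack + 1) * scode M γ := Nat.le_mul_of_pos_left _ (by omega)
  refine RunN.cons (t := Sum.elim (fun _ => 0)
    (upd (upd (upd (upd (midO M D x.length h d C q i X γ (some q') J) .q (cod q')) .i J)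
      .Z (scode M γ)) .H γ.length)) (v := u) ?_ ?_
  · refine RunN.iteT _ _ _ _ _ _ _ _ ?_ ?_
    · simp [midO, upd]
    refine setP (cod q') ?_ (by omega) (setP J ?_ (by omega) (setP (scode M γ) ?_ (by omega)
      (setP γ.length ?_ (by omega) RunN.nil)))
    · rw [eval_tabE (t := some q') _ (by
        simp only [eval_var, Sum.elim_inr]
        simp [midO, upd])]
      simp
    · simp only [eval_var, Sum.elim_inr]
      simp [midO, upd]
    · simp only [eval_var, eval_div, Sum.elim_inr]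
      have e : (upd (upd (midO M D x.length h d C q i X γ (some q') J) RP.q (cod q')) RP.i J)
          RP.Z = scode M (X :: γ) := by
        simp [midO, stO, upd]
      rw [e]
      exact RC.High.scode_div M X γ
    · simp only [eval_var, eval_sub, eval_one, Sum.elim_inr]
      simp [midO, stO, upd]
  · refine run_clrP' (by omega) ?_ u
    refine ⟨?_, ?_, ?_, ?_, ?_, ?_, ?_, ?_, ?_, ?_, ?_, ?_, ?_⟩ <;> simp [midO, stO, upd, obl]

end

end High

/-- The program for high steps. -/
theorem highSpecR {α : Type} [Finite α] (M : NPDA α) (D : ℕ) : HighSpecR M D := by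
  intro hD
  obtain ⟨K, hK⟩ : ∃ K, Nat.card (Option M.State) ≤ 2 ^ K :=
    ⟨_, Nat.lt_two_pow_self.le⟩
  refine ⟨2 ^ K + Nat.card M.State + 4, fun S => ⟨High.prog M D K, fun x A k body => ?_⟩⟩
  have hone : ∀ d : ℕ, (2 ^ K + Nat.card M.State + 4) * nB M D x.length d ≤ A →
      nB M D x.length d ≤ A := fun d h => (Nat.le_mul_of_pos_left _ (by omega)).trans h
  refine ⟨?_, ?_, ?_⟩
  · intro h d C q i X γ hbig hnB u
    have hB := RC.High.bd_of_big hK hbig
    have hc : 0 < Nat.card (Option M.State) := Nat.card_pos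
    have hDn : gb K u % Nat.card (Option M.State) < Nat.card (Option M.State) := Nat.mod_lt _ hc
    have hJ := gval_lt (show 0 < x.length + 2 by omega) (sh K u)
    have hn' := hB.hn'
    have hdc : gb K u % Nat.card (Option M.State) =
        cod (dcd (gb K u % Nat.card (Option M.State)) : Option M.State) := (cod_dcd hDn).symm
    refine ⟨grest (x.length + 2) (sh K u), Or.inr ?_⟩
    cases hd : (dcd (gb K u % Nat.card (Option M.State)) : Option M.State) with
    | none =>
      rw [hd] at hdc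
      exact Or.inl (High.run_pre hD hbig.1 hB (hone d hnB) hdc rfl
        (High.run_post_none (by omega) _))
    | some q' =>
      rw [hd] at hdc
      exact Or.inr ⟨q', gval (x.length + 2) (sh K u), by omega,
        High.run_pre hD hbig.1 hB (hone d hnB) hdc rfl (High.run_post_some hB hJ _)⟩
  · intro h d C q i X γ hbig hnB v
    have hB := RC.High.bd_of_big hK hbig
    have hn' := hB.hn'
    obtain ⟨u₁, g1, g2⟩ := guess_surj (show 0 < x.length + 2 by omega) v
    have hd := cod_lt (none : Option M.State)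
    obtain ⟨u₀, g3, g4⟩ := gb_surj K (cod (none : Option M.State)) (by omega) u₁
    refine ⟨u₀, ?_⟩
    refine High.run_pre (t := none) (J := 0) hD hbig.1 hB (hone d hnB) ?_ ?_ ?_
    · rw [g3, Nat.mod_eq_of_lt hd]
    · rw [g4, g1]
    · rw [g4, g2]
      exact High.run_post_none (by omega) v
  · intro h d C q i X γ hbig hnB q' j hj v
    have hB := RC.High.bd_of_big hK hbig
    have hn' := hB.hn'
    obtain ⟨u₁, g1, g2⟩ := guess_surj (show j < x.length + 2 by omega) v
    have hd := cod_lt (some q')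
    obtain ⟨u₀, g3, g4⟩ := gb_surj K (cod (some q')) (by omega) u₁
    refine ⟨u₀, ?_⟩
    refine High.run_pre (t := some q') (J := j) hD hbig.1 hB (hone d hnB) ?_ ?_ ?_
    · rw [g3, Nat.mod_eq_of_lt hd]
    · rw [g4, g1]
    · rw [g4, g2]
      exact High.run_post_some hB (by omega) v

end RN

end Pool.Agent.Lib.MP_9277c3_lc
end

section
/-!
# The main loop

One round of the loop is one step of the abstract machine.
-/
set_option autoImplicit false

namespace Pool.Agent.Lib.MP_9277c3_lc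

namespace RN

open CM NC RC Relation

section

variable {α S : Type} [Finite α] (M : NPDA α)

open Classical in
/-- Does the machine accept if there is no obligation? -/
noncomputable def accEP (S : Type) : Exp (S ⊕ RP) :=
  vP .ac + tabE (fun p : M.State × Cell α => if M.accepting p.1 p.2 then 1 else 0)
    (pairE M.State (Cell α) (vP .q) (Exp.inp (vP .i)))

/-- A round without obligations. -/
noncomputable def mainP (low high : NStmt (S ⊕ RP) Empty) : NStmt (S ⊕ RP) Empty :=
  sqN [asg (Sum.inr .t) (accEP M S),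
    Stmt.ite (Sum.inr .t)
      (sqN [asg (Sum.inr .t) 0, asg (Sum.inr .res) 1, asg (Sum.inr .go) 0])
      (Stmt.ite (Sum.inr .Z)
        (sqN [asg (Sum.inr .t) (vP .H - vP .h),
          Stmt.ite (Sum.inr .t) (sqN [asg (Sum.inr .t) 0, high]) low])
        (asg (Sum.inr .go) 0))]

/-- One round of the main loop. -/
noncomputable def roundP (low high rule : NStmt (S ⊕ RP) Empty) : NStmt (S ⊕ RP) Empty :=
  sqN [asg (Sum.inr .C) (vP .C - 1),
    Stmt.ite (Sum.inr .Y) rule (mainP M low high),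
    Stmt.ite (Sum.inr .C) Stmt.skip (asg (Sum.inr .go) 0)]

/-- The whole program. -/
noncomputable def loopP (low high rule : NStmt (S ⊕ RP) Empty) : NStmt (S ⊕ RP) Empty :=
  sqN [asg (Sum.inr .q) (Exp.lit (cod M.start)), asg (Sum.inr .i) 1,
    asg (Sum.inr .Z) (Exp.lit (cod M.bottom + 1)), asg (Sum.inr .H) 1, asg (Sum.inr .go) 1,
    Stmt.loop (Sum.inr .go) (roundP M low high rule)]

variable {M}

theorem stA_C (D n h d C C' : ℕ) (s : St M) (go res : ℕ) :
    upd (stA M S D n h d C s go res) (Sum.inr .C) C' = stA M S D n h d C' s go res := by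
  funext r
  by_cases hr : r = Sum.inr .C
  · subst hr
    simp [stA, stO]
  · rw [upd_ne hr]
    rcases r with r | r
    · rfl
    · cases r <;> simp_all [stA, stO]

theorem stA_go (D n h d C : ℕ) (s : St M) (go go' res : ℕ) :
    upd (stA M S D n h d C s go res) (Sum.inr .go) go' = stA M S D n h d C s go' res := by
  funext r
  by_cases hr : r = Sum.inr .go
  · subst hr
    simp [stA, stO]
  · rw [upd_ne hr]
    rcases r with r | r
    · rfl
    · cases r <;> simp_all [stA, stO]

theorem stA_res (D n h d C : ℕ) (s : St M) (go res res' : ℕ) :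
    upd (stA M S D n h d C s go res) (Sum.inr .res) res' = stA M S D n h d C s go res' := by
  funext r
  by_cases hr : r = Sum.inr .res
  · subst hr
    simp [stA, stO]
  · rw [upd_ne hr]
    rcases r with r | r
    · rfl
    · cases r <;> simp_all [stA, stO]

theorem stA_t (D n h d C : ℕ) (s : St M) (go res : ℕ) :
    upd (stA M S D n h d C s go res) (Sum.inr .t) 0 = stA M S D n h d C s go res := by
  funext r
  by_cases hr : r = Sum.inr .t
  · subst hr
    simp [stA, stO]
  · rw [upd_ne hr]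

variable {x : List α} {A k D h d C : ℕ} {body : Empty → NStmt (S ⊕ RP) Empty}
  {low high rule : NStmt (S ⊕ RP) Empty} {s s' : St M}

open Classical in
theorem eval_accEP (c : M.Cfg) (ac : Bool) (os : List (Ob M)) :
    (accEP M S).eval x cod (stA M S D x.length h d C (c, ac, os) 1 0) =
      ac.toNat + if M.accepting c.1 (cell x c.2.1) then 1 else 0 := by
  have h1 : (pairE M.State (Cell α) (vP .q : Exp (S ⊕ RP)) (Exp.inp (vP .i))).eval x cod
      (stA M S D x.length h d C (c, ac, os) 1 0) = cod (c.1, cell x c.2.1) :=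
    eval_pairE rfl rfl
  unfold accEP
  rw [eval_add, eval_tabE _ h1]
  rfl

/-- The last instruction of a round. -/
theorem run_last (hA : 2 ≤ A) (n go res : ℕ) (u : ℕ → Bool) :
    RunN x cod A body k (sqN [Stmt.ite (Sum.inr .C) Stmt.skip (asg (Sum.inr .go) 0)])
      (stA M S D n h d C s go res) u (stA M S D n h d C s (if C = 0 then 0 else go) res) u := by
  refine RunN.cons ?_ RunN.nil
  by_cases hC : C = 0
  · subst hC
    rw [if_pos rfl]
    refine RunN.iteF _ _ _ _ _ _ _ _ rfl ?_
    rw [← stA_go D n h d 0 s go 0 res]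
    exact RunN.asg _ _ _ _ _ (by simpa using by omega)
  · rw [if_neg hC]
    exact RunN.iteT _ _ _ _ _ _ _ _ hC (RunN.skip _ _ _)

/-- A round with obligations. -/
theorem round_rule (hA : 2 ≤ A) (hC : C < A) {c : M.Cfg} {ac : Bool} {o : Ob M}
    {os : List (Ob M)} {go res : ℕ} {u v : ℕ → Bool}
    (hr : RunN x cod A body k rule (stA M S D x.length h d C (c, ac, o :: os) 1 0) u
      (stA M S D x.length h d C s' go res) v) :
    RunN x cod A body k (roundP M low high rule)
      (stA M S D x.length h d (C + 1) (c, ac, o :: os) 1 0) u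
      (stA M S D x.length h d C s' (if C = 0 then 0 else go) res) v := by
  refine RunN.set C rfl hC ?_
  rw [stA_C]
  refine RunN.cons (RunN.iteT _ _ _ _ _ _ _ _ ?_ hr) (run_last hA _ go res v)
  show oscode M D x.length d (o :: os) ≠ 0
  rw [oscode_cons]
  omega

/-- A round without obligations. -/
theorem round_main (hA : 2 ≤ A) (hC : C < A) {c : M.Cfg} {ac : Bool} {go res : ℕ}
    {u v : ℕ → Bool}
    (hr : RunN x cod A body k (mainP M low high) (stA M S D x.length h d C (c, ac, []) 1 0) u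
      (stA M S D x.length h d C s' go res) v) :
    RunN x cod A body k (roundP M low high rule)
      (stA M S D x.length h d (C + 1) (c, ac, []) 1 0) u
      (stA M S D x.length h d C s' (if C = 0 then 0 else go) res) v := by
  refine RunN.set C rfl hC ?_
  rw [stA_C]
  exact RunN.cons (RunN.iteF _ _ _ _ _ _ _ _ rfl hr) (run_last hA _ go res v)

open Classical in
theorem main_acc (hA : 3 ≤ A) {c : M.Cfg} {ac : Bool}
    (ha : ac = true ∨ M.accepting c.1 (cell x c.2.1)) (u : ℕ → Bool) :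
    RunN x cod A body k (mainP M low high) (stA M S D x.length h d C (c, ac, []) 1 0) u
      (stA M S D x.length h d C (c, ac, []) 0 1) u := by
  have h1 : ac.toNat ≤ 1 := by cases ac <;> simp
  have h2 : ac.toNat + (if M.accepting c.1 (cell x c.2.1) then 1 else 0) ≤ 2 := by
    split_ifs <;> omega
  refine RunN.set _ (eval_accEP c ac []) (by omega) ?_
  refine RunN.cons (RunN.iteT _ _ _ _ _ _ _ _ ?_ (RunN.set 0 rfl (by omega)
    (RunN.set 1 rfl (by omega) (RunN.set 0 rfl (by omega) RunN.nil)))) ?_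
  · rw [upd_self]
    rcases ha with ha | ha
    · subst ha
      simp
    · rw [if_pos ha]
      omega
  rw [upd_upd, stA_t, stA_res, stA_go]
  exact RunN.nil

open Classical in
theorem main_pre (hA : 3 ≤ A) {c : M.Cfg}
    (ha : ¬M.accepting c.1 (cell x c.2.1)) {t : S ⊕ RP → ℕ} {u v : ℕ → Bool}
    (hr : RunN x cod A body k (Stmt.ite (Sum.inr .Z)
        (sqN [asg (Sum.inr .t) (vP .H - vP .h),
          Stmt.ite (Sum.inr .t) (sqN [asg (Sum.inr .t) 0, high]) low])
        (asg (Sum.inr .go) 0)) (stA M S D x.length h d C (c, false, []) 1 0) u t v) :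
    RunN x cod A body k (mainP M low high) (stA M S D x.length h d C (c, false, []) 1 0) u t v := by
  refine RunN.set 0 ?_ (by omega) ?_
  · rw [eval_accEP, if_neg ha]
    rfl
  rw [stA_t]
  exact RunN.cons (RunN.iteF _ _ _ _ _ _ _ _ rfl hr) RunN.nil

theorem main_nil (hA : 3 ≤ A) {q : M.State} {i : ℕ} (ha : ¬M.accepting q (cell x i))
    (u : ℕ → Bool) :
    RunN x cod A body k (mainP M low high)
      (stA M S D x.length h d C ((q, i, []), false, []) 1 0) u
      (stA M S D x.length h d C ((q, i, []), false, []) 0 0) u := by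
  refine main_pre hA ha (RunN.iteF _ _ _ _ _ _ _ _ rfl ?_)
  rw [← stA_go D x.length h d C ((q, i, []), false, []) 1 0 0]
  exact RunN.asg _ _ _ _ _ (by simpa using by omega)

theorem main_low (hA : 3 ≤ A) {q : M.State} {i : ℕ} {X : M.Stack} {γ : List M.Stack}
    (ha : ¬M.accepting q (cell x i)) (hl : (X :: γ).length ≤ h) {t : S ⊕ RP → ℕ}
    {u v : ℕ → Bool}
    (hr : RunN x cod A body k low
      (stA M S D x.length h d C ((q, i, X :: γ), false, []) 1 0) u t v) :
    RunN x cod A body k (mainP M low high)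
      (stA M S D x.length h d C ((q, i, X :: γ), false, []) 1 0) u t v := by
  refine main_pre hA ha (RunN.iteT _ _ _ _ _ _ _ _ ?_ (RunN.set 0 ?_ (by omega) ?_))
  · show scode M (X :: γ) ≠ 0
    simp [scode]
  · show (X :: γ).length - h = 0
    omega
  · rw [stA_t]
    exact RunN.cons (RunN.iteF _ _ _ _ _ _ _ _ rfl hr) RunN.nil

theorem main_high (hA : 3 ≤ A) {q : M.State} {i : ℕ} {X : M.Stack} {γ : List M.Stack}
    (ha : ¬M.accepting q (cell x i)) (hl : h < (X :: γ).length)
    (hlA : (X :: γ).length - h < A) {t : S ⊕ RP → ℕ} {u v : ℕ → Bool}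
    (hr : RunN x cod A body k high
      (stA M S D x.length h d C ((q, i, X :: γ), false, []) 1 0) u t v) :
    RunN x cod A body k (mainP M low high)
      (stA M S D x.length h d C ((q, i, X :: γ), false, []) 1 0) u t v := by
  refine main_pre hA ha (RunN.iteT _ _ _ _ _ _ _ _ ?_
    (RunN.set ((X :: γ).length - h) rfl hlA ?_))
  · show scode M (X :: γ) ≠ 0
    simp [scode]
  · refine RunN.cons (RunN.iteT _ _ _ _ _ _ _ _ ?_ (RunN.set 0 rfl (by omega) ?_)) RunN.nil
    · rw [upd_self]
      omega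
    · rw [upd_upd, stA_t]
      exact RunN.cons hr RunN.nil

/-- What a round does. -/
structure RoundOK (M : NPDA α) (S : Type) (x : List α) (A D h d : ℕ)
    (body : Empty → NStmt (S ⊕ RP) Empty) (k : ℕ) (P : NStmt (S ⊕ RP) Empty) : Prop where
  total : ∀ (C : ℕ) (s : St M), C < A → Inv M D x.length h d s → ∀ u : ℕ → Bool,
    ∃ (s' : St M) (go res : ℕ) (v : ℕ → Bool),
      RunN x cod A body k P (stA M S D x.length h d (C + 1) s 1 0) u
        (stA M S D x.length h d C s' (if C = 0 then 0 else go) res) v ∧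
      ((go = 0 ∧ res = 0) ∨ (go = 0 ∧ res = 1 ∧ Acc M x s) ∨
        (go = 1 ∧ res = 0 ∧ AS M x h d s s'))
  acc : ∀ (C : ℕ) (s : St M), C < A → Acc M x s → ∀ u : ℕ → Bool,
    RunN x cod A body k P (stA M S D x.length h d (C + 1) s 1 0) u
      (stA M S D x.length h d C s 0 1) u
  step : ∀ (C : ℕ) (s s' : St M), C < A → Inv M D x.length h d s → ¬Acc M x s →
    AS M x h d s s' → ∀ v : ℕ → Bool, ∃ u : ℕ → Bool,
    RunN x cod A body k P (stA M S D x.length h d (C + 1) s 1 0) u
      (stA M S D x.length h d C s' (if C = 0 then 0 else 1) 0) v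

/-! ### Sizes -/

theorem oscode_lt_pow {D n d : ℕ} : ∀ {os : List (Ob M)}, (∀ o ∈ os, Good M D n d o) →
    oscode M D n d os < nB M D n d ^ os.length := by
  intro os
  induction os with
  | nil =>
    intro _
    simp [oscode]
  | cons o os ih =>
    intro hg
    have h1 := oscode_cons_lt (hg o (List.mem_cons_self ..)) os
    have h2 := ih fun o' ho' => hg o' (List.mem_cons_of_mem _ ho')
    calc oscode M D n d (o :: os) < nB M D n d * (oscode M D n d os + 1) := h1
      _ ≤ nB M D n d * nB M D n d ^ os.length := Nat.mul_le_mul_left _ h2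
      _ = nB M D n d ^ (o :: os).length := by rw [List.length_cons, pow_succ']

theorem sorted_len {d : ℕ} : ∀ (os : List (Ob M)) (a : ℕ),
    (os.Pairwise fun o o' => rk M o < rk M o') → (∀ o ∈ os, a ≤ rk M o ∧ rk M o ≤ d) →
    a ≤ d + 1 → os.length + a ≤ d + 1 := by
  intro os
  induction os with
  | nil =>
    intro a _ _ ha
    simpa using ha
  | cons o os ih =>
    intro a hp hb _
    obtain ⟨h1, h2⟩ := List.pairwise_cons.1 hp
    have h3 := hb o (List.mem_cons_self ..)
    have h4 := ih (rk M o + 1) h2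
      (fun o' ho' => ⟨h1 o' ho', (hb o' (List.mem_cons_of_mem _ ho')).2⟩) (by omega)
    rw [List.length_cons]
    omega

/-- The hypotheses on the numbers. -/
structure LoopHyp (M : NPDA α) (x : List α) (A h d D K : ℕ) : Prop where
  three : 3 ≤ A
  big : ∀ c : M.Cfg, c.2.1 ≤ x.length + 1 → c.2.2.length ≤ h + D + 1 → Big M x A K c D
  base : K * nB M D x.length d ≤ A
  list : K * nB M D x.length d ^ (d + 2) ≤ A
  len : D + 1 < A
  pos : 1 ≤ D

omit [Finite α] in
theorem big_mono {K K' : ℕ} (hK : K ≤ K') {c : M.Cfg} (hb : Big M x A K' c D) :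
    Big M x A K c D := ⟨hb.1, (Nat.mul_le_mul_right _ hK).trans hb.2⟩

theorem sm_of_inv {K : ℕ} (hL : LoopHyp M x A h d D K) {c : M.Cfg} {ac : Bool} {o : Ob M}
    {os : List (Ob M)} (hI : Inv M D x.length h d (c, ac, o :: os)) :
    Sm M x A K D h d o os := by
  have hg := hI.good
  have h1 := sorted_len (d := d) (o :: os) 0 hI.sorted
    (fun o' ho' => ⟨Nat.zero_le _, (hg o' ho').rk⟩) (Nat.zero_le _)
  rw [List.length_cons] at h1
  have h2 : oscode M D x.length d os < nB M D x.length d ^ os.length :=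
    oscode_lt_pow fun o' ho' => hg o' (List.mem_cons_of_mem _ ho')
  have h3 : nB M D x.length d ^ os.length ≤ nB M D x.length d ^ d :=
    Nat.pow_le_pow_right (one_le_nB D x.length d) (by omega)
  refine ⟨hg o (List.mem_cons_self ..), le_trans (Nat.mul_le_mul_left K ?_) hL.list, hL.pos⟩
  calc nB M D x.length d ^ 2 * (oscode M D x.length d os + 1)
      ≤ nB M D x.length d ^ 2 * nB M D x.length d ^ d :=
        Nat.mul_le_mul_left _ (h2.trans_le h3)
    _ = nB M D x.length d ^ (d + 2) := by rw [← pow_add, Nat.add_comm]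

theorem sm_mono {K K' : ℕ} (hK : K ≤ K') {o : Ob M} {os : List (Ob M)}
    (hs : Sm M x A K' D h d o os) : Sm M x A K D h d o os :=
  ⟨hs.good, (Nat.mul_le_mul_right _ hK).trans hs.big, hs.pos⟩

open Classical in
theorem roundOK {K₁ K₂ K₃ K : ℕ} (h₁ : K₁ ≤ K) (h₂ : K₂ ≤ K) (h₃ : K₃ ≤ K)
    (hL : LoopHyp M x A h d D K) (hlow : LowR M x A K₁ D body k low)
    (hhigh : HighR M x A K₂ D body k high)
    (hrule : ∀ (h d C : ℕ) (c : M.Cfg) (ac : Bool) (o : Ob M) (os : List (Ob M)),
      Sm M x A K₃ D h d o os →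
      Does M x A D h d C body k rule (stA M S D x.length h d C (c, ac, o :: os) 1 0) c ac os
        (Rule M x o)) :
    RoundOK M S x A D h d body k (roundP M low high rule) := by
  have hA3 := hL.three
  have hA : 2 ≤ A := by omega
  refine ⟨?_, ?_, ?_⟩
  · intro C s hC hI u
    obtain ⟨c, ac, os⟩ := s
    cases os with
    | cons o os =>
      obtain ⟨v, ⟨os', hv⟩ | ⟨new, hn, hv⟩⟩ :=
        (hrule h d C c ac o os (sm_mono h₃ (sm_of_inv hL hI))).total u
      · exact ⟨_, 0, 0, v, round_rule hA hC hv, Or.inl ⟨rfl, rfl⟩⟩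
      · exact ⟨_, 1, 0, v, round_rule hA hC hv, Or.inr (Or.inr ⟨rfl, rfl,
          AS.rule c ac o os new hn⟩)⟩
    | nil =>
      by_cases ha : ac = true ∨ M.accepting c.1 (cell x c.2.1)
      · have h4 := round_main (rule := rule) hA hC
          (main_acc (C := C) (body := body) (k := k) (low := low) (high := high) (D := D)
            (h := h) (d := d) (S := S) hA3 ha u)
        rw [ite_self] at h4
        refine ⟨(c, ac, []), 0, 1, u, ?_, Or.inr (Or.inl ⟨rfl, rfl, rfl, ha⟩)⟩
        rw [ite_self]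
        exact h4
      · rw [not_or, Bool.not_eq_true] at ha
        obtain ⟨ha0, ha⟩ := ha
        subst ha0
        obtain ⟨q, i, σ⟩ := c
        cases σ with
        | nil =>
          exact ⟨_, 0, 0, u, round_main hA hC (main_nil hA3 ha u), Or.inl ⟨rfl, rfl⟩⟩
        | cons X γ =>
          have hb := hL.big (q, i, X :: γ) hI.pos hI.len
          by_cases hl : (X :: γ).length ≤ h
          · rcases Set.eq_empty_or_nonempty (M.next q (cell x i) X) with he | he
            · obtain ⟨v, hv⟩ := hlow.none h d C q i X γ (big_mono h₁ hb) he u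
              exact ⟨_, 0, 0, v, round_main hA hC (main_low hA3 ha hl hv), Or.inl ⟨rfl, rfl⟩⟩
            · obtain ⟨r, hr, v, hv⟩ := hlow.total h d C q i X γ (big_mono h₁ hb) he u
              exact ⟨_, 1, 0, v, round_main hA hC (main_low hA3 ha hl hv),
                Or.inr (Or.inr ⟨rfl, rfl, AS.low q i X γ r hl hr⟩)⟩
          · have hl' : h < (X :: γ).length := not_le.1 hl
            have h5 : (X :: γ).length ≤ h + D + 1 := hI.len
            have hlA : (X :: γ).length - h < A := by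
              have := hL.len
              omega
            obtain ⟨v, ⟨s', hv⟩ | hv | ⟨q', j, hj, hv⟩⟩ := hhigh.total h d C q i X γ
              (big_mono h₂ hb) ((Nat.mul_le_mul_right _ h₂).trans hL.base) u
            · exact ⟨_, 0, 0, v, round_main hA hC (main_high hA3 ha hl' hlA hv),
                Or.inl ⟨rfl, rfl⟩⟩
            · exact ⟨_, 1, 0, v, round_main hA hC (main_high hA3 ha hl' hlA hv),
                Or.inr (Or.inr ⟨rfl, rfl, AS.last q i X γ hl'⟩)⟩
            · exact ⟨_, 1, 0, v, round_main hA hC (main_high hA3 ha hl' hlA hv),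
                Or.inr (Or.inr ⟨rfl, rfl, AS.high q i X γ q' j hl' hj⟩)⟩
  · intro C s hC ha u
    obtain ⟨c, ac, os⟩ := s
    obtain ⟨h4, h5⟩ := ha
    change os = [] at h4
    subst h4
    have h6 := round_main (rule := rule) hA hC
      (main_acc (C := C) (body := body) (k := k) (low := low) (high := high) (D := D)
        (h := h) (d := d) (S := S) hA3 h5 u)
    rwa [ite_self] at h6
  · intro C s s' hC hI hn hs v
    cases hs with
    | low q i X γ r hl hr =>
      have ha : ¬M.accepting q (cell x i) := fun ha => hn ⟨rfl, Or.inr ha⟩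
      have hb := hL.big (q, i, X :: γ) hI.pos hI.len
      obtain ⟨u, hu⟩ := hlow.complete h d C q i X γ (big_mono h₁ hb) r hr v
      exact ⟨u, round_main hA hC (main_low hA3 ha hl hu)⟩
    | high q i X γ q' j hl hj =>
      have ha : ¬M.accepting q (cell x i) := fun ha => hn ⟨rfl, Or.inr ha⟩
      have hb := hL.big (q, i, X :: γ) hI.pos hI.len
      have h5 : (X :: γ).length ≤ h + D + 1 := hI.len
      have hlA : (X :: γ).length - h < A := by
        have := hL.len
        omega
      obtain ⟨u, hu⟩ := hhigh.pop h d C q i X γ (big_mono h₂ hb)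
        ((Nat.mul_le_mul_right _ h₂).trans hL.base) q' j hj v
      exact ⟨u, round_main hA hC (main_high hA3 ha hl hlA hu)⟩
    | last q i X γ hl =>
      have ha : ¬M.accepting q (cell x i) := fun ha => hn ⟨rfl, Or.inr ha⟩
      have hb := hL.big (q, i, X :: γ) hI.pos hI.len
      have h5 : (X :: γ).length ≤ h + D + 1 := hI.len
      have hlA : (X :: γ).length - h < A := by
        have := hL.len
        omega
      obtain ⟨u, hu⟩ := hhigh.last h d C q i X γ (big_mono h₂ hb)
        ((Nat.mul_le_mul_right _ h₂).trans hL.base) v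
      exact ⟨u, round_main hA hC (main_high hA3 ha hl hlA hu)⟩
    | rule c ac o os new hR =>
      obtain ⟨u, hu⟩ :=
        (hrule h d C c ac o os (sm_mono h₃ (sm_of_inv hL hI))).complete new hR v
      exact ⟨u, round_rule hA hC hu⟩

/-! ### The loop -/

variable {P : NStmt (S ⊕ RP) Empty}

theorem loop_sound (hR : RoundOK M S x A D h d body k P)
    (hI : ∀ s s', AS M x h d s s' → Inv M D x.length h d s → Inv M D x.length h d s') :
    ∀ (C : ℕ) (s : St M), C < A → Inv M D x.length h d s → ∀ u : ℕ → Bool,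
      ∃ (t : S ⊕ RP → ℕ) (v : ℕ → Bool),
        RunN x cod A body k (Stmt.loop (Sum.inr .go) P)
          (stA M S D x.length h d (C + 1) s 1 0) u t v ∧
        (t (Sum.inr .res) ≠ 0 → ∃ s', ReflTransGen (AS M x h d) s s' ∧ Acc M x s') := by
  have fin : ∀ (C : ℕ) (s s' : St M) (res : ℕ) (u v : ℕ → Bool),
      RunN x cod A body k P (stA M S D x.length h d (C + 1) s 1 0) u
        (stA M S D x.length h d C s' 0 res) v →
      RunN x cod A body k (Stmt.loop (Sum.inr .go) P)
          (stA M S D x.length h d (C + 1) s 1 0) u (stA M S D x.length h d C s' 0 res) v :=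
    fun C s s' res u v h1 => RunN.loopT _ _ _ _ _ _ _ _ _ (by simp [stA, stO]) h1
      (RunN.loopF _ _ _ _ _ rfl)
  intro C
  induction C with
  | zero =>
    intro s hC hs u
    obtain ⟨s', go, res, v, hv, h1⟩ := hR.total 0 s hC hs u
    rw [if_pos rfl] at hv
    refine ⟨_, _, fin _ _ _ res u v hv, fun h2 => ?_⟩
    change res ≠ 0 at h2
    rcases h1 with ⟨-, h3⟩ | ⟨-, -, h3⟩ | ⟨-, h3, -⟩
    · exact absurd h3 h2
    · exact ⟨s, ReflTransGen.refl, h3⟩
    · exact absurd h3 h2
  | succ C ih =>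
    intro s hC hs u
    obtain ⟨s', go, res, v, hv, h1⟩ := hR.total (C + 1) s hC hs u
    rw [if_neg (by omega)] at hv
    rcases h1 with ⟨rfl, rfl⟩ | ⟨rfl, rfl, h3⟩ | ⟨rfl, rfl, h3⟩
    · exact ⟨_, _, fin _ _ _ 0 u v hv, fun h2 => absurd rfl h2⟩
    · exact ⟨_, _, fin _ _ _ 1 u v hv, fun _ => ⟨s, ReflTransGen.refl, h3⟩⟩
    · obtain ⟨t, v', h4, h5⟩ := ih s' (by omega) (hI s s' h3 hs) v
      refine ⟨t, v', RunN.loopT _ _ _ _ _ _ _ _ _ (by simp [stA, stO]) hv h4, fun h6 => ?_⟩
      obtain ⟨s'', h7, h8⟩ := h5 h6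
      exact ⟨s'', ReflTransGen.head h3 h7, h8⟩

open Classical in
theorem loop_complete (hR : RoundOK M S x A D h d body k P) {T : ℕ} {f : ℕ → St M}
    (hf : ∀ m < T, AS M x h d (f m) (f (m + 1)))
    (hI : ∀ m ≤ T, Inv M D x.length h d (f m)) (hT : Acc M x (f T)) :
    ∀ (C m : ℕ), C < A → m ≤ T → T ≤ m + C →
      ∃ (u : ℕ → Bool) (t : S ⊕ RP → ℕ) (v : ℕ → Bool),
        RunN x cod A body k (Stmt.loop (Sum.inr .go) P)
          (stA M S D x.length h d (C + 1) (f m) 1 0) u t v ∧ t (Sum.inr .res) ≠ 0 := by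
  have fin : ∀ (C m : ℕ), C < A → Acc M x (f m) →
      ∃ (u : ℕ → Bool) (t : S ⊕ RP → ℕ) (v : ℕ → Bool),
        RunN x cod A body k (Stmt.loop (Sum.inr .go) P)
          (stA M S D x.length h d (C + 1) (f m) 1 0) u t v ∧ t (Sum.inr .res) ≠ 0 :=
    fun C m hC ha => ⟨fun _ => false, _, _, RunN.loopT _ _ _ _ _ _ _ _ _ (by simp [stA, stO])
      (hR.acc C (f m) hC ha _) (RunN.loopF _ _ _ _ _ rfl), by simp [stA, stO]⟩
  intro C
  induction C with
  | zero =>
    intro m hC h1 h2
    have h3 : m = T := by omega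
    subst h3
    exact fin 0 m hC hT
  | succ C ih =>
    intro m hC h1 h2
    by_cases ha : Acc M x (f m)
    · exact fin (C + 1) m hC ha
    have hm : m < T := by
      rcases Nat.lt_or_ge m T with hm | hm
      · exact hm
      · have h3 : m = T := by omega
        subst h3
        exact absurd hT ha
    obtain ⟨u, t, v, h3, h4⟩ := ih (m + 1) (by omega) hm (by omega)
    obtain ⟨u', hu'⟩ := hR.step (C + 1) (f m) (f (m + 1)) hC (hI m h1) ha (hf m hm) u
    rw [if_neg (by omega)] at hu'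
    exact ⟨u', t, v, RunN.loopT _ _ _ _ _ _ _ _ _ (by simp [stA, stO]) hu' h3, h4⟩

/-- The first instructions. -/
theorem run_loopP (hA : 3 ≤ A) (h1 : cod M.start < A) (h2 : cod M.bottom + 1 < A)
    {u v : ℕ → Bool} {t : S ⊕ RP → ℕ}
    (hr : RunN x cod A body k (Stmt.loop (Sum.inr .go) (roundP M low high rule))
      (stA M S D x.length h d C (ini M) 1 0) u t v) :
    RunN x cod A body k (loopP M low high rule)
      (Sum.elim (fun _ => 0) (iniP M D x.length h d C)) u t v := by
  refine RunN.set _ rfl h1 (RunN.set 1 rfl (by omega) (RunN.set _ rfl h2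
    (RunN.set 1 rfl (by omega) (RunN.set 1 rfl (by omega) (RunN.cons
    (hr.congr_left ?_) RunN.nil)))))
  funext r
  rcases r with r | r
  · simp [stA]
  · cases r <;> simp [stA, stO, iniP, ini, scode, Exp.eval, oscode]

end

/-- **The main loop.** -/
theorem loopSpec {α : Type} [Finite α] (M : NPDA α) (D : ℕ) : LoopSpecR M D := by
  intro hD hD1 hOb hCnt hlow hhigh hrule
  obtain ⟨K₁, hK₁⟩ := hlow hD
  obtain ⟨K₂, hK₂⟩ := hhigh hD1
  obtain ⟨K₃, hK₃⟩ := hrule hD
  set B := Nat.card M.Stack + 1 with hB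
  set K := K₁ + K₂ + K₃ with hK
  refine ⟨K * B ^ D + 2 * Nat.card M.State + D + B + 3, fun S res qry => ?_⟩
  obtain ⟨low, hlow⟩ := hK₁ S
  obtain ⟨high, hhigh⟩ := hK₂ S
  obtain ⟨rule, hrule⟩ := hK₃ S res qry
  refine ⟨loopP M low high rule, fun x A k body hq h d C hA hC => ?_⟩
  have hlow' := hlow x A k body
  have hhigh' := hhigh x A k body
  have hrule' := hrule x A k body hq
  set Q := SZ M D x.length h d with hQ
  have hB0 : 0 < B := by omega
  have hnB := one_le_nB (M := M) D x.length d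
  have hpow : 0 < B ^ (h + D + 1) := Nat.pow_pos hB0
  have hnp : 0 < nB M D x.length d ^ (d + 2) := Nat.pow_pos hnB
  have hQ1 : (x.length + 2) * B ^ (h + D + 1) ≤ Q := Nat.le_mul_of_pos_right _ hnp
  have hQ3 : nB M D x.length d ^ (d + 2) ≤ Q := by
    rw [hQ, SZ]
    exact Nat.le_mul_of_pos_left _ (Nat.mul_pos (by omega) hpow)
  have hQ2 : 2 ≤ Q := by
    refine le_trans ?_ hQ1
    calc 2 ≤ (x.length + 2) * 1 := by omega
      _ ≤ _ := Nat.mul_le_mul_left _ hpow
  have hS : 0 < Nat.card M.State := Nat.card_pos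
  have hA' : K * B ^ D * Q + 2 * Nat.card M.State * Q + D * Q + B * Q + 3 * Q ≤ A := by
    calc _ = (K * B ^ D + 2 * Nat.card M.State + D + B + 3) * Q := by ring
      _ ≤ A := hA
  have e1 : D ≤ D * Q := Nat.le_mul_of_pos_right _ (by omega)
  have e2 : 2 * Nat.card M.State ≤ 2 * Nat.card M.State * Q := Nat.le_mul_of_pos_right _ (by omega)
  have e3 : B ≤ B * Q := Nat.le_mul_of_pos_right _ (by omega)
  have hBD : 1 ≤ B ^ D := Nat.one_le_pow _ _ hB0
  have e4 : K * Q ≤ K * B ^ D * Q := Nat.mul_le_mul_right _ (Nat.le_mul_of_pos_right _ hBD)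
  have hL : LoopHyp M x A h d D K := by
    refine ⟨by omega, fun c h1 h2 => ⟨h1, le_trans ?_ (show K * B ^ D * Q ≤ A by omega)⟩,
      le_trans (Nat.mul_le_mul_left K ((Nat.le_self_pow (by omega) _).trans hQ3))
        (show K * Q ≤ A by omega),
      le_trans (Nat.mul_le_mul_left K hQ3) (show K * Q ≤ A by omega), by omega, hD1⟩
    rw [← hB]
    calc K * ((x.length + 2) * B ^ (c.2.2.length + D)) ≤
        K * ((x.length + 2) * B ^ (h + D + 1 + D)) :=
          Nat.mul_le_mul_left _ (Nat.mul_le_mul_left _ (Nat.pow_le_pow_right hB0 (by omega)))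
      _ = K * B ^ D * ((x.length + 2) * B ^ (h + D + 1)) := by
        rw [pow_add B (h + D + 1) D]
        ring
      _ ≤ K * B ^ D * Q := Nat.mul_le_mul_left _ hQ1
  have hs : cod M.start < A := (cod_lt M.start).trans_le (by omega)
  have hb : cod M.bottom + 1 < A := by
    have := cod_lt M.bottom
    omega
  have hRd := roundOK (by omega) (by omega) (by omega) hL hlow' hhigh' hrule'
  obtain ⟨hiff, hinv⟩ := hOb hD hD1 x h d
  obtain ⟨C', rfl⟩ : ∃ C', C = C' + 1 := ⟨C - 1, by
    have : 0 < 2 * Nat.card M.State * Q := Nat.mul_pos (by omega) (by omega)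
    omega⟩
  have hI0 : Inv M D x.length h d (ini M) :=
    ⟨show 1 ≤ x.length + 1 by omega, by simp [ini], by simp [ini], by simp [ini]⟩
  constructor
  · intro u
    obtain ⟨t, v, h1, h2⟩ := loop_sound hRd hinv C' (ini M) (by omega) hI0 u
    exact ⟨t, v, run_loopP hL.three hs hb h1, fun h3 => hiff.2 (h2 h3)⟩
  · intro hx
    obtain ⟨T, f, hT, h0, hf, hI, hacc⟩ := hCnt hD hD1 hOb x h d hx
    rw [← hQ, ← hC] at hT
    obtain ⟨u, t, v, h1, h2⟩ := loop_complete hRd hf hI hacc C' 0 (by omega) (by omega)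
      (by omega)
    rw [h0] at h1
    exact ⟨u, t, v, run_loopP hL.three hs hb h1, h2⟩

end RN

end Pool.Agent.Lib.MP_9277c3_lc
end

section
/-!
# The program for steps with a low stack
-/
set_option autoImplicit false

namespace Pool.Agent.Lib.MP_9277c3_lc

namespace RN

open CM NC RC

namespace Low

section

variable {α S : Type} [Finite α] (M : NPDA α)

/-- The part of the program in which a move is guessed and done. -/
noncomputable def lowT (K : ℕ) (opt : Ky M → Fin (2 ^ K) → M.State × Move × List M.Stack) :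
    NStmt (S ⊕ RP) Empty :=
  sqN [gk (Sum.inr .op) (Sum.inr .fl) K,
    asg (Sum.inr .ky) (pairE (Ky M) (Fin (2 ^ K)) (vP .ky) (vP .op)),
    asg (Sum.inr .q) (tabE (T := Ky M × Fin (2 ^ K)) (fun p => cod (opt p.1 p.2).1) (vP .ky)),
    asg (Sum.inr .t) (vP .i +
      tabE (T := Ky M × Fin (2 ^ K)) (fun p => mvc (opt p.1 p.2).2.1) (vP .ky)),
    asg (Sum.inr .i) (vP .t - (vP .t - (vP .n + 2)) - 1),
    asg (Sum.inr .Z) (vP .Z / Exp.lit (Nat.card M.Stack + 1) *
      tabE (T := Ky M × Fin (2 ^ K))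
        (fun p => (Nat.card M.Stack + 1) ^ (opt p.1 p.2).2.2.length) (vP .ky) +
      tabE (T := Ky M × Fin (2 ^ K)) (fun p => scode M (opt p.1 p.2).2.2) (vP .ky)),
    asg (Sum.inr .H) (vP .H - 1 +
      tabE (T := Ky M × Fin (2 ^ K)) (fun p => (opt p.1 p.2).2.2.length) (vP .ky)),
    asg (Sum.inr .op) 0, asg (Sum.inr .ky) 0, asg (Sum.inr .t) 0, asg (Sum.inr .X) 0]

open Classical in
/-- The program for steps with a low stack. -/
noncomputable def lowP (K : ℕ) (opt : Ky M → Fin (2 ^ K) → M.State × Move × List M.Stack) :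
    NStmt (S ⊕ RP) Empty :=
  sqN [asg (Sum.inr .X) (vP .Z % Exp.lit (Nat.card M.Stack + 1) - 1),
    asg (Sum.inr .ky) (pairE M.State (Cell α × M.Stack) (vP .q)
      (pairE (Cell α) M.Stack (Exp.inp (vP .i)) (vP .X))),
    asg (Sum.inr .t) (tabE (T := Ky M) (fun p => if nx M p = ∅ then 0 else 1) (vP .ky)),
    Stmt.ite (Sum.inr .t) (lowT M K opt)
      (sqN [asg (Sum.inr .go) 0, asg (Sum.inr .ky) 0, asg (Sum.inr .X) 0])]

variable {M}

/-- The constant. -/
noncomputable def lowK (M : NPDA α) (K : ℕ) : ℕ :=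
  Nat.card (Ky M) + Nat.card (Ky M × Fin (2 ^ K)) + 2 ^ K + Nat.card M.State + Nat.card M.Stack + 3

variable {x : List α} {A K D : ℕ} {body : Empty → NStmt (S ⊕ RP) Empty} {k : ℕ}
  {opt : Ky M → Fin (2 ^ K) → M.State × Move × List M.Stack}

omit [Finite α] in
theorem lt_of_big {c : M.Cfg} (h : Big M x A (lowK M K) c D) {n : ℕ} (hn : n < lowK M K) :
    n < A := by
  refine hn.trans_le (le_trans ?_ h.2)
  refine Nat.le_mul_of_pos_right _ ?_
  positivity

theorem run_pre {h d C : ℕ} {q : M.State} {i : ℕ} {X : M.Stack} {γ : List M.Stack}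
    (hb : Big M x A (lowK M K) (q, i, X :: γ) D) {l : List (NStmt (S ⊕ RP) Empty)} {u v : ℕ → Bool}
    {t : S ⊕ RP → ℕ} (m : ℕ) (hm : m ≤ 1)
    (hm' : ∀ s : S ⊕ RP → ℕ, s (Sum.inr .ky) = cod ((q, cell x i, X) : Ky M) →
      (tabE (T := Ky M) (fun p => open Classical in if nx M p = ∅ then 0 else 1)
        (vP .ky)).eval x cod s = m)
    (hr : RunN x cod A body k (sqN l)
      (Sum.elim (fun _ => 0) (upd (upd (upd (stO M D x.length h d C ((q, i, X :: γ), false, []) 1 0) .X (cod X))
        .ky (cod ((q, cell x i, X) : Ky M))) .t m)) u t v) :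
    RunN x cod A body k (sqN (asg (Sum.inr .X) (vP .Z % Exp.lit (Nat.card M.Stack + 1) - 1) ::
      asg (Sum.inr .ky) (pairE M.State (Cell α × M.Stack) (vP .q)
        (pairE (Cell α) M.Stack (Exp.inp (vP .i)) (vP .X))) ::
      asg (Sum.inr .t) (tabE (T := Ky M)
        (fun p => open Classical in if nx M p = ∅ then 0 else 1) (vP .ky)) :: l))
      (stA M S D x.length h d C ((q, i, X :: γ), false, []) 1 0) u t v := by
  have h1 : cod X < Nat.card M.Stack := cod_lt X
  have h2 : cod ((q, cell x i, X) : Ky M) < Nat.card (Ky M) := cod_lt _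
  have h3 : 0 < 2 ^ K := Nat.two_pow_pos K
  refine setP (cod X) ?_ (lt_of_big hb (by unfold lowK; omega))
    (setP (cod ((q, cell x i, X) : Ky M)) ?_ (lt_of_big hb (by unfold lowK; omega))
    (setP m ?_ (lt_of_big hb (by unfold lowK; omega)) hr))
  · simp only [eval_sub, eval_mod, eval_var, eval_one, Sum.elim_inr, stO]
    change scode M (X :: γ) % (Nat.card M.Stack + 1) - 1 = cod X
    rw [scode_mod]
    omega
  · refine eval_pairE ?_ (eval_pairE ?_ ?_)
    · simp [eval_var, stO]
    · simp [Exp.eval, stO]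
    · simp [eval_var]
  · refine hm' _ ?_
    simp

omit [Finite α] in
theorem three_le_lowK : 3 ≤ lowK M K := by
  have := Nat.two_pow_pos K
  unfold lowK
  omega

omit [Finite α] in
theorem lt_of_big2 {c : M.Cfg} (h : Big M x A (lowK M K) c D) {n : ℕ}
    (hn : n < 3 * (x.length + 2)) : n < A := by
  refine hn.trans_le (le_trans ?_ h.2)
  refine Nat.mul_le_mul three_le_lowK (Nat.le_mul_of_pos_right _ ?_)
  positivity

omit [Finite α] in
theorem lt_of_big3 {c : M.Cfg} (h : Big M x A (lowK M K) c D) {n m : ℕ}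
    (hn : n < (Nat.card M.Stack + 1) ^ m) (hm : m ≤ c.2.2.length + D) : n < A := by
  refine hn.trans_le (le_trans ?_ h.2)
  have h1 : 0 < lowK M K := (by norm_num : 0 < 3).trans_le three_le_lowK
  have h2 : (Nat.card M.Stack + 1) ^ m ≤ (Nat.card M.Stack + 1) ^ (c.2.2.length + D) :=
    Nat.pow_le_pow_right (Nat.succ_pos _) hm
  calc (Nat.card M.Stack + 1) ^ m ≤ 1 * (1 * (Nat.card M.Stack + 1) ^ (c.2.2.length + D)) := by
        rw [one_mul, one_mul]
        exact h2
    _ ≤ _ := Nat.mul_le_mul h1 (Nat.mul_le_mul_right _ (by omega))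

theorem run_lowT (hD : PushLe M D) {h d C : ℕ} {q : M.State} {i : ℕ} {X : M.Stack}
    {γ : List M.Stack} (hb : Big M x A (lowK M K) (q, i, X :: γ) D) (u : ℕ → Bool)
    {r : M.State × Move × List M.Stack}
    (hr : r = opt (q, cell x i, X) (dcd (gb K u))) (hr' : r ∈ M.next q (cell x i) X) :
    RunN x cod A body k (lowT M K opt)
      (Sum.elim (fun _ : S => 0) (upd (upd (upd (stO M D x.length h d C ((q, i, X :: γ), false, []) 1 0) .X
        (cod X)) .ky (cod ((q, cell x i, X) : Ky M))) .t 1)) u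
      (stA M S D x.length h d C ((r.1, r.2.1.apply x.length i, r.2.2 ++ γ), false, []) 1 0) (sh K u) := by
  have hcs : 0 < Nat.card M.Stack := Nat.card_pos
  have h3 : 0 < 2 ^ K := Nat.two_pow_pos K
  have hi : i ≤ x.length + 1 := hb.1
  have hA0 : 0 < A := lt_of_big hb (by unfold lowK; omega)
  have h2K : 2 ^ K < A := lt_of_big hb (by unfold lowK; omega)
  have hlen : r.2.2.length ≤ D := hD _ _ _ r hr'
  set key : Ky M := (q, cell x i, X) with hkey
  set o : Fin (2 ^ K) := dcd (gb K u) with ho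
  have hgo : gb K u = cod o := by
    rw [ho, cod_dcd]
    rw [Nat.card_fin]
    exact gb_lt K u
  have hck : cod (key, o) < Nat.card (Ky M × Fin (2 ^ K)) := cod_lt _
  have hcq : cod r.1 < Nat.card M.State := cod_lt _
  have hmv : mvc r.2.1 ≤ 2 := mvc_le _
  have hap : r.2.1.apply x.length i ≤ x.length + 1 := by
    rw [← mvc_apply hi]
    omega
  have hZ : scode M (r.2.2 ++ γ) < (Nat.card M.Stack + 1) ^ (r.2.2 ++ γ).length := scode_lt M _
  have hH : (r.2.2 ++ γ).length < (Nat.card M.Stack + 1) ^ (r.2.2 ++ γ).length :=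
    Nat.lt_pow_self (by omega)
  have hl2 : (r.2.2 ++ γ).length ≤ (X :: γ).length + D := by
    rw [List.length_append, List.length_cons]
    omega
  unfold lowT
  refine RunN.cons (run_gk (by simp) (by simp [stO]) h2K.le k u) ?_
  rw [upd_inrP]
  refine setP (cod (key, o)) ?_ (lt_of_big hb (by unfold lowK; omega))
    (setP (cod r.1) ?_ (lt_of_big hb (by unfold lowK; omega))
    (setP (i + mvc r.2.1) ?_ (lt_of_big2 hb (by omega))
    (setP (r.2.1.apply x.length i) ?_ (lt_of_big2 hb (by omega))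
    (setP (scode M (r.2.2 ++ γ)) ?_ (lt_of_big3 hb hZ hl2)
    (setP (r.2.2 ++ γ).length ?_ (lt_of_big3 hb hH hl2)
    (setP 0 rfl hA0 (setP 0 rfl hA0 (setP 0 rfl hA0 (setP 0 rfl hA0
      ((RunN.nil).cast ?_))))))))))
  · refine eval_pairE ?_ ?_
    · simp [eval_var]
    · simp [eval_var, hgo]
  · rw [hr]
    exact eval_tabE _ (t := (key, o)) (by simp [eval_var])
  · have e1 := eval_tabE (x := x) (cc := cod) (T := Ky M × Fin (2 ^ K))
      (fun p => mvc (opt p.1 p.2).2.1) (e := vP (S := S) .ky) (t := (key, o))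
      (s := Sum.elim (fun _ : S => 0) (upd (upd (upd (upd (upd (upd (stO M D x.length h d C
        ((q, i, X :: γ), false, []) 1 0) .X (cod X)) .ky (cod key)) .t 1) .op (gb K u)) .ky (cod (key, o)))
        .q (cod r.1))) (by simp [eval_var])
    rw [eval_add, e1, hr]
    simp [eval_var, stO]
  · rw [← mvc_apply hi]
    simp [eval_var, stO]
  · rw [eval_add, eval_mul, eval_div, eval_tabE (T := Ky M × Fin (2 ^ K)) _ (t := (key, o))
      (by simp [eval_var]), eval_tabE (T := Ky M × Fin (2 ^ K)) _ (t := (key, o))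
      (by simp [eval_var]), scode_append, hr]
    congr 2
    simp only [eval_var, Sum.elim_inr, upd_ne, ne_eq, reduceCtorEq, not_false_eq_true, stO]
    exact scode_div M X γ
  · rw [eval_add, eval_tabE (T := Ky M × Fin (2 ^ K)) _ (t := (key, o))
      (by simp [eval_var]), List.length_append, hr]
    simp [eval_var, stO]
    omega
  · unfold stA
    congr 1
    funext p
    cases p <;> simp [stO]

theorem run_low_some (hD : PushLe M D)
    (hopt : ∀ p, (nx M p).Nonempty → (∀ o, opt p o ∈ nx M p) ∧ ∀ r ∈ nx M p, ∃ o, opt p o = r)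
    {h d C : ℕ} {q : M.State} {i : ℕ} {X : M.Stack}
    {γ : List M.Stack} (hb : Big M x A (lowK M K) (q, i, X :: γ) D)
    (hne : (M.next q (cell x i) X).Nonempty) (u : ℕ → Bool) :
    RunN x cod A body k (lowP M K opt)
      (stA M S D x.length h d C ((q, i, X :: γ), false, []) 1 0) u
      (stA M S D x.length h d C (((opt (q, cell x i, X) (dcd (gb K u))).1,
        (opt (q, cell x i, X) (dcd (gb K u))).2.1.apply x.length i,
        (opt (q, cell x i, X) (dcd (gb K u))).2.2 ++ γ), false, []) 1 0) (sh K u) := by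
  have hr' : opt (q, cell x i, X) (dcd (gb K u)) ∈ M.next q (cell x i) X :=
    (hopt (q, cell x i, X) hne).1 _
  unfold lowP
  refine run_pre hb 1 le_rfl ?_ (RunN.cons (RunN.iteT _ _ _ _ _ _ _ _ ?_
    (run_lowT hD hb u rfl hr')) RunN.nil)
  · intro s hs
    rw [eval_tabE (T := Ky M) _ (t := (q, cell x i, X)) (by simpa using hs)]
    exact if_neg hne.ne_empty
  · simp

theorem run_low_none {h d C : ℕ} {q : M.State} {i : ℕ} {X : M.Stack}
    {γ : List M.Stack} (hb : Big M x A (lowK M K) (q, i, X :: γ) D)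
    (hne : M.next q (cell x i) X = ∅) (u : ℕ → Bool) :
    RunN x cod A body k (lowP M K opt)
      (stA M S D x.length h d C ((q, i, X :: γ), false, []) 1 0) u
      (stA M S D x.length h d C ((q, i, X :: γ), false, []) 0 0) u := by
  have hA0 : 0 < A := lt_of_big hb ((by norm_num : 0 < 3).trans_le three_le_lowK)
  unfold lowP
  refine run_pre hb 0 (Nat.zero_le _) ?_ (RunN.cons (RunN.iteF _ _ _ _ _ _ _ _ ?_
    (setP 0 rfl hA0 (setP 0 rfl hA0 (setP 0 rfl hA0 ((RunN.nil).cast ?_))))) RunN.nil)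
  · intro s hs
    rw [eval_tabE (T := Ky M) _ (t := (q, cell x i, X)) (by simpa using hs)]
    exact if_pos hne
  · simp
  · unfold stA
    congr 1
    funext p
    cases p <;> simp [stO]

end

end Low

/-- The program for low steps. -/
theorem lowSpecR {α : Type} [Finite α] (M : NPDA α) (D : ℕ) : LowSpecR M D := by
  intro hD
  obtain ⟨K, opt, hopt⟩ := exists_opt M
  refine ⟨Low.lowK M K, fun S => ⟨Low.lowP M K opt, fun x A k body => ⟨?_, ?_, ?_⟩⟩⟩
  · intro h d C q i X γ hb he u
    exact ⟨u, Low.run_low_none hb he u⟩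
  · intro h d C q i X γ hb hne u
    exact ⟨_, (hopt (q, cell x i, X) hne).1 _, _, Low.run_low_some hD hopt hb hne u⟩
  · intro h d C q i X γ hb r hr v
    have hne : (M.next q (cell x i) X).Nonempty := ⟨r, hr⟩
    obtain ⟨o, ho⟩ := (hopt (q, cell x i, X) hne).2 r hr
    have h1 : cod o < 2 ^ K := by
      have := cod_lt o
      rwa [Nat.card_fin] at this
    obtain ⟨u, hu, hu'⟩ := gb_surj K (cod o) h1 v
    refine ⟨u, ?_⟩
    have h2 := Low.run_low_some (S := S) (x := x) (A := A) (body := body) (k := k)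
      (h := h) (d := d) (C := C) hD hopt hb hne u
    rw [hu, dcd_cod, ho, hu'] at h2
    exact h2

end RN

end Pool.Agent.Lib.MP_9277c3_lc
end

section
/-!
# Programs which read bits, with other names for the registers
-/
set_option autoImplicit false

namespace Pool.Agent.Lib.MP_9277c3_lc

namespace RN

open CM NC RC

section

variable {α R₀ F₀ R F : Type} {x : List α} {cc : Cell α → ℕ} {A : ℕ}

/-- Rename the registers by `ρ` and the procedures by `φ`. -/
def renN (ρ : R₀ → R) (φ : F₀ → F) : NStmt R₀ F₀ → NStmt R F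
  | Stmt.skip => Stmt.skip
  | Stmt.prim (Sum.inl p) => asg (ρ p.reg) (renE ρ p.exp)
  | Stmt.prim (Sum.inr r) => NC.flip (ρ r)
  | Stmt.seq a b => Stmt.seq (renN ρ φ a) (renN ρ φ b)
  | Stmt.ite q a b => Stmt.ite (ρ q) (renN ρ φ a) (renN ρ φ b)
  | Stmt.loop q a => Stmt.loop (ρ q) (renN ρ φ a)
  | Stmt.call f => Stmt.call (φ f)

/-- Programs with other names. -/
theorem runN_ren {ρ : R₀ → R} {φ : F₀ → F} (hρ : Function.Injective ρ) {body₀ : F₀ → NStmt R₀ F₀}
    {body : F → NStmt R F} (hb : ∀ f, body (φ f) = renN ρ φ (body₀ f)) {k : ℕ} {a : NStmt R₀ F₀}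
    {s t : R₀ → ℕ} {u v : ℕ → Bool} (h : RunN x cc A body₀ k a s u t v) (s' : R → ℕ) :
    RunN x cc A body k (renN ρ φ a) (mrg ρ s s') u (mrg ρ t s') v := by
  induction h with
  | skip k s u => exact RunN.skip _ _ _
  | asg k r e s u h =>
    have e1 : (renE ρ e).eval x cc (mrg ρ s s') = e.eval x cc s := by
      rw [eval_renE]
      congr 1
      funext r
      exact mrg_apply hρ _ _ _
    have h1 := RunN.asg (body := body) (x := x) (cc := cc) (A := A) k (ρ r) (renE ρ e)
      (mrg ρ s s') u (by rw [e1]; exact h)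
    rw [e1, ← mrg_upd hρ] at h1
    exact h1
  | flip k r s u =>
    have h1 := RunN.flip (body := body) (x := x) (cc := cc) (A := A) k (ρ r) (mrg ρ s s') u
    rw [← mrg_upd hρ] at h1
    exact h1
  | seq k a b s t r u v w _ _ ih₁ ih₂ => exact RunN.seq _ _ _ _ _ _ _ _ _ ih₁ ih₂
  | iteT k q a b s t u v h _ ih =>
    exact RunN.iteT _ _ _ _ _ _ _ _ (by rw [mrg_apply hρ]; exact h) ih
  | iteF k q a b s t u v h _ ih =>
    exact RunN.iteF _ _ _ _ _ _ _ _ (by rw [mrg_apply hρ]; exact h) ih
  | loopF k q a s u h => exact RunN.loopF _ _ _ _ _ (by rw [mrg_apply hρ]; exact h)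
  | loopT k q a s t r u v w h _ _ ih₁ ih₂ =>
    exact RunN.loopT _ _ _ _ _ _ _ _ _ (by rw [mrg_apply hρ]; exact h) ih₁ ih₂
  | call k f s t u v _ ih =>
    refine RunN.call _ _ _ _ _ _ ?_
    rw [hb]
    exact ih

/-- Programs with other names; the state of the large program is given. -/
theorem runN_ren' {ρ : R₀ → R} {φ : F₀ → F} (hρ : Function.Injective ρ)
    {body₀ : F₀ → NStmt R₀ F₀} {body : F → NStmt R F}
    (hb : ∀ f, body (φ f) = renN ρ φ (body₀ f)) {k : ℕ} {a : NStmt R₀ F₀}
    {s : R → ℕ} {t : R₀ → ℕ} {u v : ℕ → Bool}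
    (h : RunN x cc A body₀ k a (fun r => s (ρ r)) u t v) :
    RunN x cc A body k (renN ρ φ a) s u (mrg ρ t s) v := by
  have h1 := runN_ren hρ hb h s
  rwa [mrg_self hρ] at h1

end

section

variable {α S : Type} [Finite α] (M : NPDA α)

/-- The registers of the query program, in the registers of the large program: the arguments of the
query are not copied. -/
def rho (S : Type) : S ⊕ RO → (S ⊕ RO) ⊕ RP
  | Sum.inl s => Sum.inl (Sum.inl s)
  | Sum.inr .n => Sum.inr .n
  | Sum.inr .q => Sum.inr .qq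
  | Sum.inr .i => Sum.inr .qi
  | Sum.inr .X => Sum.inr .X
  | Sum.inr .d => Sum.inr .dd
  | Sum.inr .j => Sum.inr .j
  | Sum.inr r => Sum.inl (Sum.inr r)

theorem rho_injective : Function.Injective (rho S) := by
  rintro (a | a) (b | b) h
  · simp only [rho, Sum.inl.injEq] at h
    rw [h]
  · cases b <;> simp [rho] at h
  · cases a <;> simp [rho] at h
  · cases a <;> cases b <;> simp [rho] at h <;> rfl

/-- The registers of the query. -/
def oq (o : RP → ℕ) : RO → ℕ
  | .n => o .n
  | .q => o .qq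
  | .i => o .qi
  | .X => o .X
  | .d => o .dd
  | .j => o .j
  | _ => 0

theorem rho_pre (o : RP → ℕ) :
    (fun r => (Sum.elim (fun _ => 0) o : (S ⊕ RO) ⊕ RP → ℕ) (rho S r)) =
      Sum.elim (fun _ => 0) (oq o) := by
  funext r
  rcases r with r | r
  · rfl
  · cases r <;> rfl

theorem rho_post (o : RP → ℕ) (res : S) (n : ℕ) :
    mrg (rho S) (Sum.elim (upd (fun _ => 0) res n) (oq o))
      (Sum.elim (fun _ => 0) o : (S ⊕ RO) ⊕ RP → ℕ) =
      Sum.elim (upd (fun _ => 0) (Sum.inl res) n) o := by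
  have h0 : mrg (rho S) (Sum.elim (upd (fun _ => 0) res n) (oq o))
      (Sum.elim (fun _ => 0) o : (S ⊕ RO) ⊕ RP → ℕ) =
      mrg (rho S) (upd (Sum.elim (fun _ => 0) (oq o)) (Sum.inl res) n)
        (Sum.elim (fun _ => 0) o : (S ⊕ RO) ⊕ RP → ℕ) := by
    congr 1
    funext r
    rcases r with r | r
    · by_cases hr : r = res
      · subst hr
        simp [upd]
      · have h2 : (Sum.inl r : S ⊕ RO) ≠ Sum.inl res := fun h => hr (Sum.inl.inj h)
        rw [upd_ne h2]
        simp only [Sum.elim_inl]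
        rw [upd_ne hr]
    · rw [upd_ne (by simp)]
      rfl
  rw [h0, mrg_upd rho_injective, ← rho_pre, mrg_self rho_injective]
  funext r
  rcases r with (r | r) | r
  · by_cases hr : r = res
    · subst hr
      simp [rho, upd]
    · have h2 : (Sum.inl (Sum.inl r) : (S ⊕ RO) ⊕ RP) ≠ rho S (Sum.inl res) := fun h =>
        hr (Sum.inl.inj (Sum.inl.inj h))
      have h3 : (Sum.inl r : S ⊕ RO) ≠ Sum.inl res := fun h => hr (Sum.inl.inj h)
      rw [upd_ne h2]
      simp only [Sum.elim_inl]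
      rw [upd_ne h3]
  · rw [upd_ne (by simp [rho])]
    simp only [Sum.elim_inl]
    rw [upd_ne (by simp)]
  · rw [upd_ne (by simp [rho])]
    rfl

/-- REN: the query program of `RC` can be used. -/
theorem renSpec : RenSpec M := by
  intro S res qry
  refine ⟨renN (rho S) id qry, ?_⟩
  intro x A k body body' hQ
  have key : ∀ (o : RP → ℕ) (u v : ℕ → Bool) (r : ℕ),
      RunN x cod A body k qry (Sum.elim (fun _ => 0) (oq o)) u
        (Sum.elim (upd (fun _ => 0) res r) (oq o)) v →
      RunN x cod A body' k (renN (rho S) id qry) (Sum.elim (fun _ => 0) o) u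
        (Sum.elim (upd (fun _ => 0) (Sum.inl res) r) o) v := by
    intro o u v r h
    rw [← rho_post o res r]
    refine runN_ren' rho_injective (body₀ := body) (fun f => f.elim) ?_
    rw [rho_pre]
    exact h
  refine ⟨?_, ?_⟩
  · intro o q i X d j hi hj hn hq hqi hX hd hjj u
    obtain ⟨r, v, h, hr⟩ := hQ.total (oq o) q i X d j hi hj hn hq hqi hX hd hjj u
    exact ⟨r, v, key o u v r h, hr⟩
  · intro o q i X d j hi hj hn hq hqi hX hd hjj hQu v
    obtain ⟨u, r, hr, h⟩ := hQ.complete (oq o) q i X d j hi hj hn hq hqi hX hd hjj hQu v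
    exact ⟨u, r, hr, key o u v r h⟩

end

end RN

end Pool.Agent.Lib.MP_9277c3_lc
end

section
/-!
# One round for an obligation, from the four kinds of rules
-/
set_option autoImplicit false

namespace Pool.Agent.Lib.MP_9277c3_lc

namespace RN

open CM NC RC

section

variable {α : Type} [Finite α] {M : NPDA α}

theorem Sm.mono {x : List α} {A K K' D h d : ℕ} {o : Ob M} {os : List (Ob M)}
    (hs : Sm M x A K D h d o os) (hK : K' ≤ K) : Sm M x A K' D h d o os :=
  ⟨hs.good, (Nat.mul_le_mul_right _ hK).trans hs.big, hs.pos⟩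

theorem lt_of_lt_nB {x : List α} {A K D h d : ℕ} {o : Ob M} {os : List (Ob M)}
    (hs : Sm M x A K D h d o os) (hK : 1 ≤ K) {m : ℕ} (hm : m < nB M D x.length d) : m < A := by
  refine hm.trans_le (le_trans ?_ hs.big)
  have h1 := one_le_nB (M := M) D x.length d
  calc nB M D x.length d = 1 * (nB M D x.length d * 1 * 1) := by ring
    _ ≤ K * (nB M D x.length d * nB M D x.length d * (oscode M D x.length d os + 1)) :=
        Nat.mul_le_mul hK (Nat.mul_le_mul (Nat.mul_le_mul_left _ h1) (by omega))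
    _ = K * (nB M D x.length d ^ 2 * (oscode M D x.length d os + 1)) := by ring

theorem oscode_lt_A {x : List α} {A K D h d : ℕ} {o : Ob M} {os : List (Ob M)}
    (hs : Sm M x A K D h d o os) (hK : 1 ≤ K) : oscode M D x.length d os < A := by
  refine lt_of_lt_of_le (Nat.lt_succ_self _) (le_trans ?_ hs.big)
  have h1 := one_le_nB (M := M) D x.length d
  calc oscode M D x.length d os + 1 = 1 * (1 ^ 2 * (oscode M D x.length d os + 1)) := by ring
    _ ≤ K * (nB M D x.length d ^ 2 * (oscode M D x.length d os + 1)) :=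
        Nat.mul_le_mul hK (Nat.mul_le_mul_right _ (Nat.pow_le_pow_left h1 2))

/-- Decode the topmost obligation. -/
def decE {S : Type} : List (RP × Exp (S ⊕ RP)) :=
  [(.t, Exp.mod (vP .Y) (vP .B) - 1), (.Y, Exp.div (vP .Y) (vP .B)),
    (.kk, Exp.mod (vP .t) (vP .d + 1)), (.t, Exp.div (vP .t) (vP .d + 1)),
    (.i2, Exp.mod (vP .t) (vP .n + 2)), (.t, Exp.div (vP .t) (vP .n + 2)),
    (.i1, Exp.mod (vP .t) (vP .n + 2)), (.ph, Exp.div (vP .t) (vP .n + 2)), (.t, 0)]

/-- The program, `P₁`, ..., `P₄` are the programs of the four kinds of rules. -/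
def ruleP {S : Type} (P₁ P₂ P₃ P₄ : NStmt (S ⊕ RP) Empty) : NStmt (S ⊕ RP) Empty :=
  sqN (decE.map (fun p => asg (Sum.inr p.1) p.2) ++
    [NC.flip (Sum.inr .fl), NC.flip (Sum.inr .vv),
      Stmt.ite (Sum.inr .fl)
        (Stmt.ite (Sum.inr .vv)
          (sqN [asg (Sum.inr .fl) 0, asg (Sum.inr .vv) 0, P₁])
          (sqN [asg (Sum.inr .fl) 0, asg (Sum.inr .vv) 0, P₂]))
        (Stmt.ite (Sum.inr .vv)
          (sqN [asg (Sum.inr .fl) 0, asg (Sum.inr .vv) 0, P₃])
          (sqN [asg (Sum.inr .fl) 0, asg (Sum.inr .vv) 0, P₄]))])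

/-- The four programs, chosen by two bits. -/
def pick {β : Type} (P₁ P₂ P₃ P₄ : β) (a b : Bool) : β :=
  match a, b with
  | true, true => P₁
  | true, false => P₂
  | false, true => P₃
  | false, false => P₄

theorem run_ruleP {S : Type} {x : List α} {A K D h d C k : ℕ}
    {body : Empty → NStmt (S ⊕ RP) Empty} {c : M.Cfg} {ac : Bool} {o : Ob M} {os : List (Ob M)}
    (hs : Sm M x A K D h d o os) (hK : 1 ≤ K) {P₁ P₂ P₃ P₄ : NStmt (S ⊕ RP) Empty}
    {u v : ℕ → Bool} {t : S ⊕ RP → ℕ}
    (hr : RunN x cod A body k (pick P₁ P₂ P₃ P₄ (u 0) (u 1))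
      (obA M S D x.length h d C (c, ac, os) o) (shift (shift u)) t v) :
    RunN x cod A body k (ruleP P₁ P₂ P₃ P₄)
      (stA M S D x.length h d C (c, ac, o :: os) 1 0) u t v := by
  have hg := hs.good
  have hoc := ocode_lt hg
  have h0 : 0 < A := lt_of_lt_nB hs hK (one_le_nB D x.length d)
  have hlt : ∀ m, m ≤ ocode M D x.length d o → m < A := fun m hm =>
    lt_of_lt_nB hs hK (by omega)
  have hp : o.1.2.1 < x.length + 2 := by
    have := hg.pos
    omega
  have ht : tp M o < x.length + 2 := by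
    have := tp_le hg
    omega
  have hk : rk M o < d + 1 := by
    have : rk M o ≤ d := hg.rk
    omega
  obtain ⟨m1, hm1⟩ : ∃ m, m = cod (fp M D o) * (x.length + 2) + o.1.2.1 := ⟨_, rfl⟩
  obtain ⟨m2, hm2⟩ : ∃ m, m = m1 * (x.length + 2) + tp M o := ⟨_, rfl⟩
  have hm3 : ocode M D x.length d o = m2 * (d + 1) + rk M o := by
    rw [hm2, hm1]
    rfl
  have e1 : m2 * (d + 1) + rk M o - 0 = m2 * (d + 1) + rk M o := Nat.sub_zero _
  have q1 : (m2 * (d + 1) + rk M o) % (d + 1) = rk M o := by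
    rw [Nat.mul_comm, Nat.mul_add_mod_self_left, Nat.mod_eq_of_lt hk]
  have q2 : (m2 * (d + 1) + rk M o) / (d + 1) = m2 := by
    rw [Nat.mul_comm, Nat.mul_add_div (Nat.succ_pos d), Nat.div_eq_of_lt hk, Nat.add_zero]
  have q3 : m2 % (x.length + 2) = tp M o := by
    rw [hm2, Nat.mul_comm, Nat.mul_add_mod_self_left, Nat.mod_eq_of_lt ht]
  have q4 : m2 / (x.length + 2) = m1 := by
    rw [hm2, Nat.mul_comm, Nat.mul_add_div (by omega), Nat.div_eq_of_lt ht, Nat.add_zero]
  have q5 : m1 % (x.length + 2) = o.1.2.1 := by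
    rw [hm1, Nat.mul_comm, Nat.mul_add_mod_self_left, Nat.mod_eq_of_lt hp]
  have q6 : m1 / (x.length + 2) = cod (fp M D o) := by
    rw [hm1, Nat.mul_comm, Nat.mul_add_div (by omega), Nat.div_eq_of_lt hp, Nat.add_zero]
  have l2 : m2 ≤ ocode M D x.length d o := by
    rw [hm3]
    exact (Nat.le_mul_of_pos_right _ (Nat.succ_pos d)).trans (Nat.le_add_right _ _)
  have l1 : m1 ≤ ocode M D x.length d o := by
    refine le_trans ?_ l2
    rw [hm2]
    exact (Nat.le_mul_of_pos_right _ (by omega)).trans (Nat.le_add_right _ _)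
  have l0 : cod (fp M D o) ≤ ocode M D x.length d o := by
    refine le_trans ?_ l1
    rw [hm1]
    exact (Nat.le_mul_of_pos_right _ (by omega)).trans (Nat.le_add_right _ _)
  have lk : rk M o ≤ ocode M D x.length d o := by
    rw [hm3]
    exact Nat.le_add_left _ _
  have lt' : tp M o ≤ ocode M D x.length d o := by
    refine le_trans ?_ l2
    rw [hm2]
    exact Nat.le_add_left _ _
  have lp : o.1.2.1 ≤ ocode M D x.length d o := by
    refine le_trans ?_ l1
    rw [hm1]
    exact Nat.le_add_left _ _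
  unfold ruleP decE stA
  simp only [List.map_cons, List.map_nil, List.cons_append, List.nil_append]
  refine setP (m2 * (d + 1) + rk M o) ?_ (hlt _ (le_of_eq hm3.symm)) ?_
  · simp only [eval_sub, Exp.eval, eval_var, eval_one, Sum.elim_inr, stO]
    rw [oscode_mod hg, ← hm3]
    simp
  refine setP (oscode M D x.length d os) ?_ (oscode_lt_A hs hK) ?_
  · simp only [Exp.eval, eval_var, Sum.elim_inr, upd, stO, reduceCtorEq, if_false]
    exact oscode_div hg os
  refine setP (rk M o) ?_ (hlt _ lk) ?_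
  · simp only [Exp.eval, eval_add, eval_one, eval_var, Sum.elim_inr, upd, stO, reduceCtorEq,
      if_false, if_true]
    exact q1
  refine setP m2 ?_ (hlt _ l2) ?_
  · simp only [Exp.eval, eval_add, eval_one, eval_var, Sum.elim_inr, upd, stO, reduceCtorEq,
      if_false, if_true]
    exact q2
  refine setP (tp M o) ?_ (hlt _ lt') ?_
  · simp only [Exp.eval, eval_add, eval_ofNat, eval_var, Sum.elim_inr, upd, stO, reduceCtorEq,
      if_false, if_true]
    exact q3
  refine setP m1 ?_ (hlt _ l1) ?_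
  · simp only [Exp.eval, eval_add, eval_ofNat, eval_var, Sum.elim_inr, upd, stO, reduceCtorEq,
      if_false, if_true]
    exact q4
  refine setP o.1.2.1 ?_ (hlt _ lp) ?_
  · simp only [Exp.eval, eval_add, eval_ofNat, eval_var, Sum.elim_inr, upd, stO, reduceCtorEq,
      if_false, if_true]
    exact q5
  refine setP (cod (fp M D o)) ?_ (hlt _ l0) ?_
  · simp only [Exp.eval, eval_add, eval_ofNat, eval_var, Sum.elim_inr, upd, stO, reduceCtorEq,
      if_false, if_true]
    exact q6
  refine setP 0 rfl h0 ?_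
  refine RunN.flips ?_
  rw [upd_inrP]
  refine RunN.flips ?_
  rw [upd_inrP]
  have hend : ∀ P : NStmt (S ⊕ RP) Empty,
      RunN x cod A body k P (obA M S D x.length h d C (c, ac, os) o) (shift (shift u)) t v →
      ∀ w : RP → ℕ, (∀ r, r ≠ .fl → r ≠ .vv → w r = obO M D x.length h d C (c, ac, os) o r) →
      RunN x cod A body k (sqN [asg (Sum.inr .fl) 0, asg (Sum.inr .vv) 0, P])
        (Sum.elim (fun _ => 0) w) (shift (shift u)) t v := by
    intro P hP w hw
    refine setP 0 rfl h0 (setP 0 rfl h0 (RunN.cons ?_ RunN.nil))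
    convert hP using 1
    unfold obA
    congr 1
    funext r
    by_cases h1 : r = .vv
    · subst h1
      simp [upd, obO, stO]
    by_cases h2 : r = .fl
    · subst h2
      simp [upd, obO, stO]
    rw [upd_ne h1, upd_ne h2]
    exact hw r h2 h1
  refine RunN.cons ?_ RunN.nil
  have hu1 : shift u 0 = u 1 := rfl
  have hfl : ∀ w : RP → ℕ, Sum.elim (fun _ : S => 0)
      (upd (upd w RP.fl (u 0).toNat) RP.vv (shift u 0).toNat) (Sum.inr RP.fl) = (u 0).toNat := by
    intro w
    simp [upd]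
  have hvv : ∀ w : RP → ℕ, Sum.elim (fun _ : S => 0)
      (upd (upd w RP.fl (u 0).toNat) RP.vv (shift u 0).toNat) (Sum.inr RP.vv) = (u 1).toNat := by
    intro w
    simp [upd, hu1]
  have hw : ∀ w : RP → ℕ, (∀ r, r ≠ .fl → r ≠ .vv →
        w r = obO M D x.length h d C (c, ac, os) o r) →
      ∀ r, r ≠ .fl → r ≠ .vv → upd (upd w RP.fl (u 0).toNat) RP.vv (shift u 0).toNat r =
        obO M D x.length h d C (c, ac, os) o r := by
    intro w hw r h1 h2
    rw [upd_ne h2, upd_ne h1]
    exact hw r h1 h2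
  have hbase : ∀ r, r ≠ RP.fl → r ≠ RP.vv →
      upd (upd (upd (upd (upd (upd (upd (upd (upd (stO M D x.length h d C (c, ac, o :: os) 1 0)
        RP.t (m2 * (d + 1) + rk M o)) RP.Y (oscode M D x.length d os)) RP.kk (rk M o)) RP.t m2)
        RP.i2 (tp M o)) RP.t m1) RP.i1 o.1.2.1) RP.ph (cod (fp M D o))) RP.t 0 r =
      obO M D x.length h d C (c, ac, os) o r := by
    intro r h1 h2
    cases r <;> simp [upd, obO, stO]
  have hF : (false : Bool).toNat = 0 := rfl
  have hT : (true : Bool).toNat ≠ 0 := by decide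
  rcases Bool.eq_false_or_eq_true (u 0) with h0' | h0'
  · rcases Bool.eq_false_or_eq_true (u 1) with h1' | h1'
    · refine RunN.iteT _ _ _ _ _ _ _ _ (by rw [hfl, h0']; exact hT)
        (RunN.iteT _ _ _ _ _ _ _ _ (by rw [hvv, h1']; exact hT) (hend _ ?_ _ (hw _ hbase)))
      rw [h0', h1'] at hr
      exact hr
    · refine RunN.iteT _ _ _ _ _ _ _ _ (by rw [hfl, h0']; exact hT)
        (RunN.iteF _ _ _ _ _ _ _ _ (by rw [hvv, h1']; exact hF) (hend _ ?_ _ (hw _ hbase)))
      rw [h0', h1'] at hr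
      exact hr
  · rcases Bool.eq_false_or_eq_true (u 1) with h1' | h1'
    · refine RunN.iteF _ _ _ _ _ _ _ _ (by rw [hfl, h0']; exact hF)
        (RunN.iteT _ _ _ _ _ _ _ _ (by rw [hvv, h1']; exact hT) (hend _ ?_ _ (hw _ hbase)))
      rw [h0', h1'] at hr
      exact hr
    · refine RunN.iteF _ _ _ _ _ _ _ _ (by rw [hfl, h0']; exact hF)
        (RunN.iteF _ _ _ _ _ _ _ _ (by rw [hvv, h1']; exact hF) (hend _ ?_ _ (hw _ hbase)))
      rw [h0', h1'] at hr
      exact hr

theorem does_pick {S : Type} {x : List α} {A D h d C k : ℕ}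
    {body : Empty → NStmt (S ⊕ RP) Empty} {P₁ P₂ P₃ P₄ : NStmt (S ⊕ RP) Empty}
    {pre : S ⊕ RP → ℕ} {c : M.Cfg} {ac : Bool} {os : List (Ob M)}
    {o₁ o₂ o₃ o₄ : List (Ob M) → Prop}
    (h₁ : Does M x A D h d C body k P₁ pre c ac os o₁)
    (h₂ : Does M x A D h d C body k P₂ pre c ac os o₂)
    (h₃ : Does M x A D h d C body k P₃ pre c ac os o₃)
    (h₄ : Does M x A D h d C body k P₄ pre c ac os o₄) (a b : Bool) :
    Does M x A D h d C body k (pick P₁ P₂ P₃ P₄ a b) pre c ac os (pick o₁ o₂ o₃ o₄ a b) := by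
  cases a <;> cases b <;> assumption

theorem rule_iff (x : List α) (o : Ob M) (new : List (Ob M)) : Rule M x o new ↔
    ∃ a b, pick (RuleC M x o) (RuleQ M x o) (RuleR M x o) (RuleS M x o) a b new := by
  constructor
  · intro h
    cases h with
    | fin q i k => exact ⟨true, true, RuleC.fin _ _ _⟩
    | acc q i β k ha => exact ⟨true, true, RuleC.acc _ _ _ _ ha⟩
    | aqry q i X β k hQ => exact ⟨true, false, RuleQ.aqry _ _ _ _ _ hQ⟩
    | adv q i X β t k q' j hj hQ => exact ⟨true, false, RuleQ.adv _ _ _ _ _ _ _ _ hj hQ⟩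
    | step q i X t k r hr => exact ⟨false, true, RuleR.step _ _ _ _ _ _ hr⟩
    | left q i β γ k => exact ⟨false, true, RuleR.left _ _ _ _ _⟩
    | fst q i β γ t k q' j hj => exact ⟨false, false, RuleS.fst _ _ _ _ _ _ _ _ hj⟩
    | snd q i β γ t k q' j hj => exact ⟨false, false, RuleS.snd _ _ _ _ _ _ _ _ hj⟩
  · rintro ⟨a, b, h⟩
    cases a <;> cases b
    · cases h with
      | fst q i β γ t k q' j hj => exact Rule.fst _ _ _ _ _ _ _ _ hj
      | snd q i β γ t k q' j hj => exact Rule.snd _ _ _ _ _ _ _ _ hj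
    · cases h with
      | step q i X t k r hr => exact Rule.step _ _ _ _ _ _ hr
      | left q i β γ k => exact Rule.left _ _ _ _ _
    · cases h with
      | aqry q i X β k hQ => exact Rule.aqry _ _ _ _ _ hQ
      | adv q i X β t k q' j hj hQ => exact Rule.adv _ _ _ _ _ _ _ _ hj hQ
    · cases h with
      | fin q i k => exact Rule.fin _ _ _
      | acc q i β k ha => exact Rule.acc _ _ _ _ ha

end

section

variable {α : Type} [Finite α] (M : NPDA α)

/-- RULE. -/
theorem ruleSpec (D : ℕ) (hC : PartSpec M D (RuleC M)) (hQ : PartSpecQ M D)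
    (hR : PartSpec M D (RuleR M)) (hS : PartSpec M D (RuleS M)) : RuleSpec M D := by
  intro hD
  obtain ⟨K₁, h₁⟩ := hC hD
  obtain ⟨K₂, h₂⟩ := hQ hD
  obtain ⟨K₃, h₃⟩ := hR hD
  obtain ⟨K₄, h₄⟩ := hS hD
  refine ⟨K₁ + K₂ + K₃ + K₄ + 1, fun S res qry => ?_⟩
  obtain ⟨P₁, h₁⟩ := h₁ S
  obtain ⟨P₂, h₂⟩ := h₂ S res qry
  obtain ⟨P₃, h₃⟩ := h₃ S
  obtain ⟨P₄, h₄⟩ := h₄ S
  refine ⟨ruleP P₁ P₂ P₃ P₄, fun x A k body hq h d C c ac o os hs => ?_⟩
  have hp := does_pick (h₁ x A k body h d C c ac o os (hs.mono (by omega)))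
    (h₂ x A k body hq h d C c ac o os (hs.mono (by omega)))
    (h₃ x A k body h d C c ac o os (hs.mono (by omega)))
    (h₄ x A k body h d C c ac o os (hs.mono (by omega)))
  refine ⟨fun u => ?_, fun new hn v => ?_⟩
  · obtain ⟨v, hv⟩ := (hp (u 0) (u 1)).total (shift (shift u))
    refine ⟨v, ?_⟩
    rcases hv with ⟨os', hv⟩ | ⟨new, hn, hv⟩
    · exact Or.inl ⟨os', run_ruleP hs (by omega) hv⟩
    · exact Or.inr ⟨new, (rule_iff x o new).2 ⟨_, _, hn⟩, run_ruleP hs (by omega) hv⟩
  · obtain ⟨a, b, hab⟩ := (rule_iff x o new).1 hn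
    obtain ⟨u, hu⟩ := (hp a b).complete new hab v
    exact ⟨consB a (consB b u), run_ruleP hs (by omega) hu⟩

end

end RN

end Pool.Agent.Lib.MP_9277c3_lc
end

section
/-!
# The rules which split an obligation
-/
set_option autoImplicit false

namespace Pool.Agent.Lib.MP_9277c3_lc

namespace RN

open CM NC RC

namespace Spl

section

variable {α : Type} (M : NPDA α)

/-- The finite part of the guess: `true` if the first part gets the smaller rank, the state in the
middle, the number of symbols of the first part. -/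
abbrev Gs (D : ℕ) : Type := Bool × M.State × Fin (D + 1)

/-- The first part. -/
def prt1 {D : ℕ} (ob : Ob M) (g : Gs M D) (j k : ℕ) : Ob M :=
  ((ob.1.1, ob.1.2.1, ob.1.2.2.take (g.2.2 : ℕ)), some (g.2.1, j), k)

/-- The second part. -/
def prt2 {D : ℕ} (ob : Ob M) (g : Gs M D) (j k : ℕ) : Ob M :=
  ((g.2.1, j, ob.1.2.2.drop (g.2.2 : ℕ)), ob.2.1, k)

/-- The part with the rank of the obligation. -/
def big {D : ℕ} (ob : Ob M) (g : Gs M D) (j : ℕ) : Ob M :=
  if g.1 then prt2 M ob g j (rk M ob) else prt1 M ob g j (rk M ob)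

/-- The part with the smaller rank. -/
def small {D : ℕ} (ob : Ob M) (g : Gs M D) (j : ℕ) : Ob M :=
  if g.1 then prt1 M ob g j (rk M ob - 1) else prt2 M ob g j (rk M ob - 1)

variable {M}

theorem good_prt1 {D n d : ℕ} {ob : Ob M} (hg : Good M D n d ob) (g : Gs M D) {j k : ℕ}
    (hj : j ≤ n + 1) (hk : k ≤ d) : Good M D n d (prt1 M ob g j k) where
  pos := hg.pos
  len := by
    have h1 := hg.len
    simp only [prt1, List.length_take]
    omega
  tgt := by
    intro q j' h
    simp only [prt1, Option.some.injEq, Prod.mk.injEq] at h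
    omega
  rk := hk

theorem good_prt2 {D n d : ℕ} {ob : Ob M} (hg : Good M D n d ob) (g : Gs M D) {j k : ℕ}
    (hj : j ≤ n + 1) (hk : k ≤ d) : Good M D n d (prt2 M ob g j k) where
  pos := hj
  len := by
    have h1 := hg.len
    simp only [prt2, List.length_drop]
    omega
  tgt := hg.tgt
  rk := hk

theorem good_big {D n d : ℕ} {ob : Ob M} (hg : Good M D n d ob) (g : Gs M D) {j : ℕ}
    (hj : j ≤ n + 1) : Good M D n d (big M ob g j) := by
  unfold big
  split_ifs
  · exact good_prt2 hg g hj hg.rk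
  · exact good_prt1 hg g hj hg.rk

theorem good_small {D n d : ℕ} {ob : Ob M} (hg : Good M D n d ob) (g : Gs M D) {j : ℕ}
    (hj : j ≤ n + 1) : Good M D n d (small M ob g j) := by
  have h1 : rk M ob - 1 ≤ d := (Nat.sub_le _ _).trans hg.rk
  unfold small
  split_ifs
  · exact good_prt1 hg g hj h1
  · exact good_prt2 hg g hj h1

/-- Every split is correct. -/
theorem rule_of {D : ℕ} {x : List α} {ob : Ob M} (hk : rk M ob ≠ 0) (g : Gs M D) {j : ℕ}
    (hj : j ≤ x.length + 1) : RuleS M x ob [small M ob g j, big M ob g j] := by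
  obtain ⟨⟨q, i, β⟩, t, k⟩ := ob
  obtain ⟨b, q', m⟩ := g
  obtain ⟨k, rfl⟩ : ∃ k', k = k' + 1 := ⟨k - 1, by simp only [rk] at hk; omega⟩
  cases b with
  | false =>
    have h := RuleS.fst (M := M) (x := x) q i (β.take (m : ℕ)) (β.drop (m : ℕ)) t k q' j hj
    rw [List.take_append_drop] at h
    exact h
  | true =>
    have h := RuleS.snd (M := M) (x := x) q i (β.take (m : ℕ)) (β.drop (m : ℕ)) t k q' j hj
    rw [List.take_append_drop] at h
    exact h

/-- Every split can be guessed. -/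
theorem of_rule {D n d : ℕ} {x : List α} {ob : Ob M} (hg : Good M D n d ob) {new : List (Ob M)}
    (hR : RuleS M x ob new) : rk M ob ≠ 0 ∧ ∃ (g : Gs M D) (j : ℕ), j ≤ x.length + 1 ∧
      new = [small M ob g j, big M ob g j] := by
  cases hR with
  | fst q i β γ t k q' j hj =>
    have h1 := hg.len
    simp only [List.length_append] at h1
    refine ⟨Nat.succ_ne_zero k, (false, q', ⟨β.length, by omega⟩), j, hj, ?_⟩
    simp [small, big, prt1, prt2, rk]
  | snd q i β γ t k q' j hj =>
    have h1 := hg.len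
    simp only [List.length_append] at h1
    refine ⟨Nat.succ_ne_zero k, (true, q', ⟨β.length, by omega⟩), j, hj, ?_⟩
    simp [small, big, prt1, prt2, rk]

end

section

variable {α : Type} (M : NPDA α)

/-- The finite part of `prt1`. -/
def fp1 {D : ℕ} (p : Fp M D) (g : Gs M D) : Fp M D :=
  (p.1, mkl M D (p.2.1.1.take (g.2.2 : ℕ)), some g.2.1)

/-- The finite part of `prt2`. -/
def fp2 {D : ℕ} (p : Fp M D) (g : Gs M D) : Fp M D :=
  (g.2.1, mkl M D (p.2.1.1.drop (g.2.2 : ℕ)), p.2.2)

variable {M}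

theorem fp_prt1 {D n d : ℕ} {ob : Ob M} (hg : Good M D n d ob) (g : Gs M D) (j k : ℕ) :
    fp M D (prt1 M ob g j k) = fp1 M (fp M D ob) g := by
  have h1 : (mkl M D ob.1.2.2).1 = ob.1.2.2 := by
    unfold mkl
    rw [dif_pos hg.len]
  simp only [fp, fp1, prt1, h1, Option.map_some]

theorem fp_prt2 {D n d : ℕ} {ob : Ob M} (hg : Good M D n d ob) (g : Gs M D) (j k : ℕ) :
    fp M D (prt2 M ob g j k) = fp2 M (fp M D ob) g := by
  have h1 : (mkl M D ob.1.2.2).1 = ob.1.2.2 := by
    unfold mkl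
    rw [dif_pos hg.len]
  simp only [fp, fp2, prt2, h1]

end

section

variable {α S : Type} [Finite α] (M : NPDA α)

/-- The end of the program: two obligations are pushed. -/
def tailL : List (NStmt (S ⊕ RP) Empty) :=
  [asg (Sum.inr .Y) pushE, asg (Sum.inr .ph) (vP .ky), asg (Sum.inr .i1) (vP .X),
    asg (Sum.inr .i2) (vP .t), asg (Sum.inr .kk) (vP .kk - 1), asg (Sum.inr .Y) pushE, clrP]

/-- The two obligations. -/
noncomputable def midL (D : ℕ) : List (NStmt (S ⊕ RP) Empty) :=
  asg (Sum.inr .vv) (tabE (fun g : Gs M D => if g.1 then 1 else 0) (vP .op)) ::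
    asg (Sum.inr .ky) (tabE (fun p : Fp M D × Gs M D =>
      cod (if p.2.1 then fp1 M p.1 p.2 else fp2 M p.1 p.2))
      (pairE (Fp M D) (Gs M D) (vP .ph) (vP .op))) ::
    asg (Sum.inr .ph) (tabE (fun p : Fp M D × Gs M D =>
      cod (if p.2.1 then fp2 M p.1 p.2 else fp1 M p.1 p.2))
      (pairE (Fp M D) (Gs M D) (vP .ph) (vP .op))) ::
    asg (Sum.inr .qi) (vP .j * vP .vv + vP .i1 * (1 - vP .vv)) ::
    asg (Sum.inr .dd) (vP .i2 * vP .vv + vP .j * (1 - vP .vv)) ::
    asg (Sum.inr .X) (vP .i1 * vP .vv + vP .j * (1 - vP .vv)) ::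
    asg (Sum.inr .t) (vP .j * vP .vv + vP .i2 * (1 - vP .vv)) ::
    asg (Sum.inr .i1) (vP .qi) :: asg (Sum.inr .i2) (vP .dd) :: tailL

/-- The program. -/
noncomputable def prog (D K : ℕ) : NStmt (S ⊕ RP) Empty :=
  sqN [gk (Sum.inr .op) (Sum.inr .fl) K,
    asg (Sum.inr .op) (vP .op % Exp.lit (Nat.card (Gs M D))),
    asg (Sum.inr .t') (vP .n + 2),
    guess (Sum.inr .j) (Sum.inr .t') (Sum.inr .t) (Sum.inr .fl),
    Stmt.ite (Sum.inr .kk) (sqN (midL M D)) (sqN [asg (Sum.inr .go) 0, clrP])]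

variable {M} {x : List α} {A k : ℕ} {body : Empty → NStmt (S ⊕ RP) Empty}

theorem run_tail {D K₀ h d C : ℕ} {c : M.Cfg} {ac : Bool} {ob ob1 ob2 : Ob M} {os : List (Ob M)}
    (hs : Sm M x A K₀ D h d ob os) (hK : 1 ≤ K₀) (hg1 : Good M D x.length d ob1)
    (hg2 : Good M D x.length d ob2) (hk : rk M ob2 = rk M ob1 - 1) {o : RP → ℕ}
    (ho : St0 M D x.length h d C (c, ac, os) 1 0 o) (hb : Ob0 M D ob1 o)
    (h1 : o .ky = cod (fp M D ob2)) (h2 : o .X = ob2.1.2.1) (h3 : o .t = tp M ob2)
    (hF : Nat.card (Fp M D) < A) (hn : x.length + 2 < A) (hd : d < A) (u : ℕ → Bool) :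
    RunN x cod A body k (sqN tailL) (Sum.elim (fun _ => 0) o) u
      (stA M S D x.length h d C (c, ac, [ob2, ob1] ++ os) 1 0) u := by
  have hfp := cod_lt (fp M D ob2)
  have hpos := hg2.pos
  have htp := tp_le hg2
  have hrk : rk M ob2 ≤ d := hg2.rk
  have e1 := eval_pushE (x := x) (fun _ : S => 0) ho hb
  obtain ⟨a1, a2, a3, a4, a5, a6, a7, a8, a9, a10, a11, a12, a13⟩ := ho
  obtain ⟨b1, b2, b3, b4⟩ := hb
  refine setP (oscode M D x.length d (ob1 :: os)) e1 (push_lt hs hK hg1) ?_
  refine setP (cod (fp M D ob2)) ?_ (by omega) ?_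
  · simp only [eval_var, Sum.elim_inr]
    simp [upd, h1]
  refine setP ob2.1.2.1 ?_ (by omega) ?_
  · simp only [eval_var, Sum.elim_inr]
    simp [upd, h2]
  refine setP (tp M ob2) ?_ (by omega) ?_
  · simp only [eval_var, Sum.elim_inr]
    simp [upd, h3]
  refine setP (rk M ob2) ?_ (by omega) ?_
  · simp only [eval_sub, eval_one, eval_var, Sum.elim_inr]
    simp [upd, b4, hk]
  refine setP (oscode M D x.length d (ob2 :: ob1 :: os)) ?_ (push_lt2 hs hK hg2 hg1) ?_
  · refine eval_pushE (h := h) (C := C) (s := (c, ac, ob1 :: os)) (go := 1) (res := 0) _ ?_ ?_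
    · refine ⟨?_, ?_, ?_, ?_, ?_, ?_, ?_, ?_, ?_, ?_, ?_, ?_, ?_⟩ <;> simp [upd, *]
    · refine ⟨?_, ?_, ?_, ?_⟩ <;> simp [upd]
  refine run_clrP' (by omega) ?_ u
  refine ⟨?_, ?_, ?_, ?_, ?_, ?_, ?_, ?_, ?_, ?_, ?_, ?_, ?_⟩ <;> simp [upd, *]

theorem run_mid {D K₀ h d C : ℕ} {c : M.Cfg} {ac : Bool} {ob : Ob M} {os : List (Ob M)}
    (hs : Sm M x A K₀ D h d ob os) (hK : 1 ≤ K₀) (g : Gs M D) {j : ℕ} (hj : j ≤ x.length + 1)
    {o : RP → ℕ} (ho : St0 M D x.length h d C (c, ac, os) 1 0 o) (hb : Ob0 M D ob o)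
    (h1 : o .op = cod g) (h2 : o .j = j)
    (hF : Nat.card (Fp M D) < A) (hn : x.length + 2 < A) (hd : d < A) (u : ℕ → Bool) :
    RunN x cod A body k (sqN (midL M D)) (Sum.elim (fun _ => 0) o) u
      (stA M S D x.length h d C (c, ac, [small M ob g j, big M ob g j] ++ os) 1 0) u := by
  have hg := hs.good
  have hgb := good_big hg g hj
  have hgs := good_small hg g hj
  have hpos := hg.pos
  have htp := tp_le hg
  obtain ⟨a1, a2, a3, a4, a5, a6, a7, a8, a9, a10, a11, a12, a13⟩ := ho
  obtain ⟨b1, b2, b3, b4⟩ := hb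
  have f1 : fp M D (small M ob g j) =
      if g.1 then fp1 M (fp M D ob) g else fp2 M (fp M D ob) g := by
    unfold small
    split_ifs
    · exact fp_prt1 hg g j _
    · exact fp_prt2 hg g j _
  have f2 : fp M D (big M ob g j) =
      if g.1 then fp2 M (fp M D ob) g else fp1 M (fp M D ob) g := by
    unfold big
    split_ifs
    · exact fp_prt2 hg g j _
    · exact fp_prt1 hg g j _
  have c1 := cod_lt (fp M D (small M ob g j))
  have c2 := cod_lt (fp M D (big M ob g j))
  have p1 := hgb.pos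
  have p2 := hgs.pos
  have t1 := tp_le hgb
  have t2 := tp_le hgs
  refine setP (if g.1 then 1 else 0) ?_ (by split_ifs <;> omega) ?_
  · rw [eval_tabE (t := g) _ (by simp only [eval_var, Sum.elim_inr]; exact h1)]
  refine setP (cod (fp M D (small M ob g j))) ?_ (by omega) ?_
  · rw [eval_tabE (t := (fp M D ob, g)) _ ?_, f1]
    refine eval_pairE ?_ ?_ <;> simp only [eval_var, Sum.elim_inr] <;> simp [upd, b1, h1]
  refine setP (cod (fp M D (big M ob g j))) ?_ (by omega) ?_
  · rw [eval_tabE (t := (fp M D ob, g)) _ ?_, f2]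
    refine eval_pairE ?_ ?_ <;> simp only [eval_var, Sum.elim_inr] <;> simp [upd, b1, h1]
  refine setP (big M ob g j).1.2.1 ?_ (by omega) ?_
  · simp only [eval_add, eval_sub, eval_mul, eval_one, eval_var, Sum.elim_inr]
    cases hb : g.1 <;> simp [upd, b2, h2, big, hb, prt1, prt2]
  refine setP (tp M (big M ob g j)) ?_ (by omega) ?_
  · simp only [eval_add, eval_sub, eval_mul, eval_one, eval_var, Sum.elim_inr]
    cases hb : g.1 <;> simp [upd, b3, h2, big, hb, prt1, prt2, tp]
  refine setP (small M ob g j).1.2.1 ?_ (by omega) ?_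
  · simp only [eval_add, eval_sub, eval_mul, eval_one, eval_var, Sum.elim_inr]
    cases hb : g.1 <;> simp [upd, b2, h2, small, hb, prt1, prt2]
  refine setP (tp M (small M ob g j)) ?_ (by omega) ?_
  · simp only [eval_add, eval_sub, eval_mul, eval_one, eval_var, Sum.elim_inr]
    cases hb : g.1 <;> simp [upd, b3, h2, small, hb, prt1, prt2, tp]
  refine setP (big M ob g j).1.2.1 ?_ (by omega) ?_
  · simp only [eval_var, Sum.elim_inr]
    simp [upd]
  refine setP (tp M (big M ob g j)) ?_ (by omega) ?_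
  · simp only [eval_var, Sum.elim_inr]
    simp [upd]
  have r1 : rk M (big M ob g j) = rk M ob := by
    unfold big
    split_ifs <;> rfl
  have r2 : rk M (small M ob g j) = rk M (big M ob g j) - 1 := by
    rw [r1]
    unfold small
    split_ifs <;> rfl
  refine run_tail hs hK hgb hgs r2 ?_ ?_ ?_ ?_ ?_ hF hn hd u
  · refine ⟨?_, ?_, ?_, ?_, ?_, ?_, ?_, ?_, ?_, ?_, ?_, ?_, ?_⟩ <;> simp [upd, *]
  · refine ⟨?_, ?_, ?_, ?_⟩ <;> simp [upd, b4, r1]
  · simp [upd]
  · simp [upd]
  · simp [upd]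

/-- The constant. -/
theorem bounds {D K K₀ h d : ℕ} {ob : Ob M} {os : List (Ob M)}
    (hs : Sm M x A K₀ D h d ob os) (hK : 2 ^ K + Nat.card (Fp M D) + 4 ≤ K₀) :
    1 ≤ K₀ ∧ 2 ^ K ≤ A ∧ Nat.card (Fp M D) < A ∧ x.length + 2 < A ∧ 2 * (x.length + 2) ≤ A ∧
      d < A := by
  obtain ⟨h1, h2, h3⟩ := mul_lt_of_sm hs
  have h6 := Nat.two_pow_pos K
  have h4 : 4 * (x.length + 2) ≤ K₀ * (x.length + 2) := Nat.mul_le_mul_right _ (by omega)
  have h5 : 1 * (d + 1) ≤ K₀ * (d + 1) := Nat.mul_le_mul_right _ (by omega)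
  refine ⟨by omega, by omega, by omega, by omega, by omega, by omega⟩

/-- The program with the guess `g`, `j`. -/
theorem run_prog {D K K₀ h d C : ℕ} {c : M.Cfg} {ac : Bool} {ob : Ob M} {os : List (Ob M)}
    (hs : Sm M x A K₀ D h d ob os) (hK : 2 ^ K + Nat.card (Fp M D) + 4 ≤ K₀)
    (hG : Nat.card (Gs M D) ≤ 2 ^ K) (g : Gs M D) {j : ℕ} {u : ℕ → Bool}
    (h1 : gb K u % Nat.card (Gs M D) = cod g) (h2 : gval (x.length + 2) (sh K u) = j) :
    RunN x cod A body k (prog M D K) (obA M S D x.length h d C (c, ac, os) ob) u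
      (if rk M ob = 0 then stA M S D x.length h d C (c, ac, os) 0 0 else
        stA M S D x.length h d C (c, ac, [small M ob g j, big M ob g j] ++ os) 1 0)
      (grest (x.length + 2) (sh K u)) := by
  obtain ⟨k1, k2, k3, k4, k5, k6⟩ := bounds hs hK
  have hj : j < x.length + 2 := h2 ▸ gval_lt (show 0 < x.length + 2 by omega) (sh K u)
  have hcg := cod_lt g
  refine RunN.cons (run_gk (by simp) (by simp [obA, obO, stO]) k2 k u) ?_
  rw [obA, upd_inrP]
  refine setP (cod g) ?_ (by omega) ?_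
  · simp only [eval_mod, eval_var, Sum.elim_inr, upd_self]
    exact h1
  refine setP (x.length + 2) ?_ k4 ?_
  · simp only [eval_add, eval_ofNat, eval_var, Sum.elim_inr]
    simp [obO, stO]
  refine RunN.cons (run_guess (by simp) (by simp) (by simp) (by simp) (by simp) (by simp)
    (by simp [obO, stO]) (by simp [obO, stO]) ?_ ?_ k (sh K u)) ?_
  · simpa using k5
  · simp
  have e1 : ∀ o : RP → ℕ, Sum.elim (fun _ : S => 0) (upd o RP.t' (x.length + 2)) (Sum.inr RP.t') =
      x.length + 2 := fun o => by simp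
  rw [e1, upd_inrP, h2]
  refine RunN.cons ?_ RunN.nil
  by_cases hr : rk M ob = 0
  · rw [if_pos hr]
    refine RunN.iteF _ _ _ _ _ _ _ _ ?_ (run_fail (go := 1) (res := 0) (by omega) ?_ _)
    · simpa [obO] using hr
    · refine ⟨?_, ?_, ?_, ?_, ?_, ?_, ?_, ?_, ?_, ?_, ?_, ?_, ?_⟩ <;> simp [obO, stO]
  · rw [if_neg hr]
    refine RunN.iteT _ _ _ _ _ _ _ _ ?_ (run_mid hs k1 g (by omega) ?_ ?_ ?_ ?_ k3 k4 k6 _)
    · simpa [obO] using hr
    · refine ⟨?_, ?_, ?_, ?_, ?_, ?_, ?_, ?_, ?_, ?_, ?_, ?_, ?_⟩ <;> simp [obO, stO]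
    · refine ⟨?_, ?_, ?_, ?_⟩ <;> simp [obO]
    · simp
    · simp

end

end Spl

/-- The program for the rules which split an obligation. -/
theorem splSpec {α : Type} [Finite α] (M : NPDA α) (D : ℕ) : PartSpec M D (RuleS M) := by
  intro _
  obtain ⟨K, hK⟩ : ∃ K, Nat.card (Spl.Gs M D) ≤ 2 ^ K := ⟨_, Nat.lt_two_pow_self.le⟩
  refine ⟨2 ^ K + Nat.card (Fp M D) + 4, fun S => ⟨Spl.prog M D K,
    fun x A k body h d C c ac o os hs => ⟨fun u => ?_, fun new hn v => ?_⟩⟩⟩
  · have hc : 0 < Nat.card (Spl.Gs M D) := Nat.card_pos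
    have hm : gb K u % Nat.card (Spl.Gs M D) < Nat.card (Spl.Gs M D) := Nat.mod_lt _ hc
    have hJ := gval_lt (show 0 < x.length + 2 by omega) (sh K u)
    have h1 := Spl.run_prog (S := S) (k := k) (body := body) (C := C) (c := c) (ac := ac) hs le_rfl
      hK (dcd (gb K u % Nat.card (Spl.Gs M D)) : Spl.Gs M D) (cod_dcd hm).symm rfl
    refine ⟨grest (x.length + 2) (sh K u), ?_⟩
    by_cases hr : rk M o = 0
    · rw [if_pos hr] at h1
      exact Or.inl ⟨os, h1⟩
    · rw [if_neg hr] at h1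
      exact Or.inr ⟨_, Spl.rule_of hr _ (by omega), h1⟩
  · obtain ⟨hr, g, j, hj, rfl⟩ := Spl.of_rule hs.good hn
    obtain ⟨u₁, g1, g2⟩ := guess_surj (show j < x.length + 2 by omega) v
    have hd := cod_lt g
    obtain ⟨u₀, g3, g4⟩ := gb_surj K (cod g) (by omega) u₁
    refine ⟨u₀, ?_⟩
    have h1 := Spl.run_prog (S := S) (k := k) (body := body) (C := C) (c := c) (ac := ac) hs le_rfl
      hK g (by rw [g3, Nat.mod_eq_of_lt hd]) (by rw [g4, g1])
    rw [if_neg hr, g4, g2] at h1
    exact h1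

end RN

end Pool.Agent.Lib.MP_9277c3_lc
end
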