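import Pool.Agent.Lib.MP_9277c3_lc.RN.Spec
import Pool.Agent.Lib.MP_9277c3_lc.RC.Init
import Pool.Agent.Lib.MP_9277c3_lc.RN.Final
import Pool.Agent.Lib.MP_9277c3_lc.RN.Obl
import Pool.Agent.Lib.MP_9277c3_lc.RN.Cnt
import Pool.Agent.Lib.MP_9277c3_lc.RN.Spl
import Pool.Agent.Lib.MP_9277c3_lc.RN.Qry
import Pool.Agent.Lib.MP_9277c3_lc.RN.Rep
import Pool.Agent.Lib.MP_9277c3_lc.RC.SimP

section
/-!
# INIT: computation of the parameters of the search with rank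
-/
set_option autoImplicit false

namespace Pool.Agent.Lib.MP_9277c3_lc.RN

open CM NC RC

/-- The distance of the code of the cell `n + 1` from `rc`. -/
def dstJ (rc : ℕ) : Exp RJ :=
  (Exp.inp ((Exp.var RJ.n : Exp RJ) + 1) - (Exp.lit rc : Exp RJ)) +
    ((Exp.lit rc : Exp RJ) - Exp.inp ((Exp.var RJ.n : Exp RJ) + 1))

/-- The program. -/
def iniCJ (rc kq kf Bs D b : ℕ) : AStmt RJ Empty :=
  sqA [CM.set .t (dstJ rc),
    Stmt.loop .t (sqA [CM.set .n ((Exp.var RJ.n : Exp RJ) + 1), CM.set .t (dstJ rc)]),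
    CM.set .s 2, CM.set .t ((Exp.var RJ.n : Exp RJ) + 3 - (Exp.var RJ.s : Exp RJ)),
    Stmt.loop .t (sqA [CM.set .L ((Exp.var RJ.L : Exp RJ) + 1), CM.set .s (2 * (Exp.var RJ.s : Exp RJ)),
      CM.set .t ((Exp.var RJ.n : Exp RJ) + 3 - (Exp.var RJ.s : Exp RJ))]),
    CM.set .s 0, CM.set .t ((Exp.var RJ.L : Exp RJ) + 1 - ((Exp.var RJ.s : Exp RJ) + 1) * ((Exp.var RJ.s : Exp RJ) + 1)),
    Stmt.loop .t (sqA [CM.set .s ((Exp.var RJ.s : Exp RJ) + 1),
      CM.set .t ((Exp.var RJ.L : Exp RJ) + 1 - ((Exp.var RJ.s : Exp RJ) + 1) * ((Exp.var RJ.s : Exp RJ) + 1))]),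
    CM.set .h ((Exp.lit b : Exp RJ) * ((Exp.var RJ.L : Exp RJ) * ((Exp.var RJ.s : Exp RJ) + 1))),
    CM.set .d ((Exp.lit b : Exp RJ) * ((Exp.var RJ.s : Exp RJ) + 1)),
    CM.set .B ((Exp.lit kf : Exp RJ) * (((Exp.var RJ.n : Exp RJ) + 2) * ((Exp.var RJ.n : Exp RJ) + 2)) * ((Exp.var RJ.d : Exp RJ) + 1) + 1),
    CM.set .C (2 * (Exp.lit kq : Exp RJ) * ((Exp.var RJ.n : Exp RJ) + 2)),
    CM.set .t ((Exp.var RJ.h : Exp RJ) + (Exp.lit D : Exp RJ) + 1),
    Stmt.loop .t (sqA [CM.set .C ((Exp.var RJ.C : Exp RJ) * (Exp.lit Bs : Exp RJ)), CM.set .t ((Exp.var RJ.t : Exp RJ) - 1)]),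
    CM.set .t ((Exp.var RJ.d : Exp RJ) + 2),
    Stmt.loop .t (sqA [CM.set .C ((Exp.var RJ.C : Exp RJ) * (Exp.var RJ.B : Exp RJ)), CM.set .t ((Exp.var RJ.t : Exp RJ) - 1)])]

section

variable {α : Type} {x : List α}

theorem evJ_lit {cc : Cell α → ℕ} (s : RJ → ℕ) (k : ℕ) : (Exp.lit k).eval x cc s = k := rfl

theorem evJ_inp {cc : Cell α → ℕ} (s : RJ → ℕ) (a : Exp RJ) :
    (Exp.inp a).eval x cc s = cc (cell x (a.eval x cc s)) := rfl

end

section

variable {α : Type} [Finite (Cell α)] {x : List α} {A : ℕ} {kq kf Bs D b : ℕ}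

theorem run_iniCJ (hq : 1 ≤ kq) (hf : 1 ≤ kf) (hB : 2 ≤ Bs) (h1 : Nat.card (Cell α) ≤ A)
    (h2 : finJ b kq kf Bs D x.length .C < A) {body : Empty → AStmt RJ Empty} {k : ℕ} :
    RunA x cod A body k (iniCJ (cod (Cell.right : Cell α)) kq kf Bs D b) (fun _ => 0)
      (finJ b kq kf Bs D x.length) := by
  set n := x.length with hn
  set L := Nat.log 2 (n + 2) with hL
  set s := Nat.sqrt L with hs
  obtain ⟨h, hh⟩ : ∃ h, h = b * (L * (s + 1)) := ⟨_, rfl⟩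
  obtain ⟨d, hd⟩ : ∃ d, d = b * (s + 1) := ⟨_, rfl⟩
  obtain ⟨B, hBB⟩ : ∃ B, B = kf * (n + 2) ^ 2 * (d + 1) + 1 := ⟨_, rfl⟩
  have hC : finJ b kq kf Bs D n .C = 2 * kq * ((n + 2) * Bs ^ (h + D + 1) * B ^ (d + 2)) := by
    rw [hBB, hd, hh, hs, hL]
    rfl
  rw [hC] at h2
  set rc := cod (Cell.right : Cell α) with hrc
  have hcell : ∀ c : Cell α, cod c < Nat.card (Cell α) := cod_lt
  have hBpos : 1 ≤ B := by omega
  have c1 : 2 ^ (h + D + 1) ≤ Bs ^ (h + D + 1) := Nat.pow_le_pow_left hB _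
  have c2 : h + D + 1 < 2 ^ (h + D + 1) := Nat.lt_two_pow_self
  have c0 : B ≤ B ^ (d + 2) := Nat.le_self_pow (by omega) _
  have cB : (n + 2) ^ 2 * (d + 1) < B := by
    rw [hBB, Nat.mul_assoc]
    exact Nat.lt_succ_of_le (Nat.le_mul_of_pos_left _ (by omega))
  have cd : d + 1 < B := lt_of_le_of_lt (Nat.le_mul_of_pos_left _ (by positivity)) cB
  have c5 : ∀ j ≤ h + D + 1, ∀ l ≤ d + 2, 2 * kq * (n + 2) * Bs ^ j * B ^ l < A := by
    intro j hj l hl
    refine lt_of_le_of_lt ?_ h2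
    calc 2 * kq * (n + 2) * Bs ^ j * B ^ l
        ≤ 2 * kq * (n + 2) * Bs ^ (h + D + 1) * B ^ (d + 2) :=
          Nat.mul_le_mul (Nat.mul_le_mul_left _ (Nat.pow_le_pow_right (by omega) hj))
            (Nat.pow_le_pow_right hBpos hl)
      _ = _ := by ring
  have c6 : 2 * (n + 2) * 2 ^ (h + D + 1) * B < A := by
    refine lt_of_le_of_lt ?_ (c5 (h + D + 1) le_rfl (d + 2) le_rfl)
    refine Nat.mul_le_mul (Nat.mul_le_mul ?_ c1) c0
    exact Nat.mul_le_mul_right _ (by omega)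
  have p1 : 1 ≤ 2 ^ (h + D + 1) := Nat.one_le_two_pow
  have c8 : 2 * (n + 2) < A := by
    refine lt_of_le_of_lt ?_ c6
    calc 2 * (n + 2) ≤ 2 * (n + 2) * 2 ^ (h + D + 1) := Nat.le_mul_of_pos_right _ p1
      _ ≤ _ := Nat.le_mul_of_pos_right _ hBpos
  have c9 : h + D + 1 < A := by
    refine lt_of_le_of_lt c2.le (lt_of_le_of_lt ?_ c6)
    calc 2 ^ (h + D + 1) ≤ 2 * (n + 2) * 2 ^ (h + D + 1) := Nat.le_mul_of_pos_left _ (by omega)
      _ ≤ _ := Nat.le_mul_of_pos_right _ hBpos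
  have c11 : 2 * B < A := by
    refine lt_of_le_of_lt ?_ c6
    refine Nat.mul_le_mul_right _ ?_
    calc 2 ≤ 2 * (n + 2) := by omega
      _ ≤ _ := Nat.le_mul_of_pos_right _ p1
  have cL : 2 ^ L ≤ n + 2 := Nat.pow_log_le_self 2 (by omega)
  have cL' : L < 2 ^ L := Nat.lt_two_pow_self
  have cL2 : n + 2 < 2 ^ (L + 1) := Nat.lt_pow_succ_log_self (by norm_num) _
  have hs1 : s * s ≤ L := Nat.sqrt_le L
  have hs2 : L < (s + 1) * (s + 1) := Nat.lt_succ_sqrt L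
  have hs3 : s ≤ L := Nat.sqrt_le_self L
  -- the length
  refine RunA.sets (cod (cell x 1) - rc + (rc - cod (cell x 1))) rfl (by
    have := hcell (cell x 1); have := hcell (Cell.right : Cell α); omega) ?_
  refine RunA.cons ((RunA.seqLoop RJ.t _ (fun i => upd (upd (fun _ : RJ => 0) .n i) .t
    (cod (cell x (i + 1)) - rc + (rc - cod (cell x (i + 1))))) n
    (fun i hi => ?_) ?_ (fun i hi => ?_)).congr_left ?_) ?_
  · simp only [upd_self]
    have e1 : cod (cell x (i + 1)) ≠ rc := fun e => by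
      have := cod_inj e
      rw [RC.cell_letter hi] at this
      cases this
    omega
  · simp only [upd_self]
    rw [RC.cell_right (le_of_eq hn.symm)]
    omega
  · refine RunA.sets (i + 1) ?_ (by omega) (RunA.sets
      (cod (cell x (i + 1 + 1)) - rc + (rc - cod (cell x (i + 1 + 1)))) ?_ (by
      have := hcell (cell x (i + 1 + 1)); have := hcell (Cell.right : Cell α); omega)
      (RunA.nil.cast ?_))
    · simp
    · simp [dstJ, evJ_lit, evJ_inp, hrc]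
    · funext q; cases q <;> simp
  · funext q; cases q <;> simp
  -- the logarithm
  refine RunA.sets 2 (by simp) (by omega) (RunA.sets (n + 3 - 2) ?_ (by omega) ?_)
  · simp
  refine RunA.cons ((RunA.seqLoop RJ.t _ (fun i => upd (upd (upd (upd (fun _ : RJ => 0) .n n) .L i) .s
    (2 ^ (i + 1))) .t (n + 3 - 2 ^ (i + 1))) L
    (fun i hi => ?_) ?_ (fun i hi => ?_)).congr_left ?_) ?_
  · simp only [upd_self]
    have e1 : 2 ^ (i + 1) ≤ 2 ^ L := Nat.pow_le_pow_right (by norm_num) hi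
    omega
  · simp only [upd_self]
    omega
  · have e1 : 2 ^ (i + 1) ≤ 2 ^ L := Nat.pow_le_pow_right (by norm_num) hi
    have e2 : 2 ^ (i + 1 + 1) = 2 * 2 ^ (i + 1) := by rw [pow_succ]; ring
    refine RunA.sets (i + 1) ?_ (by omega) (RunA.sets (2 ^ (i + 1 + 1)) ?_ (by omega)
      (RunA.sets (n + 3 - 2 ^ (i + 1 + 1)) ?_ (by omega) (RunA.nil.cast ?_)))
    · simp
    · simp [e2]
    · simp
    · funext q; cases q <;> simp
  · funext q; cases q <;> simp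
  -- the square root
  refine RunA.sets 0 (by simp) (by omega) (RunA.sets (L + 1 - (0 + 1) * (0 + 1)) ?_ (by omega) ?_)
  · simp
  refine RunA.cons ((RunA.seqLoop RJ.t _ (fun i => upd (upd (upd (upd (fun _ : RJ => 0) .n n) .L L) .s
    i) .t (L + 1 - (i + 1) * (i + 1))) s
    (fun i hi => ?_) ?_ (fun i hi => ?_)).congr_left ?_) ?_
  · simp only [upd_self]
    have e1 : (i + 1) * (i + 1) ≤ s * s := Nat.mul_self_le_mul_self hi
    omega
  · simp only [upd_self]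
    omega
  · refine RunA.sets (i + 1) ?_ (by omega) (RunA.sets (L + 1 - (i + 1 + 1) * (i + 1 + 1)) ?_
      (by omega) (RunA.nil.cast ?_))
    · simp
    · simp
    · funext q; cases q <;> simp
  · funext q; cases q <;> simp
  -- the height, the rank, the base
  refine RunA.sets h ?_ (by omega) (RunA.sets d ?_ (by omega) (RunA.sets B ?_ (by omega) ?_))
  · simp [hh, evJ_lit]
  · simp [hd, evJ_lit]
  · simp [hBB, evJ_lit, pow_two]
  -- the count
  refine RunA.sets (2 * kq * (n + 2)) ?_ (by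
    have := c5 0 (Nat.zero_le _) 0 (Nat.zero_le _)
    simpa using this)
    (RunA.sets (h + D + 1) ?_ c9 ?_)
  · simp [evJ_lit]
  · simp [evJ_lit]
  refine RunA.cons ((RunA.seqLoop RJ.t _ (fun i => upd (upd (upd (upd (upd (upd (upd (upd
    (fun _ : RJ => 0) .n n) .L L) .s s) .h h) .d d) .B B) .C (2 * kq * (n + 2) * Bs ^ i)) .t
    (h + D + 1 - i)) (h + D + 1)
    (fun i hi => ?_) ?_ (fun i hi => ?_)).congr_left ?_) ?_
  · simp only [upd_self]
    omega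
  · simp only [upd_self]
    omega
  · refine RunA.sets (2 * kq * (n + 2) * Bs ^ (i + 1)) ?_ (by
      have := c5 (i + 1) hi 0 (Nat.zero_le _)
      simpa using this) (RunA.sets
      (h + D + 1 - (i + 1)) ?_ (by omega) (RunA.nil.cast ?_))
    · simp [pow_succ, Nat.mul_assoc, evJ_lit]
    · simp [Nat.sub_sub]
    · funext q; cases q <;> simp
  · funext q; cases q <;> simp
  refine RunA.sets (d + 2) ?_ (by omega) ?_
  · simp
  refine RunA.cons ((RunA.seqLoop RJ.t _ (fun i => upd (upd (upd (upd (upd (upd (upd (upd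
    (fun _ : RJ => 0) .n n) .L L) .s s) .h h) .d d) .B B) .C
    (2 * kq * (n + 2) * Bs ^ (h + D + 1) * B ^ i)) .t
    (d + 2 - i)) (d + 2)
    (fun i hi => ?_) ?_ (fun i hi => ?_)).congr_left ?_) (RunA.nil.cast ?_)
  · simp only [upd_self]
    omega
  · simp only [upd_self]
    omega
  · refine RunA.sets (2 * kq * (n + 2) * Bs ^ (h + D + 1) * B ^ (i + 1)) ?_
      (c5 _ le_rfl _ hi) (RunA.sets
      (d + 2 - (i + 1)) ?_ (by omega) (RunA.nil.cast ?_))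
    · simp [pow_succ, Nat.mul_assoc]
    · simp [Nat.sub_sub]
    · funext q; cases q <;> simp
  · funext q; cases q <;> simp
  · funext q
    cases q
    · simp [finJ]
    · simp [finJ, hL]
    · simp [finJ, hs, hL]
    · simp [finJ, hh, hs, hL]
    · simp [finJ, hd, hs, hL]
    · simp [finJ, hBB, hd, hs, hL]
    · rw [hC]
      simp only [upd, reduceCtorEq, if_false, if_true]
      ring
    · simp [finJ]
    · simp [finJ]

/-- The bound for all numbers of the initial program is `2 ^ O(L * (√L + 1))`. -/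
theorem finJ_bound (b kq kf Bs D m : ℕ) : ∃ c : ℕ, ∀ n : ℕ,
    m + finJ b kq kf Bs D n .C <
      2 ^ (c * (Nat.log 2 (n + 2) * (Nat.sqrt (Nat.log 2 (n + 2)) + 1))) := by
  refine ⟨m + 2 * kq + 4 + Bs * (b + D + 1) + (kf + b + 7) * (b + 2), fun n => ?_⟩
  have hL : 1 ≤ Nat.log 2 (n + 2) := Nat.log_pos (by norm_num) (by omega)
  have hn : n + 2 < 2 ^ (Nat.log 2 (n + 2) + 1) := Nat.lt_pow_succ_log_self (by norm_num) _
  show m + 2 * kq * ((n + 2) *
      Bs ^ (b * (Nat.log 2 (n + 2) * (Nat.sqrt (Nat.log 2 (n + 2)) + 1)) + D + 1) *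
      (kf * (n + 2) ^ 2 * (b * (Nat.sqrt (Nat.log 2 (n + 2)) + 1) + 1) + 1) ^
        (b * (Nat.sqrt (Nat.log 2 (n + 2)) + 1) + 2)) < _
  generalize Nat.log 2 (n + 2) = L at *
  have hsL : Nat.sqrt L ≤ L := Nat.sqrt_le_self L
  obtain ⟨σ, hσ⟩ : ∃ σ, σ = Nat.sqrt L + 1 := ⟨_, rfl⟩
  rw [← hσ]
  have hσ1 : 1 ≤ σ := by omega
  have hσ2 : σ ≤ 2 * L := by omega
  have e1 : 2 * kq ≤ 2 ^ (2 * kq) := Nat.lt_two_pow_self.le
  have e2 : Bs ^ (b * (L * σ) + D + 1) ≤ 2 ^ (Bs * (b * (L * σ) + D + 1)) := by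
    rw [pow_mul]
    exact Nat.pow_le_pow_left Nat.lt_two_pow_self.le _
  have e3 : m ≤ 2 ^ m := Nat.lt_two_pow_self.le
  have eB : kf * (n + 2) ^ 2 * (b * σ + 1) + 1 ≤ 2 ^ ((kf + b + 7) * L) := by
    have f1 : kf ≤ 2 ^ kf := Nat.lt_two_pow_self.le
    have f2 : (n + 2) ^ 2 ≤ 2 ^ (2 * L + 2) := by
      calc (n + 2) ^ 2 ≤ (2 ^ (L + 1)) ^ 2 := Nat.pow_le_pow_left hn.le _
        _ = _ := by rw [← pow_mul]; congr 1; ring
    have f3 : b * σ + 1 ≤ 2 ^ b * 2 ^ (2 * L) := by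
      have g1 : b + 1 ≤ 2 ^ b := Nat.lt_two_pow_self
      have g2 : σ ≤ 2 ^ (2 * L) := hσ2.trans Nat.lt_two_pow_self.le
      calc b * σ + 1 ≤ b * σ + σ := by omega
        _ = (b + 1) * σ := by ring
        _ ≤ _ := Nat.mul_le_mul g1 g2
    have f4 : kf * (n + 2) ^ 2 * (b * σ + 1) ≤ 2 ^ kf * 2 ^ (2 * L + 2) * (2 ^ b * 2 ^ (2 * L)) :=
      Nat.mul_le_mul (Nat.mul_le_mul f1 f2) f3
    have f5 : 2 ^ kf * 2 ^ (2 * L + 2) * (2 ^ b * 2 ^ (2 * L)) = 2 ^ (kf + b + 4 * L + 2) := by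
      rw [← pow_add, ← pow_add, ← pow_add]
      congr 1
      ring
    have f6 : 1 ≤ 2 ^ (kf + b + 4 * L + 2) := Nat.one_le_two_pow
    have f7 : 2 ^ (kf + b + 4 * L + 3) = 2 * 2 ^ (kf + b + 4 * L + 2) := by
      rw [← pow_succ']
    have f8 : kf + b + 4 * L + 3 ≤ (kf + b + 7) * L := by
      have : kf + b + 3 ≤ (kf + b + 3) * L := Nat.le_mul_of_pos_right _ hL
      calc kf + b + 4 * L + 3 ≤ (kf + b + 3) * L + 4 * L := by omega
        _ = _ := by ring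
    calc kf * (n + 2) ^ 2 * (b * σ + 1) + 1 ≤ 2 ^ (kf + b + 4 * L + 3) := by omega
      _ ≤ _ := Nat.pow_le_pow_right (by norm_num) f8
  have eB2 : (kf * (n + 2) ^ 2 * (b * σ + 1) + 1) ^ (b * σ + 2) ≤
      2 ^ ((kf + b + 7) * (b + 2) * (L * σ)) := by
    refine (Nat.pow_le_pow_left eB _).trans ?_
    rw [← pow_mul]
    refine Nat.pow_le_pow_right (by norm_num) ?_
    calc (kf + b + 7) * L * (b * σ + 2) ≤ (kf + b + 7) * L * (b * σ + 2 * σ) :=
          Nat.mul_le_mul_left _ (by omega)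
      _ = _ := by ring
  have hΛ : L ≤ L * σ := Nat.le_mul_of_pos_right _ hσ1
  generalize (kf * (n + 2) ^ 2 * (b * σ + 1) + 1) ^ (b * σ + 2) = R at *
  generalize (kf + b + 7) * (b + 2) = w at *
  generalize L * σ = Λ at *
  have hΛ1 : 1 ≤ Λ := hL.trans hΛ
  have e4 : 2 * kq * ((n + 2) * Bs ^ (b * Λ + D + 1) * R) ≤
      2 ^ (2 * kq) * (2 ^ (L + 1) * 2 ^ (Bs * (b * Λ + D + 1)) * 2 ^ (w * Λ)) := by
    gcongr
  have e5 : m + 2 * kq * ((n + 2) * Bs ^ (b * Λ + D + 1) * R) ≤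
      2 ^ (1 + (m + (2 * kq + (L + 1 + Bs * (b * Λ + D + 1) + w * Λ)))) := by
    have f1 : 1 ≤ 2 ^ m := Nat.one_le_two_pow
    have f2 : 1 ≤ 2 ^ (2 * kq) * (2 ^ (L + 1) * 2 ^ (Bs * (b * Λ + D + 1)) * 2 ^ (w * Λ)) :=
      Nat.pos_of_ne_zero (by positivity)
    generalize hX : 2 ^ (2 * kq) * (2 ^ (L + 1) * 2 ^ (Bs * (b * Λ + D + 1)) * 2 ^ (w * Λ)) = X at *
    calc m + 2 * kq * ((n + 2) * Bs ^ (b * Λ + D + 1) * R)
        ≤ 2 ^ m + X := Nat.add_le_add e3 e4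
      _ ≤ 2 ^ m * X + 2 ^ m * X :=
          Nat.add_le_add (Nat.le_mul_of_pos_right _ f2) (Nat.le_mul_of_pos_left _ f1)
      _ = 2 ^ 1 * (2 ^ m * X) := by ring
      _ = _ := by
        rw [← hX, pow_add 2 1, pow_add 2 m, pow_add 2 (2 * kq), pow_add 2 (L + 1 + _),
          pow_add 2 (L + 1)]
  refine e5.trans_lt ?_
  refine Nat.pow_lt_pow_right (by norm_num) ?_
  have g1 : m ≤ m * Λ := Nat.le_mul_of_pos_right _ hΛ1
  have g2 : 2 * kq ≤ 2 * kq * Λ := Nat.le_mul_of_pos_right _ hΛ1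
  have g3 : Bs * (b * Λ + D + 1) ≤ Bs * ((b + D + 1) * Λ) := by
    refine Nat.mul_le_mul_left _ ?_
    have : D + 1 ≤ (D + 1) * Λ := Nat.le_mul_of_pos_right _ hΛ1
    calc b * Λ + D + 1 ≤ b * Λ + (D + 1) * Λ := by omega
      _ = (b + D + 1) * Λ := by ring
  calc 1 + (m + (2 * kq + (L + 1 + Bs * (b * Λ + D + 1) + w * Λ)))
      ≤ 2 * Λ + (m * Λ + (2 * kq * Λ + (Λ + Bs * ((b + D + 1) * Λ) + w * Λ))) := by omega
    _ < 2 * Λ + (m * Λ + (2 * kq * Λ + (Λ + Bs * ((b + D + 1) * Λ) + w * Λ))) + Λ := by omega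
    _ = (m + 2 * kq + 4 + Bs * (b + D + 1) + w) * Λ := by ring

theorem initSpecR (α : Type) [Finite α] (b D : ℕ) {kq kf Bs : ℕ} (hq : 1 ≤ kq) (hf : 1 ≤ kf)
    (hB : 2 ≤ Bs) : InitSpecR α b kq kf Bs D := by
  obtain ⟨K, hK⟩ := finJ_bound b kq kf Bs D (Nat.card (Cell α))
  refine ⟨iniCJ (cod (Cell.right : Cell α)) kq kf Bs D b, K, fun x A hA => ?_⟩
  have h1 := (hK x.length).trans_le hA
  exact run_iniCJ hq hf hB (by omega) (by omega)

end

end Pool.Agent.Lib.MP_9277c3_lc.RN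
end

section
/-!
# Runs of small rank above a small height

The words which a one-way nondeterministic pushdown automaton accepts by a run with arbitrary
choices at a height of at most `b * (L * (sqrt L + 1))`, where `L = log n`, and of rank at most
`b * (sqrt L + 1)` above this height, are accepted by a nondeterministic Turing machine in space
`O(L * sqrt L)`.
-/
set_option autoImplicit false

namespace Pool.Agent.Lib.MP_9277c3_lc

namespace RN

open CM NC RC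

/-- The theorem. -/
theorem rank_nondeterminism (α : Type) [Finite α] (M : NPDA α) (hM : M.OneWay) (b : ℕ) :
    ∃ (c : ℕ) (T : NTM α), T.AcceptsIn
      (fun x => M.AcceptsRank
        (b * (Nat.log 2 (x.length + 2) * (Nat.sqrt (Nat.log 2 (x.length + 2)) + 1)))
        (b * (Nat.sqrt (Nat.log 2 (x.length + 2)) + 1)) x)
      fun n => c * (Nat.log 2 (n + 2) * (Nat.sqrt (Nat.log 2 (n + 2)) + 1)) := by
  obtain ⟨D₀, hD₀⟩ := exists_pushLe M
  have hD : PushLe M (D₀ + 1) := fun q c X r hr => (hD₀ q c X r hr).trans (Nat.le_succ _)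
  have hD1 : 1 ≤ D₀ + 1 := Nat.succ_pos _
  obtain ⟨K₀, hO⟩ := loopSpec M (D₀ + 1) hD hD1 (obSpec M _) (cntSpec M _) (lowSpecR M _)
    (highSpecR M _) (ruleSpec M _ (closeSpec M _) (qrySpec M _) (repSpec M _) (splSpec M _))
  have h1 : 1 ≤ Nat.card M.State := Nat.card_pos
  have h2 : 1 ≤ Nat.card M.Stack := Nat.card_pos
  exact machine_of M hM b (initSpecR α b (D₀ + 1) h1 (card_Fp_pos (M := M) _) (by omega)) hO
    (renSpec M) (simSpec M)

end RN

end Pool.Agent.Lib.MP_9277c3_lc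
end
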